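import Pool.Agent.Lib_helper15.TP.Facts
import Pool.Agent.Lib_helper68.LEV.MRT

/-!
# TPA, block TA1: the Mertens product from below
-/

set_option autoImplicit false

namespace Pool.Agent.TPA

open Finset Pool.Agent.PENT Pool.Agent.PATH.NC

theorem ta1_factor {p : ℕ} (hp : 3 ≤ p) :
    Real.exp (-(1 / (p : ℝ) + (1 / ((p : ℝ) - 1) - 1 / p))) ≤ 1 - 1 / (p : ℝ) := by
  have hp' : (3 : ℝ) ≤ p := by exact_mod_cast hp
  have h2 : (p : ℝ) - 1 ≠ 0 := by linarith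
  have h3 : (p : ℝ) ≠ 0 := by linarith
  have h1 : (1 - 1 / (p : ℝ)) = (1 / ((p : ℝ) - 1) + 1)⁻¹ := by
    refine eq_inv_of_mul_eq_one_left ?_
    field_simp
    ring
  have h4 : 0 < 1 / ((p : ℝ) - 1) + 1 := by
    have : 0 < (p : ℝ) - 1 := by linarith
    positivity
  rw [h1, Real.exp_neg]
  refine inv_anti₀ h4 ?_
  have h5 : 1 / (p : ℝ) + (1 / ((p : ℝ) - 1) - 1 / p) = 1 / ((p : ℝ) - 1) := by ring
  rw [h5]
  exact Real.add_one_le_exp _

theorem ta1_tele {D : ℕ} (hD : 2 ≤ D) :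
    ∑ n ∈ Icc 3 D, (1 / ((n : ℝ) - 1) - 1 / n) = 1 / 2 - 1 / D := by
  induction D, hD using Nat.le_induction with
  | base => simp
  | succ D hD ih =>
    rw [sum_Icc_succ_top (by omega), ih]
    push_cast
    have h1 : (2 : ℝ) ≤ D := by exact_mod_cast hD
    have h2 : (D : ℝ) ≠ 0 := by linarith
    have h3 : (D : ℝ) + 1 ≠ 0 := by linarith
    have h4 : (D : ℝ) + 1 - 1 = D := by ring
    rw [h4]
    ring

/-- block TA1: Mertens (e.g. `Lib_helper68.LEV.MRT` : `LEV.mertens_two`, or Lib_helper97/TRL) -/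
theorem kp_lower_pr : ∃ c : ℝ, 0 < c ∧ ∀ P1 : ℕ, 3 ≤ P1 → c / Real.log P1 ≤ kp P1 := by
  obtain ⟨C, hC⟩ := Pool.Agent.LEV.mertens_two
  refine ⟨Real.exp (-(C + 1)), Real.exp_pos _, fun P1 h3 => ?_⟩
  have hP : (3 : ℝ) ≤ P1 := by exact_mod_cast h3
  have hlog : 0 < Real.log P1 := Real.log_pos (by linarith)
  have h1 := hC P1 (by linarith)
  rw [Nat.floor_natCast, abs_le] at h1
  have hsub : ((Icc 3 P1).filter Nat.Prime) ⊆ (Icc 1 P1).filter Nat.Prime := by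
    intro p hp
    rw [mem_filter, mem_Icc] at hp ⊢
    exact ⟨⟨by omega, hp.1.2⟩, hp.2⟩
  have s1 : ∑ p ∈ (Icc 3 P1).filter Nat.Prime, 1 / (p : ℝ) ≤
      ∑ p ∈ (Icc 1 P1).filter Nat.Prime, 1 / (p : ℝ) :=
    sum_le_sum_of_subset_of_nonneg hsub fun p _ _ => by positivity
  have s2 : ∑ p ∈ (Icc 3 P1).filter Nat.Prime, (1 / ((p : ℝ) - 1) - 1 / p) ≤ 1 := by
    have h4 : ∑ p ∈ (Icc 3 P1).filter Nat.Prime, (1 / ((p : ℝ) - 1) - 1 / p) ≤
        ∑ p ∈ Icc 3 P1, (1 / ((p : ℝ) - 1) - 1 / p) := by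
      refine sum_le_sum_of_subset_of_nonneg (filter_subset _ _) fun p hp _ => ?_
      have hp' : (3 : ℝ) ≤ p := by exact_mod_cast (mem_Icc.1 hp).1
      have : 1 / (p : ℝ) ≤ 1 / ((p : ℝ) - 1) :=
        one_div_le_one_div_of_le (by linarith) (by linarith)
      linarith
    rw [ta1_tele (by omega)] at h4
    have : 0 ≤ 1 / (P1 : ℝ) := by positivity
    linarith
  have h5 : ∏ p ∈ (Icc 3 P1).filter Nat.Prime,
      Real.exp (-(1 / (p : ℝ) + (1 / ((p : ℝ) - 1) - 1 / p))) ≤ kp P1 := by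
    unfold kp
    refine prod_le_prod (fun p _ => (Real.exp_pos _).le) fun p hp => ?_
    exact ta1_factor (mem_Icc.1 (mem_filter.1 hp).1).1
  refine le_trans ?_ h5
  rw [← Real.exp_sum, Finset.sum_neg_distrib, Finset.sum_add_distrib]
  have h6 : Real.exp (-(C + 1)) / Real.log P1 = Real.exp (-(C + 1) - Real.log (Real.log P1)) := by
    rw [Real.exp_sub, Real.exp_log hlog]
  rw [h6]
  refine Real.exp_le_exp.2 ?_
  linarith [h1.2]

alias kp_lower := kp_lower_pr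

end Pool.Agent.TPA
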