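import Pool.Agent.Lib_helper15.TP.Facts

/-!
# MP_892e4c_nt (B*), (LB): sizes, scales, the data (helper15)
-/

set_option autoImplicit false

namespace Pool.Agent.TPA

open Finset Pool.Agent.PENT Pool.Agent.PATH.NC

/-- sizes -/
structure Siz (D : Dat) (X : ℕ) : Prop where
  big : 100 ≤ (X : ℝ) ^ (1 / 500 : ℝ)
  a : ∀ i, 1 ≤ D.A i ∧ D.A i ≤ (X : ℝ) ^ (1 / 500 : ℝ)
  z : ∀ i, 1 ≤ D.Z i ∧ D.Z i ≤ (X : ℝ) ^ (1 / 500 : ℝ)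
  d0 : (D.d0 : ℝ) ≤ (X : ℝ) ^ (1 / 500 : ℝ)
  d9 : (D.d9 : ℝ) ≤ (X : ℝ) ^ (1 / 500 : ℝ)

/-- the scale exponents as a sequence -/
def ex (ι : Fin 7 → ℕ) (l : ℕ) : ℕ := if h : l < 7 then ι ⟨l, h⟩ else 0

/-- the scales of the even vertices -/
noncomputable def sA (ι : Fin 7 → ℕ) (b : ℕ) : ℝ :=
  if b = 0 ∨ 5 ≤ b then 1 else 2 ^ ex ι (2 * b - 2)

/-- the scales of the odd vertices -/
noncomputable def sZ (ι : Fin 7 → ℕ) (b : ℕ) : ℝ := 2 ^ ex ι (2 * b - 1)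

/-- the scales are in the windows -/
def WinP (p : Prm 10) (X : ℕ) (ι : Fin 7 → ℕ) : Prop :=
  ∀ l : Fin 7, (X : ℝ) ^ p.e ⟨l.val + 2, by omega⟩ ≤ 2 ^ ι l ∧
    20 * 2 ^ ι l ≤ (X : ℝ) ^ (p.e ⟨l.val + 2, by omega⟩ + p.ew)

/-- the data -/
noncomputable def dat (X P1 : ℕ) (q : ℤ × ℤ × ℤ) (f : ℕ × ℕ) (ι : Fin 7 → ℕ)
    (z : Fin 4 → ℤ × ℤ) : Dat where
  P := PP X
  P1 := P1
  q := q
  A := sA ι
  Z := sZ ι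
  v := vx z
  d0 := f.1
  d9 := f.2

end Pool.Agent.TPA
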