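import Pool.Agent.Lib_helper15.TPF.Nest

/-!
# MP_892e4c_nt (B*), (LB): the sum over the paths (helper15)
-/

set_option autoImplicit false

namespace Pool.Agent.TPA

open Finset Filter Pool.Agent.PENT Pool.Agent.PATH.NC

/-- the parameters -/
structure GeoL (τ : ℝ) (p : Prm 10) : Prop where
  τ0 : 0 < τ
  τ1 : τ ≤ 1 / 200
  ok : p.Ok (min (1 / 1000) (τ / 10))

theorem geo_facts {τ : ℝ} {p : Prm 10} (hg : GeoL τ p) :
    0 < p.ew ∧ 0 < p.em ∧ (∀ l : Fin 7, 0 < p.e ⟨l.val + 2, by omega⟩) ∧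
      (∀ l : Fin 7, p.e ⟨l.val + 2, by omega⟩ + p.ew ≤ 1 / 500) ∧ p.ep ≤ 1 / 500 ∧ p.em ≤ p.ep ∧
      (∀ l : Fin 7, l.val % 2 = 0 → p.e ⟨l.val + 2, by omega⟩ + p.ew ≤ τ / 5 * p.em) ∧
      (∀ l : Fin 7, l.val % 2 = 1 → p.e ⟨l.val + 2, by omega⟩ = p.ep) := by
  obtain ⟨τ0, τ1, ok⟩ := hg
  set σ : ℝ := min (1 / 1000) (τ / 10) with hσ
  have hσ0 : 0 < σ := lt_min (by norm_num) (by linarith)
  have hσ1 : σ ≤ 1 / 1000 := min_le_left _ _
  have hσ2 : σ ≤ τ / 10 := min_le_right _ _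
  have hew := ok.ew0
  have he : ∀ l : Fin 7, 0 < p.e ⟨l.val + 2, by omega⟩ := by
    intro l
    have := ok.ew1 ⟨l.val + 2, by omega⟩ (by show 2 ≤ l.val + 2; omega)
      (by show l.val + 2 + 2 ≤ 10; have := l.isLt; omega)
    by_contra hne
    push Not at hne
    nlinarith
  have hodd : ∀ l : Fin 7, l.val % 2 = 1 → p.e ⟨l.val + 2, by omega⟩ = p.ep := by
    intro l hl
    exact ok.odd ⟨l.val + 2, by omega⟩ (by show 2 ≤ l.val + 2; omega)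
      (by show l.val + 2 + 2 ≤ 10; have := l.isLt; omega)
      (by rw [Nat.even_iff]; show ¬ (l.val + 2) % 2 = 0; omega)
  have hev : ∀ l : Fin 7, l.val % 2 = 0 → p.e ⟨l.val + 2, by omega⟩ ≤ σ * p.em := by
    intro l hl
    exact ok.even ⟨l.val + 2, by omega⟩ (by show 2 ≤ l.val + 2; omega)
      (by show l.val + 2 + 2 ≤ 10; have := l.isLt; omega)
      (by rw [Nat.even_iff]; show (l.val + 2) % 2 = 0; omega)
  have hem : 0 < p.em := by
    have h1 := hev 0 rfl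
    have h2 := he 0
    by_contra hne
    push Not at hne
    nlinarith
  have hta : 0 < p.ta := by
    have := ok.em_ta
    by_contra hne
    push Not at hne
    nlinarith
  have hep : 0 < p.ep := by
    have := ok.ta_ep
    by_contra hne
    push Not at hne
    nlinarith
  have hep1 : p.ep ≤ 1 / 1000 := ok.ep1.trans hσ1
  have hemta := ok.em_ta
  have htaep := ok.ta_ep
  have hem_ep : p.em ≤ p.ep := by nlinarith
  have hsz : ∀ l : Fin 7, p.e ⟨l.val + 2, by omega⟩ ≤ p.ep := by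
    intro l
    rcases Nat.mod_two_eq_zero_or_one l.val with h | h
    · have := hev l h
      nlinarith
    · exact (hodd l h).le
  have hewe : ∀ l : Fin 7, p.ew ≤ σ * p.e ⟨l.val + 2, by omega⟩ := by
    intro l
    exact ok.ew1 ⟨l.val + 2, by omega⟩ (by show 2 ≤ l.val + 2; omega)
      (by show l.val + 2 + 2 ≤ 10; have := l.isLt; omega)
  refine ⟨hew, hem, he, ?_, by linarith, hem_ep, ?_, hodd⟩
  · intro l
    have h1 := hsz l
    have h2 := hewe l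
    have h3 := he l
    nlinarith
  · intro l hl
    have h1 := hev l hl
    have h2 := hewe l
    have h3 := he l
    have h4 : σ * p.em ≤ τ / 10 * p.em := mul_le_mul_of_nonneg_right hσ2 hem.le
    have h5 : p.ew ≤ 1 * p.e ⟨l.val + 2, by omega⟩ :=
      h2.trans (mul_le_mul_of_nonneg_right (by linarith) h3.le)
    linarith

theorem ex_eq (ι : Fin 7 → ℕ) (l : Fin 7) : ex ι l.val = ι l := by
  unfold ex
  rw [dif_pos l.isLt]

/-- the scales of the windows -/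
theorem ex_bd {p : Prm 10} {X : ℕ} (hX : 1 ≤ X) {ι : Fin 7 → ℕ} (hι : WinP p X ι)
    (hsz : ∀ l : Fin 7, p.e ⟨l.val + 2, by omega⟩ + p.ew ≤ 1 / 500) (l : ℕ) :
    (1 : ℝ) ≤ 2 ^ ex ι l ∧ (2 : ℝ) ^ ex ι l ≤ (X : ℝ) ^ (1 / 500 : ℝ) := by
  have hX1 : (1 : ℝ) ≤ X := by exact_mod_cast hX
  refine ⟨one_le_pow₀ (by norm_num), ?_⟩
  by_cases hl : l < 7
  · have e : ex ι l = ι ⟨l, hl⟩ := by unfold ex; rw [dif_pos hl]
    rw [e]
    have h1 := (hι ⟨l, hl⟩).2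
    have h2 : (X : ℝ) ^ (p.e ⟨l + 2, by omega⟩ + p.ew) ≤ (X : ℝ) ^ (1 / 500 : ℝ) :=
      Real.rpow_le_rpow_of_exponent_le hX1 (hsz ⟨l, hl⟩)
    have h3 : (0 : ℝ) < 2 ^ ι ⟨l, hl⟩ := by positivity
    have h1' : 20 * (2 : ℝ) ^ ι ⟨l, hl⟩ ≤ (X : ℝ) ^ (p.e ⟨l + 2, by omega⟩ + p.ew) := h1
    linarith
  · have e : ex ι l = 0 := by unfold ex; rw [dif_neg hl]
    rw [e, pow_zero]
    exact Real.one_le_rpow hX1 (by norm_num)

theorem siz_dat {p : Prm 10} {τ : ℝ} (hg : GeoL τ p) {X P1 : ℕ} (hX : 1 ≤ X)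
    (hbig : 100 ≤ (X : ℝ) ^ (1 / 500 : ℝ)) {q : ℤ × ℤ × ℤ} {f : ℕ × ℕ} (hf : f ∈ Fac p X)
    {ι : Fin 7 → ℕ} (hι : WinP p X ι) (z : Fin 4 → ℤ × ℤ) : Siz (dat X P1 q f ι z) X := by
  classical
  obtain ⟨h1, h2, h3, h4, h5, h6, h7, h8⟩ := geo_facts hg
  have hX1 : (1 : ℝ) ≤ X := by exact_mod_cast hX
  have hb := ex_bd hX hι h4
  have hX500 : (1 : ℝ) ≤ (X : ℝ) ^ (1 / 500 : ℝ) := Real.one_le_rpow hX1 (by norm_num)
  have hff : EF p X f.1 ∧ EF p X f.2 ∧ Nat.Coprime f.1 f.2 := by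
    unfold Fac at hf
    exact (Finset.mem_filter.1 hf).2
  refine ⟨hbig, ?_, ?_, ?_, ?_⟩
  · intro i
    show 1 ≤ sA ι i ∧ sA ι i ≤ _
    unfold sA
    split_ifs
    · exact ⟨le_rfl, hX500⟩
    · exact hb _
  · intro i
    exact hb _
  · exact hff.1.hi.trans (Real.rpow_le_rpow_of_exponent_le hX1 h5)
  · exact hff.2.1.hi.trans (Real.rpow_le_rpow_of_exponent_le hX1 h5)

theorem mem_Fac {p : Prm 10} {X : ℕ} {f : ℕ × ℕ} (hf : f ∈ Fac p X) :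
    EF p X f.1 ∧ EF p X f.2 ∧ Nat.Coprime f.1 f.2 := by
  classical
  unfold Fac at hf
  exact (Finset.mem_filter.1 hf).2

theorem mem_TinF {P1 : ℕ} {S : Finset ℕ} {A : ℕ → ℝ} {z : Fin 4 → ℤ × ℤ} (h : z ∈ TinF P1 S A) :
    Tin P1 S A (vx z) := by
  classical
  unfold TinF at h
  exact (Finset.mem_filter.1 h).2

theorem hyp_dat {p : Prm 10} {X P1 : ℕ} (hP : (P1 : ℝ) ≤ PP X) {q : ℤ × ℤ × ℤ} {f : ℕ × ℕ}
    (hf : f ∈ Fac p X) {ι : Fin 7 → ℕ} {z : Fin 4 → ℤ × ℤ}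
    (hz : z ∈ TinF P1 (f.1 * f.2).primeFactors (sA ι)) : (dat X P1 q f ι z).Hyp := by
  obtain ⟨a, b, c⟩ := mem_Fac hf
  refine ⟨hP, ?_, ?_, ?_, ?_, mem_TinF hz, a.dp, b.dp, c⟩
  · show sA ι 0 = 1
    unfold sA; rw [if_pos (Or.inl rfl)]
  · show sA ι 5 = 1
    unfold sA; rw [if_pos (Or.inr le_rfl)]
  · intro i
    show 0 < sA ι i
    unfold sA; split_ifs <;> positivity
  · intro i
    show 0 < sZ ι i
    unfold sZ; positivity

theorem sA_eq (ι : Fin 7 → ℕ) {b : ℕ} (h1 : 1 ≤ b) (h4 : b ≤ 4) :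
    sA ι b = 2 ^ ι ⟨2 * b - 2, by omega⟩ := by
  unfold sA
  rw [if_neg (by omega)]
  congr 1
  unfold ex
  rw [dif_pos (by omega)]

theorem sZ_eq (ι : Fin 7 → ℕ) {b : ℕ} (h1 : 1 ≤ b) (h3 : b ≤ 3) :
    sZ ι b = 2 ^ ι ⟨2 * b - 1, by omega⟩ := by
  unfold sZ
  congr 1
  unfold ex
  rw [dif_pos (by omega)]

/-- the windows and the moduli -/
theorem win_dat {p : Prm 10} {τ : ℝ} (hg : GeoL τ p) : ∃ X₀ : ℕ, ∀ X ≥ X₀, ∀ (P1 : ℕ)
    (q : ℤ × ℤ × ℤ) (f : ℕ × ℕ), f ∈ Fac p X → ∀ ι : Fin 7 → ℕ, WinP p X ι →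
    ∀ z : Fin 4 → ℤ × ℤ, (dat X P1 q f ι z).Hyp →
    (∀ j, 1 ≤ j → j ≤ 8 → (X : ℝ) ^ p.em ≤ (dat X P1 q f ι z).win j) ∧
      ∀ b, b ≤ 4 → (De (dat X P1 q f ι z).v b : ℝ) ≤ (X : ℝ) ^ (p.em * τ) := by
  obtain ⟨h1, h2, h3, h4, h5, h6, h7, h8⟩ := geo_facts hg
  have hτ0 := hg.τ0
  have t1 : Tendsto (fun X : ℕ => (X : ℝ) ^ (τ / 5 * p.em)) atTop atTop :=
    (tendsto_rpow_atTop (by positivity)).comp tendsto_natCast_atTop_atTop
  have t2 : ∀ l : Fin 7, Tendsto (fun X : ℕ => (X : ℝ) ^ p.e ⟨l.val + 2, by omega⟩) atTop atTop :=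
    fun l => (tendsto_rpow_atTop (h3 l)).comp tendsto_natCast_atTop_atTop
  have e1 := t1.eventually_ge_atTop 17
  have e2 : ∀ᶠ X : ℕ in atTop, ∀ l : Fin 7, 2 ≤ (X : ℝ) ^ p.e ⟨l.val + 2, by omega⟩ :=
    eventually_all.2 (fun l => (t2 l).eventually_ge_atTop 2)
  obtain ⟨X₀, hX₀⟩ := eventually_atTop.1 (e1.and e2)
  refine ⟨X₀ + 1, fun X hX P1 q f hf ι hι z hy => ?_⟩
  obtain ⟨a1, a2⟩ := hX₀ X (by omega)
  have hX1 : (1 : ℝ) ≤ X := by exact_mod_cast (by omega : 1 ≤ X)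
  have hX0 : (0 : ℝ) < X := by linarith
  obtain ⟨f1, f2, f3⟩ := mem_Fac hf
  set D := dat X P1 q f ι z with hD
  -- the scales
  have hA : ∀ b, 1 ≤ b → b ≤ 4 → 2 ≤ D.A b ∧ D.A b ≤ (X : ℝ) ^ (τ / 5 * p.em) := by
    intro b hb1 hb4
    have e : D.A b = 2 ^ ι ⟨2 * b - 2, by omega⟩ := sA_eq ι hb1 hb4
    have h9 := hι ⟨2 * b - 2, by omega⟩
    have h10 := a2 ⟨2 * b - 2, by omega⟩
    have h11 := h7 ⟨2 * b - 2, by omega⟩ (by show (2 * b - 2) % 2 = 0; omega)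
    rw [e]
    refine ⟨h10.trans h9.1, ?_⟩
    have h12 := Real.rpow_le_rpow_of_exponent_le hX1 h11
    have h13 : (0 : ℝ) < 2 ^ ι ⟨2 * b - 2, by omega⟩ := by positivity
    have h14 := h9.2
    linarith
  have hA' : ∀ b, b ≤ 5 → D.A b ≤ (X : ℝ) ^ (τ / 5 * p.em) := by
    intro b hb
    rcases Nat.eq_zero_or_pos b with rfl | h0
    · rw [hy.a0]; exact Real.one_le_rpow hX1 (by positivity)
    · rcases Nat.eq_or_lt_of_le hb with rfl | h5'
      · rw [hy.a5]; exact Real.one_le_rpow hX1 (by positivity)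
      · exact (hA b h0 (by omega)).2
  have hZ : ∀ b, 1 ≤ b → b ≤ 3 → (X : ℝ) ^ p.em ≤ D.Z b := by
    intro b hb1 hb3
    have e : D.Z b = 2 ^ ι ⟨2 * b - 1, by omega⟩ := sZ_eq ι hb1 hb3
    rw [e]
    have h9 := (hι ⟨2 * b - 1, by omega⟩).1
    have h11 := h8 ⟨2 * b - 1, by omega⟩ (by show (2 * b - 1) % 2 = 1; omega)
    refine le_trans ?_ h9
    apply Real.rpow_le_rpow_of_exponent_le hX1
    show p.em ≤ p.e ⟨2 * b - 1 + 2, by omega⟩
    have h11' : p.e ⟨2 * b - 1 + 2, by omega⟩ = p.ep := h11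
    rw [h11']; exact h6
  refine ⟨?_, ?_⟩
  · intro j hj1 hj8
    by_cases hj : j = 1
    · subst hj
      have hD0 : (0 : ℝ) < De D.v 0 := by exact_mod_cast hy.De_pos (by norm_num : 0 ≤ 4)
      have e : D.win 1 = De D.v 0 * (D.d0 * D.A 1 / De D.v 0) / D.A 0 := rfl
      rw [e, hy.a0, div_one, mul_div_cancel₀ _ hD0.ne']
      have h9 := (hA 1 le_rfl (by norm_num)).1
      have h10 : (X : ℝ) ^ p.em ≤ (D.d0 : ℝ) := f1.lo
      have h11 : (0 : ℝ) < D.d0 := by exact_mod_cast hy.d0_pos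
      nlinarith
    by_cases hj8' : j = 8
    · subst hj8'
      have hD0 : (0 : ℝ) < De D.v 4 := by exact_mod_cast hy.De_pos (by norm_num : 4 ≤ 4)
      have e : D.win 8 = De D.v 4 * (D.d9 * D.A 4 / De D.v 4) / D.A 5 := rfl
      rw [e, hy.a5, div_one, mul_div_cancel₀ _ hD0.ne']
      have h9 := (hA 4 (by norm_num) (by norm_num)).1
      have h10 : (X : ℝ) ^ p.em ≤ (D.d9 : ℝ) := f2.lo
      have h11 : (0 : ℝ) < D.d9 := by exact_mod_cast hy.d9_pos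
      nlinarith
    have hb1 : 1 ≤ j / 2 := by omega
    have hb3 : j / 2 ≤ 3 := by omega
    have eZ : D.ZZ (j / 2) = D.Z (j / 2) := by
      unfold Dat.ZZ
      rw [if_neg (by omega), if_neg (by omega)]
    have hz1 := hZ _ hb1 hb3
    have hde := (hy.De_bd (b := j / 2) (by omega)).1
    have hzp := hy.zpos (j / 2)
    have hX0' : 0 < (X : ℝ) ^ p.em := Real.rpow_pos_of_pos hX0 _
    unfold Dat.win
    rw [eZ]
    split_ifs with hpar
    · have ha := (hA (j / 2) hb1 (by omega)).1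
      have ha' := hy.apos (j / 2 + 1)
      rw [le_div_iff₀ ha']
      have m1 : 7 / 10 * (D.A (j / 2) * D.A (j / 2 + 1)) * D.Z (j / 2) ≤
          De D.v (j / 2) * D.Z (j / 2) := mul_le_mul_of_nonneg_right hde hzp.le
      have m2 : 1 * D.A (j / 2 + 1) ≤ 7 / 10 * (D.A (j / 2) * D.A (j / 2 + 1)) := by nlinarith
      have m3 : (X : ℝ) ^ p.em * D.A (j / 2 + 1) ≤ D.Z (j / 2) * D.A (j / 2 + 1) :=
        mul_le_mul_of_nonneg_right hz1 ha'.le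
      nlinarith
    · have ha := (hA (j / 2 + 1) (by omega) (by omega)).1
      have ha' := hy.apos (j / 2)
      rw [le_div_iff₀ ha']
      have m1 : 7 / 10 * (D.A (j / 2) * D.A (j / 2 + 1)) * D.Z (j / 2) ≤
          De D.v (j / 2) * D.Z (j / 2) := mul_le_mul_of_nonneg_right hde hzp.le
      have m2 : 1 * D.A (j / 2) ≤ 7 / 10 * (D.A (j / 2) * D.A (j / 2 + 1)) := by nlinarith
      have m3 : (X : ℝ) ^ p.em * D.A (j / 2) ≤ D.Z (j / 2) * D.A (j / 2) :=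
        mul_le_mul_of_nonneg_right hz1 ha'.le
      nlinarith
  · intro b hb
    have h9 := (hy.De_bd hb).2
    have h10 := hA' b (by omega)
    have h11 := hA' (b + 1) (by omega)
    have h12 := hy.apos b
    have h13 := hy.apos (b + 1)
    calc (De D.v b : ℝ) ≤ 17 * (D.A b * D.A (b + 1)) := h9
      _ ≤ (X : ℝ) ^ (τ / 5 * p.em) * ((X : ℝ) ^ (τ / 5 * p.em) * (X : ℝ) ^ (τ / 5 * p.em)) :=
          mul_le_mul a1 (mul_le_mul h10 h11 h13.le (by positivity)) (by positivity) (by positivity)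
      _ = (X : ℝ) ^ (3 * (τ / 5 * p.em)) := by
          rw [← Real.rpow_add hX0, ← Real.rpow_add hX0]; congr 1; ring
      _ ≤ (X : ℝ) ^ (p.em * τ) := by
          apply Real.rpow_le_rpow_of_exponent_le hX1
          have : 0 < τ * p.em := by positivity
          nlinarith

end Pool.Agent.TPA
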