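import Pool.Agent.Lib_helper15.TP.Facts

/-! Block TA2: the good residues -/

set_option autoImplicit false

namespace Pool.Agent.TPA

open Finset Pool.Agent.PENT Pool.Agent.PATH.NC

open Classical in
/-- two coprime moduli -/
theorem ta2_crt {m n : ℕ} (hm : 0 < m) (hn : 0 < n) (h : Nat.Coprime m n) (f g : ℕ → Prop)
    (hf : ∀ r, f r ↔ f (r % m)) (hg : ∀ r, g r ↔ g (r % n)) :
    ((range (m * n)).filter (fun r => f r ∧ g r)).card =
      ((range m).filter f).card * ((range n).filter g).card := by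
  rw [← Finset.card_product]
  refine Finset.card_nbij' (fun r => (r % m, r % n))
    (fun x => ((Nat.chineseRemainder h x.1 x.2 : ℕ))) ?_ ?_ ?_ ?_
  · intro r hr
    rw [Finset.mem_coe, Finset.mem_filter, Finset.mem_range] at hr
    rw [Finset.mem_coe, Finset.mem_product, Finset.mem_filter, Finset.mem_filter,
      Finset.mem_range, Finset.mem_range]
    exact ⟨⟨Nat.mod_lt _ hm, (hf r).1 hr.2.1⟩, ⟨Nat.mod_lt _ hn, (hg r).1 hr.2.2⟩⟩
  · rintro ⟨a, b⟩ hx
    rw [Finset.mem_coe, Finset.mem_product, Finset.mem_filter, Finset.mem_filter,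
      Finset.mem_range, Finset.mem_range] at hx
    rw [Finset.mem_coe, Finset.mem_filter, Finset.mem_range]
    obtain ⟨⟨ha, hfa⟩, ⟨hb, hgb⟩⟩ := hx
    have h1 := (Nat.chineseRemainder h a b).2
    have e1 : (Nat.chineseRemainder h a b : ℕ) % m = a := by
      have := h1.1
      unfold Nat.ModEq at this
      rw [this, Nat.mod_eq_of_lt ha]
    have e2 : (Nat.chineseRemainder h a b : ℕ) % n = b := by
      have := h1.2
      unfold Nat.ModEq at this
      rw [this, Nat.mod_eq_of_lt hb]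
    refine ⟨Nat.chineseRemainder_lt_mul h a b hm.ne' hn.ne', ?_, ?_⟩
    · rw [hf, e1]
      exact hfa
    · rw [hg, e2]
      exact hgb
  · intro r hr
    rw [Finset.mem_coe, Finset.mem_filter, Finset.mem_range] at hr
    have h1 := (Nat.chineseRemainder h (r % m) (r % n)).2
    have h2 : (Nat.chineseRemainder h (r % m) (r % n) : ℕ) ≡ r [MOD m * n] := by
      rw [← Nat.modEq_and_modEq_iff_modEq_mul h]
      exact ⟨h1.1.trans (Nat.mod_modEq _ _), h1.2.trans (Nat.mod_modEq _ _)⟩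
    exact Nat.ModEq.eq_of_lt_of_lt h2 (Nat.chineseRemainder_lt_mul h _ _ hm.ne' hn.ne') hr.1
  · rintro ⟨a, b⟩ hx
    rw [Finset.mem_coe, Finset.mem_product, Finset.mem_filter, Finset.mem_filter,
      Finset.mem_range, Finset.mem_range] at hx
    obtain ⟨⟨ha, -⟩, ⟨hb, -⟩⟩ := hx
    have h1 := (Nat.chineseRemainder h a b).2
    have e1 : (Nat.chineseRemainder h a b : ℕ) % m = a := by
      have := h1.1
      unfold Nat.ModEq at this
      rw [this, Nat.mod_eq_of_lt ha]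
    have e2 : (Nat.chineseRemainder h a b : ℕ) % n = b := by
      have := h1.2
      unfold Nat.ModEq at this
      rw [this, Nat.mod_eq_of_lt hb]
    show ((Nat.chineseRemainder h a b : ℕ) % m, (Nat.chineseRemainder h a b : ℕ) % n) = (a, b)
    rw [e1, e2]

open Classical in
/-- many moduli -/
theorem ta2_prod (T : Finset ℕ) (hT : ∀ p ∈ T, p.Prime) (B : ℕ → ℕ → Prop)
    (hB : ∀ p ∈ T, ∀ r, B p r ↔ B p (r % p)) :
    ((range (∏ p ∈ T, p)).filter (fun r => ∀ p ∈ T, B p r)).card =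
      ∏ p ∈ T, ((range p).filter (B p)).card := by
  induction T using Finset.induction_on with
  | empty => simp
  | insert p T hp ih =>
    have ih' := ih (fun r hr => hT r (Finset.mem_insert_of_mem hr))
      (fun r hr => hB r (Finset.mem_insert_of_mem hr))
    rw [Finset.prod_insert hp, Finset.prod_insert hp, ← ih']
    have hpp := hT p (Finset.mem_insert_self _ _)
    have hpos : 0 < ∏ p ∈ T, p := Finset.prod_pos fun r hr =>
      (hT r (Finset.mem_insert_of_mem hr)).pos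
    have hcop : Nat.Coprime p (∏ p ∈ T, p) := by
      apply Nat.Coprime.prod_right
      intro r hr
      exact (Nat.coprime_primes hpp (hT r (Finset.mem_insert_of_mem hr))).2
        (fun h => hp (h ▸ hr))
    have hcr : (∀ r, (∀ q ∈ T, B q r) ↔ (∀ q ∈ T, B q (r % ∏ p ∈ T, p))) →
        ((range (p * ∏ x ∈ T, x)).filter (fun r => B p r ∧ ∀ q ∈ T, B q r)).card =
          ((range p).filter (B p)).card *
            ((range (∏ p ∈ T, p)).filter (fun r => ∀ p ∈ T, B p r)).card := by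
      intro hg
      refine (Eq.trans ?_ ((ta2_crt hpp.pos hpos hcop (B p) (fun r => ∀ q ∈ T, B q r)
        (hB p (Finset.mem_insert_self _ _)) hg).trans ?_))
      · congr
      · congr
    refine Eq.trans ?_ (hcr ?_)
    · congr 1
      ext r
      rw [Finset.mem_filter, Finset.mem_filter]
      constructor
      · rintro ⟨h1, h2⟩
        exact ⟨h1, h2 p (Finset.mem_insert_self _ _),
          fun q hq => h2 q (Finset.mem_insert_of_mem hq)⟩
      · rintro ⟨h1, h2, h3⟩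
        refine ⟨h1, fun q hq => ?_⟩
        rcases Finset.mem_insert.1 hq with rfl | hq
        · exact h2
        · exact h3 q hq
    · intro r
      have key : ∀ q ∈ T, (B q r ↔ B q (r % ∏ p ∈ T, p)) := by
        intro q hq
        have h1 := hB q (Finset.mem_insert_of_mem hq)
        rw [h1 r, h1 (r % ∏ p ∈ T, p), Nat.mod_mod_of_dvd _ (Finset.dvd_prod_of_mem _ hq)]
      constructor
      · intro h q hq
        exact (key q hq).1 (h q hq)
      · intro h q hq
        exact (key q hq).2 (h q hq)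

/-- the form is a quadratic polynomial -/
theorem ta2_form (q : ℤ × ℤ × ℤ) (v w : ℤ × ℤ) (s r : ℤ) :
    fv q (lc v w s r) = fv q v * r ^ 2 +
      (2 * s * (q.1 * v.1 * w.1 + q.2.1 * (v.1 * w.2 + v.2 * w.1) + q.2.2 * v.2 * w.2)) * r +
        s ^ 2 * fv q w := by
  unfold fv lc qf
  ring

theorem ta2_disc (q : ℤ × ℤ × ℤ) (v w : ℤ × ℤ) :
    fv q v * fv q w - (q.1 * v.1 * w.1 + q.2.1 * (v.1 * w.2 + v.2 * w.1) +
      q.2.2 * v.2 * w.2) ^ 2 = (q.1 * q.2.2 - q.2.1 ^ 2) * dt v w ^ 2 := by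
  unfold fv qf dt
  ring

theorem ta2_coeff2 {R : Type*} [CommRing R] (a b c : R) :
    (Polynomial.C a * Polynomial.X ^ 2 + Polynomial.C b * Polynomial.X +
      Polynomial.C c).coeff 2 = a := by
  simp [Polynomial.coeff_X, Polynomial.coeff_C, Polynomial.coeff_X_pow]

theorem ta2_coeff1 {R : Type*} [CommRing R] (a b c : R) :
    (Polynomial.C a * Polynomial.X ^ 2 + Polynomial.C b * Polynomial.X +
      Polynomial.C c).coeff 1 = b := by
  simp [Polynomial.coeff_X, Polynomial.coeff_C, Polynomial.coeff_X_pow]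

theorem ta2_coeff0 {R : Type*} [CommRing R] (a b c : R) :
    (Polynomial.C a * Polynomial.X ^ 2 + Polynomial.C b * Polynomial.X +
      Polynomial.C c).coeff 0 = c := by
  simp [Polynomial.coeff_X, Polynomial.coeff_C, Polynomial.coeff_X_pow]

open Classical in
/-- at most three bad residues -/
theorem ta2_bad {p : ℕ} (hp : p.Prime) (hp2 : 2 < p) (q : ℤ × ℤ × ℤ)
    (hq : q.1 * q.2.2 - q.2.1 ^ 2 = 1) (v w : ℤ × ℤ) (hvw : ¬ (p : ℤ) ∣ dt v w) (s : ℤ)
    (hs : ¬ (p : ℤ) ∣ s) :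
    ((range p).filter (fun r : ℕ => p ∣ r ∨ (p : ℤ) ∣ fv q (lc v w s r))).card ≤ 3 := by
  haveI := Fact.mk hp
  set β : ℤ := q.1 * v.1 * w.1 + q.2.1 * (v.1 * w.2 + v.2 * w.1) + q.2.2 * v.2 * w.2 with hβ
  set P : Polynomial (ZMod p) := Polynomial.C ((fv q v : ℤ) : ZMod p) * Polynomial.X ^ 2 +
    Polynomial.C ((2 * s * β : ℤ) : ZMod p) * Polynomial.X +
      Polynomial.C ((s ^ 2 * fv q w : ℤ) : ZMod p) with hP
  have hP0 : P ≠ 0 := by
    intro h0
    have c2 : P.coeff 2 = ((fv q v : ℤ) : ZMod p) := by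
      rw [hP]
      exact ta2_coeff2 _ _ _
    have c1 : P.coeff 1 = ((2 * s * β : ℤ) : ZMod p) := by
      rw [hP]
      exact ta2_coeff1 _ _ _
    have c0 : P.coeff 0 = ((s ^ 2 * fv q w : ℤ) : ZMod p) := by
      rw [hP]
      exact ta2_coeff0 _ _ _
    rw [h0, Polynomial.coeff_zero] at c2 c1 c0
    have d2 : (p : ℤ) ∣ fv q v := (ZMod.intCast_zmod_eq_zero_iff_dvd _ _).1 c2.symm
    have d1 : (p : ℤ) ∣ 2 * s * β := (ZMod.intCast_zmod_eq_zero_iff_dvd _ _).1 c1.symm
    have hpi : Prime (p : ℤ) := Nat.prime_iff_prime_int.1 hp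
    have e1 : (p : ℤ) ∣ β := by
      rcases hpi.dvd_or_dvd d1 with h | h
      · rcases hpi.dvd_or_dvd h with h | h
        · exfalso
          have := Int.le_of_dvd (by norm_num) h
          omega
        · exact absurd h hs
      · exact h
    have e2 := ta2_disc q v w
    rw [hq, one_mul, ← hβ] at e2
    apply hvw
    have e3 : (p : ℤ) ∣ dt v w ^ 2 := by
      rw [← e2]
      exact dvd_sub (d2.mul_right _) (dvd_pow e1 (by norm_num))
    exact hpi.dvd_of_dvd_pow e3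
  have hdeg : P.natDegree ≤ 2 := by
    rw [hP]
    exact Polynomial.natDegree_quadratic_le
  have hroots : P.roots.toFinset.card ≤ 2 :=
    (Multiset.toFinset_card_le _).trans ((Polynomial.card_roots' P).trans hdeg)
  have hinj : Set.InjOn (fun r : ℕ => (r : ZMod p))
      ((range p).filter (fun r : ℕ => p ∣ r ∨ (p : ℤ) ∣ fv q (lc v w s r))) := by
    intro a ha b hb hab
    rw [Finset.mem_coe, Finset.mem_filter, Finset.mem_range] at ha hb
    have h1 := (ZMod.natCast_eq_natCast_iff' a b p).1 hab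
    rwa [Nat.mod_eq_of_lt ha.1, Nat.mod_eq_of_lt hb.1] at h1
  rw [← Finset.card_image_of_injOn hinj]
  have hsub : ((range p).filter (fun r : ℕ => p ∣ r ∨ (p : ℤ) ∣ fv q (lc v w s r))).image
      (fun r : ℕ => (r : ZMod p)) ⊆ insert 0 P.roots.toFinset := by
    intro x hx
    rw [Finset.mem_image] at hx
    obtain ⟨r, hr, rfl⟩ := hx
    rw [Finset.mem_filter, Finset.mem_range] at hr
    rw [Finset.mem_insert]
    rcases hr.2 with h | h
    · left
      exact (ZMod.natCast_eq_zero_iff r p).2 h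
    · right
      rw [Multiset.mem_toFinset, Polynomial.mem_roots hP0, Polynomial.IsRoot.def, hP]
      have h1 : ((fv q (lc v w s r) : ℤ) : ZMod p) = 0 :=
        (ZMod.intCast_zmod_eq_zero_iff_dvd _ _).2 h
      rw [ta2_form, ← hβ] at h1
      simp only [Polynomial.eval_add, Polynomial.eval_mul, Polynomial.eval_C, Polynomial.eval_pow,
        Polynomial.eval_X]
      rw [← h1]
      push_cast
      ring
  calc _ ≤ (insert 0 P.roots.toFinset).card := Finset.card_le_card hsub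
    _ ≤ P.roots.toFinset.card + 1 := Finset.card_insert_le _ _
    _ ≤ 3 := by omega

/-- the inequality of the local factors -/
theorem ta2_ineq {p : ℝ} (hp : 5 ≤ p) : (1 - 1 / p) ^ 5 * p ≤ p - 3 := by
  have hp0 : 0 < p := by linarith
  set x := 1 / p with hx
  have hx0 : 0 < x := by positivity
  have hx1 : x ≤ 1 / 5 := by
    rw [hx]
    exact one_div_le_one_div_of_le (by norm_num) hp
  have hpx : p * x = 1 := by
    rw [hx]
    field_simp
  have h1 : (1 - x) ^ 5 ≤ 1 - 3 * x := by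
    have : (1 - x) ^ 5 = 1 - 3 * x - (2 * x - 10 * x ^ 2 + 10 * x ^ 3 - 5 * x ^ 4 + x ^ 5) := by
      ring
    rw [this]
    have h2 : 0 ≤ 2 * x - 10 * x ^ 2 + 10 * x ^ 3 - 5 * x ^ 4 + x ^ 5 := by
      have e1 : 2 * x - 10 * x ^ 2 + 10 * x ^ 3 - 5 * x ^ 4 + x ^ 5 =
          2 * x * (1 - 5 * x) + 5 * x ^ 3 * (2 - x) + x ^ 5 := by ring
      rw [e1]
      have e2 : 0 ≤ 1 - 5 * x := by linarith
      have e3 : 0 ≤ 2 - x := by linarith
      positivity
    linarith
  calc (1 - x) ^ 5 * p ≤ (1 - 3 * x) * p := mul_le_mul_of_nonneg_right h1 hp0.le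
    _ = p - 3 * (p * x) := by ring
    _ = p - 3 := by rw [hpx, mul_one]

open Classical in
/-- the local count -/
theorem ta2_local {p : ℕ} (hp : p.Prime) (hp2 : 2 < p) (q : ℤ × ℤ × ℤ)
    (hq : q.1 * q.2.2 - q.2.1 ^ 2 = 1) (v w : ℤ × ℤ) (hvw : ¬ (p : ℤ) ∣ dt v w) (s : ℤ)
    (hs : ¬ (p : ℤ) ∣ s) :
    (1 - 1 / (p : ℝ)) ^ 5 * p ≤ (((range p).filter (fun r : ℕ => ¬ p ∣ r ∧
      (p % 4 = 1 → ¬ (p : ℤ) ∣ fv q (lc v w s r)))).card : ℝ) := by
  have hp0 : (0 : ℝ) < p := by exact_mod_cast hp.pos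
  by_cases h4 : p % 4 = 1
  · have hp5 : 5 ≤ p := by
      by_contra h
      have : p = 3 ∨ p = 4 := by omega
      rcases this with rfl | rfl <;> omega
    have h1 := ta2_bad hp hp2 q hq v w hvw s hs
    have h2 := Finset.card_filter_add_card_filter_not (s := range p)
      (fun r : ℕ => p ∣ r ∨ (p : ℤ) ∣ fv q (lc v w s r))
    rw [Finset.card_range] at h2
    have h3 : ((range p).filter (fun r : ℕ => ¬ p ∣ r ∧
        (p % 4 = 1 → ¬ (p : ℤ) ∣ fv q (lc v w s r)))) =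
        (range p).filter (fun r : ℕ => ¬ (p ∣ r ∨ (p : ℤ) ∣ fv q (lc v w s r))) := by
      apply Finset.filter_congr
      intro r _
      rw [not_or]
      exact ⟨fun h => ⟨h.1, h.2 h4⟩, fun h => ⟨h.1, fun _ => h.2⟩⟩
    rw [h3]
    refine (ta2_ineq (by exact_mod_cast hp5)).trans ?_
    have h5 : (p : ℝ) ≤ 3 + (((range p).filter
        (fun r : ℕ => ¬ (p ∣ r ∨ (p : ℤ) ∣ fv q (lc v w s r)))).card : ℝ) := by
      exact_mod_cast (by omega : p ≤ 3 + ((range p).filter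
        (fun r : ℕ => ¬ (p ∣ r ∨ (p : ℤ) ∣ fv q (lc v w s r)))).card)
    linarith
  · have h3 : (range p).erase 0 ⊆ (range p).filter (fun r : ℕ => ¬ p ∣ r ∧
        (p % 4 = 1 → ¬ (p : ℤ) ∣ fv q (lc v w s r))) := by
      intro r hr
      rw [Finset.mem_erase, Finset.mem_range] at hr
      rw [Finset.mem_filter, Finset.mem_range]
      refine ⟨hr.2, fun h => ?_, fun h => absurd h h4⟩
      have := Nat.le_of_dvd (Nat.pos_of_ne_zero hr.1) h
      omega
    have h5 := Finset.card_le_card h3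
    rw [Finset.card_erase_of_mem (Finset.mem_range.2 hp.pos), Finset.card_range] at h5
    have h6 : (p : ℝ) - 1 ≤ (((range p).filter (fun r : ℕ => ¬ p ∣ r ∧
        (p % 4 = 1 → ¬ (p : ℤ) ∣ fv q (lc v w s r)))).card : ℝ) := by
      have : ((p - 1 : ℕ) : ℝ) = (p : ℝ) - 1 := by
        rw [Nat.cast_sub hp.one_lt.le, Nat.cast_one]
      rw [← this]
      exact_mod_cast h5
    refine le_trans ?_ h6
    have h7 : 1 / (p : ℝ) ≤ 1 := by
      rw [div_le_one hp0]
      exact_mod_cast hp.one_lt.le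
    have h8 : (1 - 1 / (p : ℝ)) ^ 5 ≤ (1 - 1 / (p : ℝ)) ^ 1 :=
      pow_le_pow_of_le_one (by linarith) (by
        have : 0 < 1 / (p : ℝ) := by positivity
        linarith) (by norm_num)
    calc (1 - 1 / (p : ℝ)) ^ 5 * p ≤ (1 - 1 / (p : ℝ)) ^ 1 * p :=
          mul_le_mul_of_nonneg_right h8 hp0.le
      _ = (p : ℝ) - 1 := by
          field_simp

open Classical in
theorem good_count_pr (P1 : ℕ) (q : ℤ × ℤ × ℤ) (hq : q.1 * q.2.2 - q.2.1 ^ 2 = 1) (v w : ℤ × ℤ)
    (hvw : ∀ p : ℕ, p.Prime → p ≤ P1 → ¬ (p : ℤ) ∣ dt v w) (s : ℤ)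
    (hs : ∀ p : ℕ, p.Prime → p ≤ P1 → ¬ (p : ℤ) ∣ s) :
    kp P1 ^ 5 * (Ro P1 : ℝ) ≤ (((range (Ro P1)).filter (fun r : ℕ =>
      (∀ p : ℕ, p.Prime → 2 < p → p ≤ P1 → ¬ p ∣ r) ∧ NI P1 q (lc v w s r))).card : ℝ) := by
  obtain ⟨T, hT⟩ : ∃ T : Finset ℕ, T = (Icc 3 P1).filter Nat.Prime := ⟨_, rfl⟩
  have hmem : ∀ p ∈ T, p.Prime ∧ 2 < p ∧ p ≤ P1 := by
    intro p hp
    rw [hT, Finset.mem_filter, Finset.mem_Icc] at hp
    exact ⟨hp.2, by omega, hp.1.2⟩
  have h1 := ta2_prod T (fun p hp => (hmem p hp).1)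
    (fun p r => ¬ p ∣ r ∧ (p % 4 = 1 → ¬ (p : ℤ) ∣ fv q (lc v w s r))) (by
      intro p hp r
      have e1 : (p ∣ r) ↔ (p ∣ r % p) := by
        rw [Nat.dvd_mod_iff (dvd_refl p)]
      have e2 : ((p : ℤ) ∣ fv q (lc v w s r)) ↔ ((p : ℤ) ∣ fv q (lc v w s ((r % p : ℕ) : ℤ))) := by
        rw [← Int.dvd_iff_dvd_of_dvd_sub]
        rw [ta2_form, ta2_form]
        have e3 : (p : ℤ) ∣ (r : ℤ) - ((r % p : ℕ) : ℤ) := by
          rw [Int.natCast_mod]
          exact Int.dvd_self_sub_emod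
        obtain ⟨k, hk⟩ := e3
        refine ⟨(-k) * (fv q v * ((r : ℤ) + ((r % p : ℕ) : ℤ)) + 2 * s * (q.1 * v.1 * w.1 +
          q.2.1 * (v.1 * w.2 + v.2 * w.1) + q.2.2 * v.2 * w.2)), ?_⟩
        linear_combination -(fv q v * ((r : ℤ) + ((r % p : ℕ) : ℤ)) + 2 * s * (q.1 * v.1 * w.1 +
          q.2.1 * (v.1 * w.2 + v.2 * w.1) + q.2.2 * v.2 * w.2)) * hk
      rw [e1, e2])
  have h2 : ((range (Ro P1)).filter (fun r : ℕ =>
      (∀ p : ℕ, p.Prime → 2 < p → p ≤ P1 → ¬ p ∣ r) ∧ NI P1 q (lc v w s r))) =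
      (range (∏ p ∈ T, p)).filter (fun r => ∀ p ∈ T, ¬ p ∣ r ∧
        (p % 4 = 1 → ¬ (p : ℤ) ∣ fv q (lc v w s r))) := by
    have e0 : Ro P1 = ∏ p ∈ T, p := by
      rw [hT]
      rfl
    rw [e0]
    apply Finset.filter_congr
    intro r _
    constructor
    · rintro ⟨ha, hb⟩ p hp
      obtain ⟨a1, a2, a3⟩ := hmem p hp
      exact ⟨ha p a1 a2 a3, fun h4 => hb p a1 h4 a3⟩
    · intro h
      have hm : ∀ p : ℕ, p.Prime → 2 < p → p ≤ P1 → p ∈ T := by
        intro p a1 a2 a3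
        rw [hT, Finset.mem_filter, Finset.mem_Icc]
        exact ⟨⟨by omega, a3⟩, a1⟩
      refine ⟨fun p a1 a2 a3 => (h p (hm p a1 a2 a3)).1, ?_⟩
      intro l hl hl4 hlP
      have hl2 : 2 < l := by
        have := hl.two_le
        by_contra hcon
        have : l = 2 := by omega
        rw [this] at hl4
        norm_num at hl4
      exact (h l (hm l hl hl2 hlP)).2 hl4
  have h1' : ((range (∏ p ∈ T, p)).filter (fun r : ℕ => ∀ p ∈ T, ¬ p ∣ r ∧
      (p % 4 = 1 → ¬ (p : ℤ) ∣ fv q (lc v w s r)))).card =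
      ∏ p ∈ T, ((range p).filter (fun r : ℕ => ¬ p ∣ r ∧
        (p % 4 = 1 → ¬ (p : ℤ) ∣ fv q (lc v w s r)))).card := by
    refine Eq.trans ?_ (h1.trans ?_)
    · congr
    · refine Finset.prod_congr rfl fun p _ => ?_
      congr
  rw [h2, h1']
  have h3 : kp P1 ^ 5 * (Ro P1 : ℝ) = ∏ p ∈ T, ((1 - 1 / (p : ℝ)) ^ 5 * p) := by
    unfold kp Ro
    rw [← hT, Finset.prod_mul_distrib, Finset.prod_pow]
    push_cast
    rfl
  rw [h3]
  push_cast
  apply Finset.prod_le_prod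
  · intro p hp
    have hp1 := (hmem p hp).1.one_lt
    have : (1 : ℝ) ≤ p := by exact_mod_cast hp1.le
    have h4 : 1 / (p : ℝ) ≤ 1 := by
      rw [div_le_one (by linarith)]
      exact this
    have h5 : 0 ≤ 1 - 1 / (p : ℝ) := by linarith
    positivity
  · intro p hp
    obtain ⟨a1, a2, a3⟩ := hmem p hp
    exact ta2_local a1 a2 q hq v w (hvw p a1 a3) s (hs p a1 a3)

alias good_count := good_count_pr

end Pool.Agent.TPA
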