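import Pool.Agent.Lib_helper15.TP.Facts
import Pool.Agent.Lib_helper15.TPF.Defs2
import Pool.Agent.Lib_helper15.TPF.TA2

/-!
# MP_892e4c_nt (B*), (LB): block TA3 (helper50)
-/

set_option autoImplicit false

namespace Pool.Agent.TPA

open Finset Pool.Agent.PENT Pool.Agent.PATH.NC

theorem ta3_prod_totient (s : Finset ℕ) (hs : ∀ p ∈ s, p.Prime) :
    (((∏ p ∈ s, p : ℕ)).totient : ℝ) =
      (∏ p ∈ s, (1 - 1 / (p : ℝ))) * ((∏ p ∈ s, p : ℕ) : ℝ) := by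
  classical
  induction s using Finset.induction_on with
  | empty => simp
  | @insert a s ha ih =>
    have hap : a.Prime := hs a (Finset.mem_insert_self _ _)
    have hs' : ∀ p ∈ s, p.Prime := fun p hp => hs p (Finset.mem_insert_of_mem hp)
    rw [Finset.prod_insert ha, Finset.prod_insert ha]
    have hcop : Nat.Coprime a (∏ p ∈ s, p) := by
      apply Nat.Coprime.prod_right
      intro p hp
      exact (Nat.coprime_primes hap (hs' p hp)).2 (fun h => ha (h ▸ hp))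
    rw [Nat.totient_mul hcop, Nat.totient_prime hap]
    have h1 : ((a - 1 : ℕ) : ℝ) = (1 - 1 / (a : ℝ)) * a := by
      rw [Nat.cast_sub hap.one_le]
      have : (a : ℝ) ≠ 0 := by exact_mod_cast hap.ne_zero
      field_simp
      simp
    push_cast at ih ⊢
    rw [h1, ih hs']
    ring

theorem ta3_Ro_pos (P1 : ℕ) : 0 < Ro P1 :=
  Finset.prod_pos (fun _ hp => (Finset.mem_filter.1 hp).2.pos)

theorem ta3_Ro_totient (P1 : ℕ) : ((Ro P1).totient : ℝ) = kp P1 * (Ro P1 : ℝ) := by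
  unfold Ro kp
  exact ta3_prod_totient _ (fun p hp => (Finset.mem_filter.1 hp).2)

theorem ta3_dvd_Ro {P1 p : ℕ} (hp : p.Prime) (h2 : 2 < p) (hP : p ≤ P1) : p ∣ Ro P1 := by
  unfold Ro
  exact Finset.dvd_prod_of_mem (fun p => p)
    (Finset.mem_filter.2 ⟨Finset.mem_Icc.2 ⟨h2, hP⟩, hp⟩)

theorem ta3_of_dvd_Ro {P1 p : ℕ} (hp : p.Prime) (h : p ∣ Ro P1) : 2 < p ∧ p ≤ P1 := by
  unfold Ro at h
  obtain ⟨a, ha, hpa⟩ := (hp.prime.dvd_finsetProd_iff _).1 h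
  obtain ⟨h1, h2⟩ := Finset.mem_filter.1 ha
  have : p = a := (Nat.prime_dvd_prime_iff_eq hp h2).1 hpa
  subst this
  have := Finset.mem_Icc.1 h1
  exact ⟨by omega, this.2⟩

theorem ta3_kp_nonneg (P1 : ℕ) : 0 ≤ kp P1 := by
  unfold kp
  apply Finset.prod_nonneg
  intro p hp
  have h1 := (Finset.mem_filter.1 hp).2.two_le
  have h2 : (2 : ℝ) ≤ p := by exact_mod_cast h1
  have h3 : 1 / (p : ℝ) ≤ 1 / 2 := one_div_le_one_div_of_le (by norm_num) h2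
  linarith

/-- the condition `NI` depends on the residue modulo `Ro` only -/
theorem ta3_NI_congr {P1 : ℕ} {q : ℤ × ℤ × ℤ} {v w : ℤ × ℤ} {s n r : ℤ}
    (h : (Ro P1 : ℤ) ∣ n - r) (hr : NI P1 q (lc v w s r)) : NI P1 q (lc v w s n) := by
  intro l hl h4 hP hd
  apply hr l hl h4 hP
  have h2 : 2 < l := by
    rcases lt_or_ge 2 l with h | h
    · exact h
    · exfalso
      have := hl.two_le
      have : l = 2 := by omega
      subst this
      omega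
  have h3 : (l : ℤ) ∣ n - r :=
    (Int.natCast_dvd_natCast.2 (ta3_dvd_Ro hl h2 hP)).trans h
  obtain ⟨k, hk⟩ := h3
  have hn : n = r + l * k := by linarith
  obtain ⟨m, hm⟩ := hd
  rw [hn] at hm
  unfold fv qf lc at hm ⊢
  simp only at hm ⊢
  refine ⟨m - (q.1 * (2 * (s * w.1 + r * v.1) * v.1 * k + l * k ^ 2 * v.1 ^ 2) +
    2 * q.2.1 * ((s * w.1 + r * v.1) * v.2 * k + (s * w.2 + r * v.2) * v.1 * k +
      l * k ^ 2 * v.1 * v.2) + q.2.2 * (2 * (s * w.2 + r * v.2) * v.2 * k +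
        l * k ^ 2 * v.2 ^ 2)), ?_⟩
  linear_combination hm

/-- the Chinese remainder theorem -/
theorem ta3_crt {a b : ℕ} (h : Nat.Coprime a b) (x y : ℤ) :
    ∃ z : ℤ, (a : ℤ) ∣ z - x ∧ (b : ℤ) ∣ z - y := by
  obtain ⟨m, n, hmn⟩ := Nat.isCoprime_iff_coprime.2 h
  refine ⟨x + m * a * (y - x), ⟨m * (y - x), by ring⟩, ⟨-(n * (y - x)), ?_⟩⟩
  linear_combination (y - x) * hmn

theorem ta3_cop_of_dvd_sub {a x z : ℤ} (h : a ∣ z - x) (hx : IsCoprime x a) :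
    IsCoprime z a := by
  obtain ⟨k, hk⟩ := h
  have e : z = x + a * k := by linarith
  rw [e]
  exact IsCoprime.add_mul_left_left hx k

theorem ta3_fw_nonneg {P α : ℝ} (hα : 0 ≤ α) (n : ℕ) : 0 ≤ fw P α n := by
  unfold fw
  split_ifs
  · positivity
  · exact le_rfl

open Classical in
/-- block TA3 (uses TA2, `zq_of`): the sum at a closing step. `τ := τ' / 2`, `τ'` from `zq_of`
(and `τ ≤ 1`); for every good `r` of TA2 the number `r'` with `r' = r₀ (Δ)`, `r' = r (Ro P1)`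
is prime to `Δ Ro`, and `PD W P (Δ Ro) r' F` is contained in the set of the right side
(`NI` depends on `n mod Ro`), these sets are disjoint; `ZQ` for each,
`φ(Ro)/Ro = kp P1`, `φ(Δ Ro) = φ(Δ) φ(Ro)`. `Ro` is a constant: `X` large. -/
theorem close_sum_pr {α : ℝ} (hα : 0 < α) (hα1 : α ≤ 1) : ∃ τ : ℝ, 0 < τ ∧ ∀ δ : ℝ,
    0 < δ → ∃ c : ℝ, 0 < c ∧ ∀ P1 : ℕ, 3 ≤ P1 → ∃ X₀ : ℕ, ∀ X ≥ X₀, ∀ P : ℝ, PX X P →
    ∀ (W : ℝ) (Δ : ℕ) (r₀ : ℤ) (F : Finset (ℕ × ℤ)) (q : ℤ × ℤ × ℤ) (v w : ℤ × ℤ) (s : ℤ),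
    q.1 * q.2.2 - q.2.1 ^ 2 = 1 → (X : ℝ) ^ δ ≤ W → W ≤ X →
    (∀ p : ℕ, p.Prime → p ≤ P1 → ¬ p ∣ Δ) → 0 < Δ → (Δ : ℝ) ≤ (X : ℝ) ^ (δ * τ) →
    IsCoprime r₀ (Δ : ℤ) → (∀ a ∈ F, a.1.Prime ∧ P < (a.1 : ℝ) ∧ ¬ a.1 ∣ Δ) →
    (F.card : ℝ) ≤ 100 * Real.log X → (∀ p : ℕ, p.Prime → p ≤ P1 → ¬ (p : ℤ) ∣ dt v w) →
    (∀ p : ℕ, p.Prime → p ≤ P1 → ¬ (p : ℤ) ∣ s) →
    c * kp P1 ^ 6 * ell X P α * ((Δ.totient : ℝ) / (Δ : ℝ) ^ 2) ≤
      ∑ n ∈ (PD W P Δ r₀ F).filter (fun n : ℕ => NI P1 q (lc v w s (n : ℤ))), fw P α n / n := by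
  obtain ⟨τ', hτ', HZ⟩ := zq_of hα hα1
  refine ⟨τ' / 2, by positivity, fun δ hδ => ?_⟩
  obtain ⟨c, hc, X₁, hZQ⟩ := HZ δ hδ
  refine ⟨c, hc, fun P1 hP1 => ?_⟩
  have t1 : Filter.Tendsto (fun X : ℕ => (X : ℝ) ^ (δ * (τ' / 2))) Filter.atTop Filter.atTop :=
    (tendsto_rpow_atTop (by positivity)).comp tendsto_natCast_atTop_atTop
  have t2 : Filter.Tendsto (fun X : ℕ => Real.log (X : ℝ)) Filter.atTop Filter.atTop :=
    Real.tendsto_log_atTop.comp tendsto_natCast_atTop_atTop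
  obtain ⟨X₂, hX₂⟩ := Filter.eventually_atTop.1
    ((t1.eventually_ge_atTop (Ro P1 : ℝ)).and (t2.eventually_ge_atTop ((P1 : ℝ) + 1)))
  refine ⟨max X₁ (max X₂ 1), fun X hX P hPX W Δ r₀ F q v w s hq hW1 hW2 hΔ hΔ0 hΔX hr₀ hF hFc
    hvw hs => ?_⟩
  have hXX1 : X₁ ≤ X := le_trans (le_max_left _ _) hX
  have hXX2 : X₂ ≤ X := le_trans (le_max_left _ _) (le_trans (le_max_right _ _) hX)
  have hX1 : 1 ≤ X := le_trans (le_max_right _ _) (le_trans (le_max_right _ _) hX)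
  have hX0 : (0 : ℝ) < X := by exact_mod_cast hX1
  obtain ⟨a1, a2⟩ := hX₂ X hXX2
  have hP10 : (3 : ℝ) ≤ P1 := by exact_mod_cast hP1
  have hlX : 1 ≤ Real.log X := by linarith
  have hPbig : (P1 : ℝ) < P := by
    calc (P1 : ℝ) < Real.log X := by linarith
      _ = Real.log X ^ 1 := (pow_one _).symm
      _ ≤ Real.log X ^ 20 := pow_le_pow_right₀ hlX (by norm_num)
      _ ≤ P := hPX.lo
  have hlogP : 0 ≤ Real.log P := Real.log_nonneg (by linarith)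
  have hell : 0 ≤ ell X P α := by
    unfold ell
    exact mul_nonneg (Real.rpow_nonneg hlogP _) (Real.rpow_nonneg (by linarith) _)
  have hRo := ta3_Ro_pos P1
  have hRoR : (0 : ℝ) < Ro P1 := by exact_mod_cast hRo
  have hΔR : (0 : ℝ) < Δ := by exact_mod_cast hΔ0
  have hW0 : 0 ≤ W := le_trans (Real.rpow_nonneg hX0.le _) hW1
  -- coprimality of `Δ` and `Ro`
  have hcop : Nat.Coprime Δ (Ro P1) := by
    rw [Nat.coprime_iff_gcd_eq_one]
    by_contra hne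
    obtain ⟨p, hp, hpd⟩ := Nat.exists_prime_and_dvd hne
    exact hΔ p hp (ta3_of_dvd_Ro hp (hpd.trans (Nat.gcd_dvd_right _ _))).2
      (hpd.trans (Nat.gcd_dvd_left _ _))
  have hodd : Odd (Δ * Ro P1) := by
    rw [← Nat.not_even_iff_odd, even_iff_two_dvd]
    intro h
    rcases (Nat.Prime.dvd_mul Nat.prime_two).1 h with h | h
    · exact hΔ 2 Nat.prime_two (by omega) h
    · exact absurd (ta3_of_dvd_Ro Nat.prime_two h).1 (by norm_num)
  -- the good residues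
  set R := (range (Ro P1)).filter (fun r : ℕ =>
      (∀ p : ℕ, p.Prime → 2 < p → p ≤ P1 → ¬ p ∣ r) ∧ NI P1 q (lc v w s r)) with hR
  have hRc : kp P1 ^ 5 * (Ro P1 : ℝ) ≤ (R.card : ℝ) := good_count P1 q hq v w hvw s hs
  choose f hf1 hf2 using fun r : ℕ => ta3_crt hcop r₀ (r : ℤ)
  have hrc : ∀ r ∈ R, IsCoprime (f r) ((Δ * Ro P1 : ℕ) : ℤ) := by
    intro r hr
    push_cast
    apply IsCoprime.mul_right
    · exact ta3_cop_of_dvd_sub (hf1 r) hr₀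
    · refine ta3_cop_of_dvd_sub (hf2 r) ?_
      rw [Nat.isCoprime_iff_coprime, Nat.coprime_iff_gcd_eq_one]
      by_contra hne
      obtain ⟨p, hp, hpd⟩ := Nat.exists_prime_and_dvd hne
      obtain ⟨b1, b2⟩ := ta3_of_dvd_Ro hp (hpd.trans (Nat.gcd_dvd_right _ _))
      exact (Finset.mem_filter.1 hr).2.1 p hp b1 b2 (hpd.trans (Nat.gcd_dvd_left _ _))
  -- the lower bound for each residue
  have hsum : ∀ r ∈ R, c * ell X P α * (((Δ * Ro P1 : ℕ).totient : ℝ) /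
      (((Δ * Ro P1 : ℕ) : ℝ)) ^ 2) ≤ ∑ n ∈ PD W P (Δ * Ro P1) (f r) F, fw P α n / n := by
    intro r hr
    refine hZQ X hXX1 P hPX W (Δ * Ro P1) (f r) F hW1 hW2 hodd ?_ (hrc r hr) ?_ hFc
    · push_cast
      calc (Δ : ℝ) * Ro P1 ≤ (X : ℝ) ^ (δ * (τ' / 2)) * (X : ℝ) ^ (δ * (τ' / 2)) :=
            mul_le_mul hΔX a1 hRoR.le (Real.rpow_nonneg hX0.le _)
        _ = (X : ℝ) ^ (δ * τ') := by
            rw [← Real.rpow_add hX0]; congr 1; ring
    · intro a ha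
      obtain ⟨b1, b2, b3⟩ := hF a ha
      refine ⟨b1, b2, fun hd => ?_⟩
      rcases (Nat.Prime.dvd_mul b1).1 hd with h | h
      · exact b3 h
      · have h1 := (ta3_of_dvd_Ro b1 h).2
        have h2 : (a.1 : ℝ) ≤ P1 := by exact_mod_cast h1
        linarith
  -- the sets are contained in the set of the right side
  have hsub : (R.biUnion (fun r => PD W P (Δ * Ro P1) (f r) F)) ⊆
      (PD W P Δ r₀ F).filter (fun n : ℕ => NI P1 q (lc v w s (n : ℤ))) := by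
    intro n hn
    obtain ⟨r, hr, hn⟩ := Finset.mem_biUnion.1 hn
    rw [mem_PD hW0] at hn
    obtain ⟨n1, n2, n3, n4, n5⟩ := hn
    push_cast at n3
    have e1 : (Δ : ℤ) ∣ (n : ℤ) - r₀ := by
      have := dvd_add ((dvd_mul_right _ _).trans n3) (hf1 r)
      simpa using this
    have e2 : (Ro P1 : ℤ) ∣ (n : ℤ) - r := by
      have := dvd_add ((dvd_mul_left _ _).trans n3) (hf2 r)
      simpa using this
    rw [Finset.mem_filter, mem_PD hW0]
    exact ⟨⟨n1, n2, e1, n4, n5⟩, ta3_NI_congr e2 (Finset.mem_filter.1 hr).2.2⟩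
  have hdisj : (R : Set ℕ).PairwiseDisjoint (fun r => PD W P (Δ * Ro P1) (f r) F) := by
    intro r hr r' hr' hne
    rw [Function.onFun, Finset.disjoint_left]
    intro n hn hn'
    apply hne
    rw [mem_PD hW0] at hn hn'
    have k1 := hn.2.2.1
    have k2 := hn'.2.2.1
    push_cast at k1 k2
    have e1 : (Ro P1 : ℤ) ∣ (n : ℤ) - r := by
      have := dvd_add ((dvd_mul_left _ _).trans k1) (hf2 r)
      simpa using this
    have e2 : (Ro P1 : ℤ) ∣ (n : ℤ) - r' := by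
      have := dvd_add ((dvd_mul_left _ _).trans k2) (hf2 r')
      simpa using this
    have e3 : (Ro P1 : ℤ) ∣ (r' : ℤ) - r := by
      have := dvd_sub e1 e2
      simpa using this
    have g1 : r < Ro P1 := Finset.mem_range.1 (Finset.mem_filter.1 hr).1
    have g2 : r' < Ro P1 := Finset.mem_range.1 (Finset.mem_filter.1 hr').1
    have e4 : r ≡ r' [MOD Ro P1] := (Nat.modEq_iff_dvd).2 e3
    exact Nat.ModEq.eq_of_lt_of_lt e4 g1 g2
  calc c * kp P1 ^ 6 * ell X P α * ((Δ.totient : ℝ) / (Δ : ℝ) ^ 2)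
      = (kp P1 ^ 5 * (Ro P1 : ℝ)) * (c * ell X P α * (((Δ * Ro P1 : ℕ).totient : ℝ) /
      (((Δ * Ro P1 : ℕ) : ℝ)) ^ 2)) := by
        rw [Nat.totient_mul hcop]
        push_cast
        rw [ta3_Ro_totient]
        field_simp
    _ ≤ (R.card : ℝ) * (c * ell X P α * (((Δ * Ro P1 : ℕ).totient : ℝ) /
      (((Δ * Ro P1 : ℕ) : ℝ)) ^ 2)) := by
        apply mul_le_mul_of_nonneg_right hRc
        positivity
    _ = ∑ r ∈ R, (c * ell X P α * (((Δ * Ro P1 : ℕ).totient : ℝ) /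
      (((Δ * Ro P1 : ℕ) : ℝ)) ^ 2)) := by
        rw [Finset.sum_const, nsmul_eq_mul]
    _ ≤ ∑ r ∈ R, ∑ n ∈ PD W P (Δ * Ro P1) (f r) F, fw P α n / n := Finset.sum_le_sum hsum
    _ = ∑ n ∈ R.biUnion (fun r => PD W P (Δ * Ro P1) (f r) F), fw P α n / n :=
        (Finset.sum_biUnion hdisj).symm
    _ ≤ _ := by
        apply Finset.sum_le_sum_of_subset_of_nonneg hsub
        intro n _ _
        exact div_nonneg (ta3_fw_nonneg hα.le n) (Nat.cast_nonneg n)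

alias close_sum := close_sum_pr

end Pool.Agent.TPA
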