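import Pool.Agent.Lib_helper15.TP.Facts
import Pool.Agent.Lib_helper8.PENT.B.zb
import Pool.Agent.Lib_helper8.PENT.B.zc

/-!
# MP_892e4c_nt (B*), (LB), block TB1: the number of the admissible classes (helper24)
-/

set_option autoImplicit false

namespace Pool.Agent.TPA

open Finset Pool.Agent.PENT Pool.Agent.PATH.NC

open Classical in
/-- `K` if `P` holds, otherwise `0` -/
noncomputable def tb1_i (P : Prop) (K : ℝ) : ℝ := if P then K else 0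

theorem tb1_i_pos {P : Prop} (h : P) (K : ℝ) : tb1_i P K = K := by
  unfold tb1_i
  rw [if_pos h]

theorem tb1_i_neg {P : Prop} (h : ¬ P) (K : ℝ) : tb1_i P K = 0 := by
  unfold tb1_i
  rw [if_neg h]

theorem tb1_i_congr {P Q : Prop} (h : P ↔ Q) (K : ℝ) : tb1_i P K = tb1_i Q K := by
  rw [propext h]

/-! ### boxes -/

/-- the integer points of the box -/
noncomputable def tb1_B (A a b : ℝ) : Finset (ℤ × ℤ) :=
  (Ioc (⌈A * a⌉ - 1) ⌊101 / 100 * (A * a)⌋) ×ˢ (Ioc (⌈A * b⌉ - 1) ⌊101 / 100 * (A * b)⌋)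

theorem tb1_mem {A a b : ℝ} {w : ℤ × ℤ} (h : w ∈ tb1_B A a b) : Cx 1 A a b w := by
  unfold tb1_B at h
  rw [mem_product, mem_Ioc, mem_Ioc] at h
  obtain ⟨⟨h1, h2⟩, h3, h4⟩ := h
  have g1 : ⌈A * a⌉ ≤ w.1 := by omega
  have g3 : ⌈A * b⌉ ≤ w.2 := by omega
  refine ⟨Int.ceil_le.1 g1, ?_, Int.ceil_le.1 g3, ?_⟩
  · rw [pow_one]; exact Int.le_floor.1 h2
  · rw [pow_one]; exact Int.le_floor.1 h4

theorem tb1_len {A a : ℝ} (hA : 200 ≤ A) (ha : 1 ≤ a) :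
    A / 200 ≤ ((⌊101 / 100 * (A * a)⌋ - (⌈A * a⌉ - 1) : ℤ) : ℝ) := by
  have h1 := Int.lt_floor_add_one (101 / 100 * (A * a))
  have h2 := Int.ceil_lt_add_one (A * a)
  push_cast
  nlinarith

theorem tb1_box {m : ℕ} (hm : 0 < m) {δ : ℝ} (hδ : 0 < δ) (hδ1 : δ ≤ 1) {A a b : ℝ}
    (hA : 1200 * m / δ ≤ A) (ha : 1 ≤ a) (hb : 1 ≤ b) {h : ℤ → ℤ → ℝ} (hh : Per m h)
    (h01 : ∀ s t, 0 ≤ h s t ∧ h s t ≤ 1) (hav : δ ≤ av m h) :
    1 / 80000 * A ^ 2 * av m h ≤ ∑ w ∈ tb1_B A a b, h w.1 w.2 := by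
  have hm1 : (1 : ℝ) ≤ m := by exact_mod_cast hm
  have hA2 : 1200 * m ≤ A * δ := (div_le_iff₀ hδ).1 hA
  have hA200 : 200 ≤ A := by nlinarith
  have l1 := tb1_len hA200 ha
  have l2 := tb1_len hA200 hb
  set L : ℝ := ((⌊101 / 100 * (A * a)⌋ - (⌈A * a⌉ - 1) : ℤ) : ℝ) with hL
  set L' : ℝ := ((⌊101 / 100 * (A * b)⌋ - (⌈A * b⌉ - 1) : ℤ) : ℝ) with hL'
  have pL : 0 < L := by linarith
  have pL' : 0 < L' := by linarith
  have o1 : ⌈A * a⌉ - 1 ≤ ⌊101 / 100 * (A * a)⌋ := by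
    have : (0 : ℝ) < ((⌊101 / 100 * (A * a)⌋ - (⌈A * a⌉ - 1) : ℤ) : ℝ) := pL
    have : 0 < ⌊101 / 100 * (A * a)⌋ - (⌈A * a⌉ - 1) := by exact_mod_cast this
    omega
  have o2 : ⌈A * b⌉ - 1 ≤ ⌊101 / 100 * (A * b)⌋ := by
    have : (0 : ℝ) < ((⌊101 / 100 * (A * b)⌋ - (⌈A * b⌉ - 1) : ℤ) : ℝ) := pL'
    have : 0 < ⌊101 / 100 * (A * b)⌋ - (⌈A * b⌉ - 1) := by exact_mod_cast this
    omega
  have key := box_av hm hh h01 _ _ _ _ o1 o2
  rw [← hL, ← hL'] at key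
  have key2 := (abs_le.1 key).1
  have s1 : ∑ w ∈ tb1_B A a b, h w.1 w.2 =
      ∑ s ∈ Ioc (⌈A * a⌉ - 1) ⌊101 / 100 * (A * a)⌋,
        ∑ t ∈ Ioc (⌈A * b⌉ - 1) ⌊101 / 100 * (A * b)⌋, h s t := by
    unfold tb1_B
    rw [sum_product]
  rw [s1]
  have m1 : 6 * (m : ℝ) ≤ δ * L := by nlinarith
  have m2 : 6 * (m : ℝ) ≤ δ * L' := by nlinarith
  have e1 : (m : ℝ) * L ≤ δ / 6 * (L * L') := by nlinarith
  have e2 : (m : ℝ) * L' ≤ δ / 6 * (L * L') := by nlinarith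
  have e3 : (m : ℝ) ^ 2 ≤ δ / 6 * (L * L') := by
    have q1 : (6 * (m : ℝ)) * (6 * m) ≤ (δ * L) * (δ * L') :=
      mul_le_mul m1 m2 (by positivity) (by positivity)
    have q2 : (δ * L) * (δ * L') ≤ δ * (L * L') := by
      have : 0 ≤ L * L' := by positivity
      nlinarith
    nlinarith [mul_pos pL pL']
  have e4 : δ * (L * L') ≤ av m h * (L * L') :=
    mul_le_mul_of_nonneg_right hav (by positivity)
  have e5 : (A / 200) * (A / 200) ≤ L * L' := mul_le_mul l1 l2 (by positivity) pL.le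
  have e6 : (A / 200) * (A / 200) * av m h ≤ L * L' * av m h :=
    mul_le_mul_of_nonneg_right e5 (hδ.le.trans hav)
  nlinarith

/-! ### one prime -/

theorem tb1_card {p : ℕ} (hp : p.Prime) {c : ℤ} (hc : ¬ (p : ℤ) ∣ c) (e : ℤ) :
    (p : ℝ) - 1 ≤ ∑ b ∈ range p, (if ¬ (p : ℤ) ∣ c * b - e then (1 : ℝ) else 0) := by
  classical
  have hp' : Prime (p : ℤ) := Nat.prime_iff_prime_int.1 hp
  have h1 : ((range p).filter (fun b : ℕ => (p : ℤ) ∣ c * b - e)).card ≤ 1 := by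
    rw [card_le_one]
    intro x hx y hy
    obtain ⟨x1, x2⟩ := mem_filter.1 hx
    obtain ⟨y1, y2⟩ := mem_filter.1 hy
    have h3 : (p : ℤ) ∣ c * ((x : ℤ) - y) := by
      have := dvd_sub x2 y2
      have e0 : c * (x : ℤ) - e - (c * y - e) = c * ((x : ℤ) - y) := by ring
      rwa [e0] at this
    have h4 := (hp'.dvd_or_dvd h3).resolve_left hc
    have x3 := mem_range.1 x1
    have y3 := mem_range.1 y1
    obtain ⟨k, hk⟩ := h4
    have hk0 : k = 0 := by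
      by_contra hne
      rcases lt_or_gt_of_ne hne with h | h
      · have : (p : ℤ) * k ≤ -(p : ℤ) := by nlinarith [hp.pos]
        omega
      · have : (p : ℤ) ≤ (p : ℤ) * k := by nlinarith [hp.pos]
        omega
    rw [hk0, mul_zero] at hk
    omega
  have h2 := card_filter_add_card_filter_not (s := range p) (fun b : ℕ => (p : ℤ) ∣ c * b - e)
  rw [card_range] at h2
  rw [← sum_filter, sum_const, nsmul_eq_mul, mul_one]
  have h5 : (p : ℝ) ≤ 1 + (((range p).filter (fun b : ℕ => ¬ (p : ℤ) ∣ c * b - e)).card : ℝ) := by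
    exact_mod_cast (by omega : p ≤ 1 +
      ((range p).filter (fun b : ℕ => ¬ (p : ℤ) ∣ c * b - e)).card)
  linarith

theorem tb1_zero {p : ℕ} (hp : p.Prime) {a : ℕ} (ha : a ∈ range p) (h0 : a ≠ 0) :
    ¬ (p : ℤ) ∣ (a : ℤ) := by
  intro h
  have := Nat.le_of_dvd (by omega) (Int.natCast_dvd_natCast.1 h)
  have := mem_range.1 ha
  omega

/-- the indicator of `p ∤ dt v (s, t)` -/
noncomputable def tb1_x (v : ℤ × ℤ) (p : ℕ) (s t : ℤ) : ℝ :=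
  if ¬ (p : ℤ) ∣ dt v (s, t) then 1 else 0

/-- the indicator of `p ∤ dt v (s, t)` and `p ∤ s` -/
noncomputable def tb1_y (v : ℤ × ℤ) (p : ℕ) (s t : ℤ) : ℝ :=
  if (¬ (p : ℤ) ∣ dt v (s, t)) ∧ ¬ (p : ℤ) ∣ dt (s, t) (0, 1) then 1 else 0

theorem tb1_full {p : ℕ} (f : ℕ → ℝ) (hf : ∀ b ∈ range p, f b = 1) :
    ∑ b ∈ range p, f b = p := by
  rw [sum_congr rfl hf, sum_const, card_range, nsmul_eq_mul, mul_one]

theorem tb1_x_av {p : ℕ} (hp : p.Prime) {v : ℤ × ℤ}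
    (hv : ¬ ((p : ℤ) ∣ v.1 ∧ (p : ℤ) ∣ v.2)) : 1 - 1 / (p : ℝ) ≤ av p (tb1_x v p) := by
  have hp0 : (0 : ℝ) < p := by exact_mod_cast hp.pos
  have hp1 : (1 : ℝ) ≤ p := by exact_mod_cast hp.one_lt.le
  have hp' : Prime (p : ℤ) := Nat.prime_iff_prime_int.1 hp
  have h0 : ∀ a b : ℕ, 0 ≤ tb1_x v p a b := by
    intro a b
    unfold tb1_x
    split_ifs
    · exact le_rfl
    · exact zero_le_one
  have key : (p : ℝ) * (p - 1) ≤ ∑ a ∈ range p, ∑ b ∈ range p, tb1_x v p a b := by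
    by_cases h1 : (p : ℤ) ∣ v.1
    · have h2 : ¬ (p : ℤ) ∣ v.2 := fun h => hv ⟨h1, h⟩
      have h3 : ∀ a ∈ (range p).erase 0, (p : ℝ) ≤ ∑ b ∈ range p, tb1_x v p a b := by
        intro a ha
        obtain ⟨a0, a1⟩ := mem_erase.1 ha
        refine le_of_eq (tb1_full _ fun b _ => ?_).symm
        unfold tb1_x
        rw [if_pos]
        intro hd
        have hd' : (p : ℤ) ∣ v.1 * b - v.2 * a := hd
        have : (p : ℤ) ∣ v.2 * a := by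
          have := dvd_sub (h1.mul_right (b : ℤ)) hd'
          rwa [sub_sub_cancel] at this
        rcases hp'.dvd_or_dvd this with h | h
        · exact h2 h
        · exact tb1_zero hp a1 a0 h
      calc (p : ℝ) * (p - 1) = ∑ _a ∈ (range p).erase 0, (p : ℝ) := by
            rw [sum_const, card_erase_of_mem (mem_range.2 hp.pos), card_range, nsmul_eq_mul,
              Nat.cast_sub hp.one_lt.le]
            push_cast
            ring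
        _ ≤ ∑ a ∈ (range p).erase 0, ∑ b ∈ range p, tb1_x v p a b := sum_le_sum h3
        _ ≤ _ := sum_le_sum_of_subset_of_nonneg (erase_subset _ _)
            fun a _ _ => sum_nonneg fun b _ => h0 a b
    · calc (p : ℝ) * (p - 1) = ∑ _a ∈ range p, ((p : ℝ) - 1) := by
            rw [sum_const, card_range, nsmul_eq_mul]
        _ ≤ _ := sum_le_sum fun a _ => tb1_card hp h1 (v.2 * a)
  unfold Pool.Agent.PENT.av
  rw [le_div_iff₀ (by positivity)]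
  refine le_trans (le_of_eq ?_) key
  field_simp

theorem tb1_y_av {p : ℕ} (hp : p.Prime) {v : ℤ × ℤ}
    (hv : ¬ ((p : ℤ) ∣ v.1 ∧ (p : ℤ) ∣ v.2)) : (1 - 1 / (p : ℝ)) ^ 2 ≤ av p (tb1_y v p) := by
  have hp0 : (0 : ℝ) < p := by exact_mod_cast hp.pos
  have hp1 : (1 : ℝ) ≤ p := by exact_mod_cast hp.one_lt.le
  have hp' : Prime (p : ℤ) := Nat.prime_iff_prime_int.1 hp
  have h0 : ∀ a b : ℕ, 0 ≤ tb1_y v p a b := by
    intro a b
    unfold tb1_y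
    split_ifs
    · exact zero_le_one
    · exact le_rfl
  have hs : ∀ a ∈ (range p).erase 0, ∀ b : ℕ,
      tb1_y v p a b = if ¬ (p : ℤ) ∣ v.1 * b - v.2 * a then 1 else 0 := by
    intro a ha b
    obtain ⟨a0, a1⟩ := mem_erase.1 ha
    have h1 : ¬ (p : ℤ) ∣ dt ((a : ℤ), (b : ℤ)) (0, 1) := by
      have : dt ((a : ℤ), (b : ℤ)) (0, 1) = a := by simp [dt]
      rw [this]
      exact tb1_zero hp a1 a0
    unfold tb1_y
    by_cases h2 : (p : ℤ) ∣ v.1 * b - v.2 * a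
    · rw [if_neg (fun h => h.1 h2), if_neg (fun h => h h2)]
    · rw [if_pos ⟨h2, h1⟩, if_pos h2]
  have key : ((p : ℝ) - 1) * (p - 1) ≤ ∑ a ∈ range p, ∑ b ∈ range p, tb1_y v p a b := by
    have h3 : ∀ a ∈ (range p).erase 0, (p : ℝ) - 1 ≤ ∑ b ∈ range p, tb1_y v p a b := by
      intro a ha
      rw [sum_congr rfl fun b _ => hs a ha b]
      obtain ⟨a0, a1⟩ := mem_erase.1 ha
      by_cases h1 : (p : ℤ) ∣ v.1
      · have h2 : ¬ (p : ℤ) ∣ v.2 := fun h => hv ⟨h1, h⟩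
        have : ∑ b ∈ range p, (if ¬ (p : ℤ) ∣ v.1 * b - v.2 * a then (1 : ℝ) else 0) = p := by
          refine tb1_full _ fun b _ => ?_
          rw [if_pos]
          intro hd
          have : (p : ℤ) ∣ v.2 * a := by
            have := dvd_sub (h1.mul_right (b : ℤ)) hd
            rwa [sub_sub_cancel] at this
          rcases hp'.dvd_or_dvd this with h | h
          · exact h2 h
          · exact tb1_zero hp a1 a0 h
        rw [this]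
        linarith
      · exact tb1_card hp h1 (v.2 * a)
    calc ((p : ℝ) - 1) * (p - 1) = ∑ _a ∈ (range p).erase 0, ((p : ℝ) - 1) := by
          rw [sum_const, card_erase_of_mem (mem_range.2 hp.pos), card_range, nsmul_eq_mul,
            Nat.cast_sub hp.one_lt.le]
          push_cast
          ring
      _ ≤ ∑ a ∈ (range p).erase 0, ∑ b ∈ range p, tb1_y v p a b := sum_le_sum h3
      _ ≤ _ := sum_le_sum_of_subset_of_nonneg (erase_subset _ _)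
          fun a _ _ => sum_nonneg fun b _ => h0 a b
  unfold Pool.Agent.PENT.av
  rw [le_div_iff₀ (by positivity)]
  refine le_trans (le_of_eq ?_) key
  field_simp

theorem tb1_x_per (v : ℤ × ℤ) (p : ℕ) : Per p (tb1_x v p) := by
  intro s t s' t' h1 h2
  have e : (p : ℤ) ∣ dt v (s, t) ↔ (p : ℤ) ∣ dt v (s', t') := by
    have : (p : ℤ) ∣ dt v (s, t) - dt v (s', t') := by
      have e0 : dt v (s, t) - dt v (s', t') = v.1 * (t - t') - v.2 * (s - s') := by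
        simp only [dt]; ring
      rw [e0]
      exact dvd_sub (h2.mul_left _) (h1.mul_left _)
    exact ⟨fun h => by have := dvd_sub h this; rwa [sub_sub_cancel] at this,
      fun h => by have := dvd_add this h; rwa [sub_add_cancel] at this⟩
  unfold tb1_x
  rw [if_congr (not_congr e) rfl rfl]

theorem tb1_y_per (v : ℤ × ℤ) (p : ℕ) : Per p (tb1_y v p) := by
  intro s t s' t' h1 h2
  have e : (p : ℤ) ∣ dt v (s, t) ↔ (p : ℤ) ∣ dt v (s', t') := by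
    have : (p : ℤ) ∣ dt v (s, t) - dt v (s', t') := by
      have e0 : dt v (s, t) - dt v (s', t') = v.1 * (t - t') - v.2 * (s - s') := by
        simp only [dt]; ring
      rw [e0]
      exact dvd_sub (h2.mul_left _) (h1.mul_left _)
    exact ⟨fun h => by have := dvd_sub h this; rwa [sub_sub_cancel] at this,
      fun h => by have := dvd_add this h; rwa [sub_add_cancel] at this⟩
  have e' : (p : ℤ) ∣ dt (s, t) (0, 1) ↔ (p : ℤ) ∣ dt (s', t') (0, 1) := by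
    have q1 : dt (s, t) (0, 1) = s := by simp [dt]
    have q2 : dt (s', t') (0, 1) = s' := by simp [dt]
    rw [q1, q2]
    exact ⟨fun h => by have := dvd_sub h h1; rwa [sub_sub_cancel] at this,
      fun h => by have := dvd_add h1 h; rwa [sub_add_cancel] at this⟩
  unfold tb1_y
  rw [if_congr (and_congr (not_congr e) (not_congr e')) rfl rfl]

/-! ### the primes `≤ P1` -/

/-- the primes up to `P1` -/
def tb1_T (P1 : ℕ) : Finset ℕ := (Icc 2 P1).filter Nat.Prime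

theorem tb1_memT {P1 p : ℕ} : p ∈ tb1_T P1 ↔ p.Prime ∧ p ≤ P1 := by
  unfold tb1_T
  rw [mem_filter, mem_Icc]
  exact ⟨fun h => ⟨h.2, h.1.2⟩, fun h => ⟨⟨h.1.two_le, h.2⟩, h.1⟩⟩

theorem tb1_prodT {P1 : ℕ} (h : 3 ≤ P1) :
    ∏ p ∈ tb1_T P1, (1 - 1 / (p : ℝ)) = 1 / 2 * kp P1 := by
  have e : tb1_T P1 = insert 2 ((Icc 3 P1).filter Nat.Prime) := by
    ext p
    rw [tb1_memT, mem_insert, mem_filter, mem_Icc]
    constructor
    · rintro ⟨h1, h2⟩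
      by_cases h3 : p = 2
      · exact Or.inl h3
      · exact Or.inr ⟨⟨by have := h1.two_le; omega, h2⟩, h1⟩
    · rintro (rfl | ⟨⟨h1, h2⟩, h3⟩)
      · exact ⟨Nat.prime_two, by omega⟩
      · exact ⟨h3, h2⟩
  rw [e, prod_insert (by simp), kp]
  norm_num

/-- the general count for one box -/
theorem tb1_count {P1 : ℕ} {v : ℤ × ℤ} (x : ℕ → ℤ → ℤ → ℝ) (hx : ∀ p, Per p (x p))
    (h01 : ∀ p s t, x p s t = 0 ∨ x p s t = 1) {k : ℕ} (hk : k ≤ 2)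
    (hav : ∀ p : ℕ, p.Prime → p ≤ P1 → (1 - 1 / (p : ℝ)) ^ k ≤ av p (x p))
    {A a b : ℝ} (hA : 1200 * ((∏ p ∈ tb1_T P1, p : ℕ) : ℝ) /
      (∏ p ∈ tb1_T P1, (1 - 1 / (p : ℝ))) ^ 2 ≤ A) (ha : 1 ≤ a) (hb : 1 ≤ b) :
    1 / 80000 * A ^ 2 * (∏ p ∈ tb1_T P1, (1 - 1 / (p : ℝ))) ^ k ≤
      ∑ w ∈ tb1_B A a b, tb1_i (∀ p : ℕ, p.Prime → p ≤ P1 → x p w.1 w.2 = 1) 1 := by
  have hT : ∀ p ∈ tb1_T P1, p.Prime := fun p hp => (tb1_memT.1 hp).1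
  have hf1 : ∀ p ∈ tb1_T P1, 0 < 1 - 1 / (p : ℝ) := by
    intro p hp
    have h2 : (2 : ℝ) ≤ p := by exact_mod_cast (hT p hp).two_le
    have : 1 / (p : ℝ) ≤ 1 / 2 := div_le_div_of_nonneg_left (by norm_num) (by norm_num) h2
    linarith
  have hf2 : ∀ p ∈ tb1_T P1, 1 - 1 / (p : ℝ) ≤ 1 := by
    intro p hp
    have : 0 ≤ 1 / (p : ℝ) := by positivity
    linarith
  set κ : ℝ := ∏ p ∈ tb1_T P1, (1 - 1 / (p : ℝ)) with hκ
  have hκ0 : 0 < κ := prod_pos hf1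
  have hκ1 : κ ≤ 1 := prod_le_one (fun p hp => (hf1 p hp).le) hf2
  have hm : 0 < ∏ p ∈ tb1_T P1, p := prod_pos fun p hp => (hT p hp).pos
  -- the product of the local indicators
  have hper1 : Per 1 (fun _ _ : ℤ => (1 : ℝ)) := fun _ _ _ _ _ _ => rfl
  obtain ⟨q1, q2⟩ := av_prod (q := 1) one_pos (f := fun _ _ => 1) hper1 (tb1_T P1) (fun p => p)
    x (fun p hp => (hT p hp).pos) (fun p _ => Nat.coprime_one_left p)
    (fun p hp p' hp' hne => (Nat.coprime_primes (hT p hp) (hT p' hp')).2 hne) (fun p _ => hx p)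
  have av1 : av 1 (fun _ _ : ℤ => (1 : ℝ)) = 1 := by
    unfold Pool.Agent.PENT.av
    simp
  rw [av1] at q2
  simp only [one_mul] at q1 q2
  set h : ℤ → ℤ → ℝ := fun s t => ∏ p ∈ tb1_T P1, x p s t with hh
  have hh01 : ∀ s t, 0 ≤ h s t ∧ h s t ≤ 1 := by
    intro s t
    refine ⟨prod_nonneg fun p _ => ?_, prod_le_one (fun p _ => ?_) fun p _ => ?_⟩
    · rcases h01 p s t with h | h <;> rw [h] <;> norm_num
    · rcases h01 p s t with h | h <;> rw [h] <;> norm_num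
    · rcases h01 p s t with h | h <;> rw [h] <;> norm_num
  have hlow : κ ^ k ≤ av (∏ p ∈ tb1_T P1, p) h := by
    rw [q2, hκ, ← prod_pow]
    exact prod_le_prod (fun p hp => pow_nonneg (hf1 p hp).le k)
      fun p hp => hav p (hT p hp) (tb1_memT.1 hp).2
  have hδ : κ ^ 2 ≤ κ ^ k := pow_le_pow_of_le_one hκ0.le hκ1 hk
  have key := tb1_box (A := A) (a := a) (b := b) hm (δ := κ ^ 2) (by positivity)
    (pow_le_one₀ hκ0.le hκ1) hA ha hb q1 hh01 (hδ.trans hlow)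
  refine le_trans (mul_le_mul_of_nonneg_left hlow (by positivity)) (key.trans (le_of_eq ?_))
  refine sum_congr rfl fun w _ => ?_
  by_cases hw : ∀ p : ℕ, p.Prime → p ≤ P1 → x p w.1 w.2 = 1
  · rw [tb1_i_pos hw]
    exact prod_eq_one fun p hp => hw p (hT p hp) (tb1_memT.1 hp).2
  · rw [tb1_i_neg hw]
    push Not at hw
    obtain ⟨p, hp, hpP, hne⟩ := hw
    exact prod_eq_zero (tb1_memT.2 ⟨hp, hpP⟩) ((h01 p w.1 w.2).resolve_right hne)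

/-- `dt v w` is prime to the primes `≤ P1` -/
def tb1_R (P1 : ℕ) (v w : ℤ × ℤ) : Prop := ∀ p : ℕ, p.Prime → p ≤ P1 → ¬ (p : ℤ) ∣ dt v w

theorem tb1_R_right {P1 : ℕ} {v w : ℤ × ℤ} (h : tb1_R P1 v w) {p : ℕ} (hp : p.Prime)
    (hP : p ≤ P1) : ¬ ((p : ℤ) ∣ w.1 ∧ (p : ℤ) ∣ w.2) := by
  rintro ⟨h1, h2⟩
  exact h p hp hP (dvd_sub (h2.mul_left _) (h1.mul_left _))

theorem tb1_cX {P1 : ℕ} {v : ℤ × ℤ}
    (hv : ∀ p : ℕ, p.Prime → p ≤ P1 → ¬ ((p : ℤ) ∣ v.1 ∧ (p : ℤ) ∣ v.2))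
    {A a b : ℝ} (hA : 1200 * ((∏ p ∈ tb1_T P1, p : ℕ) : ℝ) /
      (∏ p ∈ tb1_T P1, (1 - 1 / (p : ℝ))) ^ 2 ≤ A) (ha : 1 ≤ a) (hb : 1 ≤ b) :
    1 / 80000 * A ^ 2 * (∏ p ∈ tb1_T P1, (1 - 1 / (p : ℝ))) ^ 1 ≤
      ∑ w ∈ tb1_B A a b, tb1_i (tb1_R P1 v w) 1 := by
  refine (tb1_count (v := v) (fun p => tb1_x v p) (fun p => tb1_x_per v p) (fun p s t => ?_)
    (k := 1) (by norm_num) (fun p hp hP => ?_) hA ha hb).trans (le_of_eq ?_)
  · unfold tb1_x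
    split_ifs
    · exact Or.inl rfl
    · exact Or.inr rfl
  · rw [pow_one]
    exact tb1_x_av hp (hv p hp hP)
  · refine sum_congr rfl fun w _ => tb1_i_congr ?_ 1
    refine forall_congr' fun p => forall_congr' fun _ => forall_congr' fun _ => ?_
    unfold tb1_x
    split_ifs with h
    · exact ⟨fun h0 => absurd h0 (by norm_num), fun h0 => absurd h h0⟩
    · exact ⟨fun _ => h, fun _ => rfl⟩

theorem tb1_cY {P1 : ℕ} {v : ℤ × ℤ}
    (hv : ∀ p : ℕ, p.Prime → p ≤ P1 → ¬ ((p : ℤ) ∣ v.1 ∧ (p : ℤ) ∣ v.2))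
    {A a b : ℝ} (hA : 1200 * ((∏ p ∈ tb1_T P1, p : ℕ) : ℝ) /
      (∏ p ∈ tb1_T P1, (1 - 1 / (p : ℝ))) ^ 2 ≤ A) (ha : 1 ≤ a) (hb : 1 ≤ b) :
    1 / 80000 * A ^ 2 * (∏ p ∈ tb1_T P1, (1 - 1 / (p : ℝ))) ^ 2 ≤
      ∑ w ∈ tb1_B A a b, tb1_i (tb1_R P1 v w ∧ tb1_R P1 w (0, 1)) 1 := by
  refine (tb1_count (v := v) (fun p => tb1_y v p) (fun p => tb1_y_per v p) (fun p s t => ?_)
    (k := 2) le_rfl (fun p hp hP => tb1_y_av hp (hv p hp hP)) hA ha hb).trans (le_of_eq ?_)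
  · unfold tb1_y
    split_ifs
    · exact Or.inr rfl
    · exact Or.inl rfl
  · refine sum_congr rfl fun w _ => tb1_i_congr ?_ 1
    have e : ∀ p : ℕ, (tb1_y v p w.1 w.2 = 1 ↔
        (¬ (p : ℤ) ∣ dt v w) ∧ ¬ (p : ℤ) ∣ dt w (0, 1)) := by
      intro p
      unfold tb1_y
      split_ifs with h
      · exact ⟨fun _ => h, fun _ => rfl⟩
      · exact ⟨fun h0 => absurd h0 (by norm_num), fun h0 => absurd h0 h⟩
    unfold tb1_R
    constructor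
    · intro h
      exact ⟨fun p hp hP => ((e p).1 (h p hp hP)).1, fun p hp hP => ((e p).1 (h p hp hP)).2⟩
    · rintro ⟨h1, h2⟩ p hp hP
      exact (e p).2 ⟨h1 p hp hP, h2 p hp hP⟩

/-! ### the four sums -/

theorem tb1_step {α : Type} (B : Finset α) (P : Prop) (Q : α → Prop) {n K : ℝ} (hK : 0 ≤ K)
    (h : P → n ≤ ∑ d ∈ B, tb1_i (Q d) 1) :
    tb1_i P (n * K) ≤ ∑ d ∈ B, tb1_i (P ∧ Q d) K := by
  by_cases hP : P
  · rw [tb1_i_pos hP]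
    calc n * K ≤ (∑ d ∈ B, tb1_i (Q d) 1) * K :=
          mul_le_mul_of_nonneg_right (h hP) hK
      _ = ∑ d ∈ B, tb1_i (P ∧ Q d) K := by
          rw [sum_mul]
          refine sum_congr rfl fun d _ => ?_
          by_cases hQ : Q d
          · rw [tb1_i_pos hQ, tb1_i_pos ⟨hP, hQ⟩, one_mul]
          · rw [tb1_i_neg hQ, tb1_i_neg (fun h => hQ h.2), zero_mul]
  · rw [tb1_i_neg hP]
    refine sum_nonneg fun d _ => ?_
    rw [tb1_i_neg fun h => hP h.1]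

theorem tb1_vec_inj : Function.Injective
    (fun w : (ℤ × ℤ) × (ℤ × ℤ) × (ℤ × ℤ) × (ℤ × ℤ) =>
      (![w.1, w.2.1, w.2.2.1, w.2.2.2] : Fin 4 → ℤ × ℤ)) := by
  rintro ⟨a, b, c, d⟩ ⟨a', b', c', d'⟩ h
  have h0 : a = a' := congrFun h 0
  have h1 : b = b' := congrFun h 1
  have h2 : c = c' := congrFun h 2
  have h3 : d = d' := congrFun h 3
  rw [h0, h1, h2, h3]

theorem tiny_count_pr : ∃ c : ℝ, 0 < c ∧ ∀ P1 : ℕ, 3 ≤ P1 → ∃ A₀ : ℝ, ∀ A : ℕ → ℝ,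
    (∀ i, 1 ≤ i → i ≤ 4 → A₀ ≤ A i) → ∃ G : Finset (Fin 4 → ℤ × ℤ),
      (∀ z ∈ G, (∀ i, 1 ≤ i → i ≤ 4 → Cx 1 (A i) (xi i) (ze i) (vx z i)) ∧
        ∀ b, b ≤ 4 → ∀ p : ℕ, p.Prime → p ≤ P1 → ¬ (p : ℤ) ∣ De (vx z) b) ∧
      c * kp P1 ^ 5 * (A 1 * A 2 * A 3 * A 4) ^ 2 ≤ (G.card : ℝ) := by
  classical
  refine ⟨(1 / 80000) ^ 4 * (1 / 2) ^ 5, by norm_num, fun P1 hP1 => ?_⟩
  set A₀ : ℝ := 1200 * ((∏ p ∈ tb1_T P1, p : ℕ) : ℝ) /
      (∏ p ∈ tb1_T P1, (1 - 1 / (p : ℝ))) ^ 2 with hA₀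
  refine ⟨A₀, fun A hA => ?_⟩
  have a1 := hA 1 (by norm_num) (by norm_num)
  have a2 := hA 2 (by norm_num) (by norm_num)
  have a3 := hA 3 (by norm_num) (by norm_num)
  have a4 := hA 4 (by norm_num) (by norm_num)
  set κ : ℝ := ∏ p ∈ tb1_T P1, (1 - 1 / (p : ℝ)) with hκ
  have hκ0 : 0 ≤ κ := by
    refine prod_nonneg fun p hp => ?_
    have h2 : (2 : ℝ) ≤ p := by exact_mod_cast (tb1_memT.1 hp).1.two_le
    have : 1 / (p : ℝ) ≤ 1 / 2 := div_le_div_of_nonneg_left (by norm_num) (by norm_num) h2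
    linarith
  have x1 : (1 : ℝ) ≤ xi 1 := by simp [xi]
  have x2 : (1 : ℝ) ≤ xi 2 := by simp [xi]
  have x3 : (1 : ℝ) ≤ xi 3 := by simp [xi]
  have x4 : (1 : ℝ) ≤ xi 4 := by simp [xi]
  have z1 : (1 : ℝ) ≤ ze 1 := by simp [ze]
  have z2 : (1 : ℝ) ≤ ze 2 := by simp [ze]
  have z3 : (1 : ℝ) ≤ ze 3 := by simp [ze]
  have z4 : (1 : ℝ) ≤ ze 4 := by simp [ze]
  set B1 := tb1_B (A 1) (xi 1) (ze 1) with hB1
  set B2 := tb1_B (A 2) (xi 2) (ze 2) with hB2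
  set B3 := tb1_B (A 3) (xi 3) (ze 3) with hB3
  set B4 := tb1_B (A 4) (xi 4) (ze 4) with hB4
  set N1 : ℝ := 1 / 80000 * A 1 ^ 2 * κ ^ 1 with hN1
  set N2 : ℝ := 1 / 80000 * A 2 ^ 2 * κ ^ 1 with hN2
  set N3 : ℝ := 1 / 80000 * A 3 ^ 2 * κ ^ 1 with hN3
  set N4 : ℝ := 1 / 80000 * A 4 ^ 2 * κ ^ 2 with hN4
  have n1 : 0 ≤ N1 := by positivity
  have n2 : 0 ≤ N2 := by positivity
  have n3 : 0 ≤ N3 := by positivity
  have n4 : 0 ≤ N4 := by positivity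
  have k4 : 0 ≤ N4 * 1 := by rw [mul_one]; exact n4
  have k3 : 0 ≤ N3 * (N4 * 1) := mul_nonneg n3 k4
  have k2 : 0 ≤ N2 * (N3 * (N4 * 1)) := mul_nonneg n2 k3
  -- the tuples
  set T : Finset ((ℤ × ℤ) × (ℤ × ℤ) × (ℤ × ℤ) × (ℤ × ℤ)) :=
    (B1 ×ˢ (B2 ×ˢ (B3 ×ˢ B4))).filter (fun w => ((tb1_R P1 (1, 0) w.1 ∧
      tb1_R P1 w.1 w.2.1) ∧ tb1_R P1 w.2.1 w.2.2.1) ∧
      (tb1_R P1 w.2.2.1 w.2.2.2 ∧ tb1_R P1 w.2.2.2 (0, 1))) with hT
  have hcard : (T.card : ℝ) = ∑ a ∈ B1, ∑ b ∈ B2, ∑ c ∈ B3, ∑ d ∈ B4,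
      tb1_i (((tb1_R P1 (1, 0) a ∧ tb1_R P1 a b) ∧ tb1_R P1 b c) ∧
        (tb1_R P1 c d ∧ tb1_R P1 d (0, 1))) 1 := by
    rw [hT, card_filter]
    push_cast
    rw [sum_product]
    refine sum_congr rfl fun a _ => ?_
    rw [sum_product]
    refine sum_congr rfl fun b _ => ?_
    rw [sum_product]
    refine sum_congr rfl fun c _ => sum_congr rfl fun d _ => ?_
    by_cases hP : ((tb1_R P1 (1, 0) a ∧ tb1_R P1 a b) ∧ tb1_R P1 b c) ∧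
        (tb1_R P1 c d ∧ tb1_R P1 d (0, 1))
    · rw [tb1_i_pos hP, if_pos hP]
    · rw [tb1_i_neg hP, if_neg hP]
  have c4 : ∀ a b c : ℤ × ℤ, tb1_i ((tb1_R P1 (1, 0) a ∧ tb1_R P1 a b) ∧ tb1_R P1 b c)
      (N4 * 1) ≤ ∑ d ∈ B4, tb1_i (((tb1_R P1 (1, 0) a ∧ tb1_R P1 a b) ∧ tb1_R P1 b c) ∧
        (tb1_R P1 c d ∧ tb1_R P1 d (0, 1))) 1 := fun a b c =>
    tb1_step B4 ((tb1_R P1 (1, 0) a ∧ tb1_R P1 a b) ∧ tb1_R P1 b c)
      (fun d => tb1_R P1 c d ∧ tb1_R P1 d (0, 1)) zero_le_one fun h =>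
        tb1_cY (fun p hp hP => tb1_R_right h.2 hp hP) a4 x4 z4
  have c3 : ∀ a b : ℤ × ℤ, tb1_i (tb1_R P1 (1, 0) a ∧ tb1_R P1 a b) (N3 * (N4 * 1)) ≤
      ∑ c ∈ B3, tb1_i ((tb1_R P1 (1, 0) a ∧ tb1_R P1 a b) ∧ tb1_R P1 b c) (N4 * 1) :=
    fun a b => tb1_step B3 (tb1_R P1 (1, 0) a ∧ tb1_R P1 a b) (fun c => tb1_R P1 b c)
      k4 fun h => tb1_cX (fun p hp hP => tb1_R_right h.2 hp hP) a3 x3 z3
  have c2 : ∀ a : ℤ × ℤ, tb1_i (tb1_R P1 (1, 0) a) (N2 * (N3 * (N4 * 1))) ≤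
      ∑ b ∈ B2, tb1_i (tb1_R P1 (1, 0) a ∧ tb1_R P1 a b) (N3 * (N4 * 1)) :=
    fun a => tb1_step B2 (tb1_R P1 (1, 0) a) (fun b => tb1_R P1 a b)
      k3 fun h => tb1_cX (fun p hp hP => tb1_R_right h hp hP) a2 x2 z2
  have c1 : N1 * (N2 * (N3 * (N4 * 1))) ≤
      ∑ a ∈ B1, tb1_i (tb1_R P1 (1, 0) a) (N2 * (N3 * (N4 * 1))) := by
    have := tb1_step B1 True (fun a => tb1_R P1 (1, 0) a) (n := N1)
      (K := N2 * (N3 * (N4 * 1))) k2 fun _ => tb1_cX (fun p hp _ => by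
        rintro ⟨h1, -⟩
        have h2 : ((p : ℕ) : ℤ) ∣ ((1 : ℕ) : ℤ) := h1
        exact hp.one_lt.ne' (Nat.dvd_one.1 (Int.natCast_dvd_natCast.1 h2)))
        a1 x1 z1
    rw [tb1_i_pos trivial] at this
    refine this.trans (le_of_eq (sum_congr rfl fun a _ => ?_))
    exact tb1_i_congr ⟨fun h => h.2, fun h => ⟨trivial, h⟩⟩ _
  have hlow : N1 * (N2 * (N3 * (N4 * 1))) ≤ (T.card : ℝ) := by
    rw [hcard]
    exact c1.trans (sum_le_sum fun a _ => (c2 a).trans (sum_le_sum fun b _ =>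
      (c3 a b).trans (sum_le_sum fun c _ => c4 a b c)))
  refine ⟨T.image (fun w => (![w.1, w.2.1, w.2.2.1, w.2.2.2] : Fin 4 → ℤ × ℤ)), ?_, ?_⟩
  · intro z hz
    obtain ⟨w, hw, rfl⟩ := mem_image.1 hz
    obtain ⟨h1, ⟨⟨r1, r2⟩, r3⟩, r4, r5⟩ := mem_filter.1 hw
    rw [mem_product, mem_product, mem_product] at h1
    obtain ⟨b1, b2, b3, b4⟩ := h1
    have v0 : vx (![w.1, w.2.1, w.2.2.1, w.2.2.2] : Fin 4 → ℤ × ℤ) 0 = (1, 0) := rfl
    have v1 : vx (![w.1, w.2.1, w.2.2.1, w.2.2.2] : Fin 4 → ℤ × ℤ) 1 = w.1 := rfl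
    have v2 : vx (![w.1, w.2.1, w.2.2.1, w.2.2.2] : Fin 4 → ℤ × ℤ) 2 = w.2.1 := rfl
    have v3 : vx (![w.1, w.2.1, w.2.2.1, w.2.2.2] : Fin 4 → ℤ × ℤ) 3 = w.2.2.1 := rfl
    have v4 : vx (![w.1, w.2.1, w.2.2.1, w.2.2.2] : Fin 4 → ℤ × ℤ) 4 = w.2.2.2 := rfl
    have v5 : vx (![w.1, w.2.1, w.2.2.1, w.2.2.2] : Fin 4 → ℤ × ℤ) 5 = (0, 1) := rfl
    constructor
    · intro i i1 i4
      interval_cases i
      · rw [v1]; exact tb1_mem b1
      · rw [v2]; exact tb1_mem b2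
      · rw [v3]; exact tb1_mem b3
      · rw [v4]; exact tb1_mem b4
    · intro b hb p hp hP
      unfold De
      interval_cases b
      · rw [v0, v1]; exact r1 p hp hP
      · rw [v1, v2]; exact r2 p hp hP
      · rw [v2, v3]; exact r3 p hp hP
      · rw [v3, v4]; exact r4 p hp hP
      · rw [v4, v5]; exact r5 p hp hP
  · rw [card_image_of_injective _ tb1_vec_inj]
    refine le_trans (le_of_eq ?_) hlow
    rw [hN1, hN2, hN3, hN4, hκ, tb1_prodT hP1]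
    ring

alias tiny_count := tiny_count_pr

end Pool.Agent.TPA
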