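import Pool.Agent.Lib_helper15.TP.Facts
import Pool.Agent.Lib_helper32.PENT.S6

/-!
# TPA (MP_892e4c_nt), block TB2: rarely `p` divides a determinant of two tiny vectors (helper32)
-/

set_option autoImplicit false

namespace Pool.Agent.TPA

open Finset Pool.Agent.PENT Pool.Agent.PATH.NC

/-- the integers of `[A ξ, 1.01 A ξ]` -/
noncomputable def tb2_I (A ξ : ℝ) : Finset ℤ := Ioc (⌈A * ξ⌉ - 1) ⌊(101 / 100 : ℝ) ^ 1 * (A * ξ)⌋

theorem tb2_mem {A ξ : ℝ} {x : ℤ} (h1 : A * ξ ≤ (x : ℝ))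
    (h2 : (x : ℝ) ≤ (101 / 100 : ℝ) ^ 1 * (A * ξ)) : x ∈ tb2_I A ξ := by
  rw [tb2_I, mem_Ioc]
  refine ⟨?_, Int.le_floor.2 h2⟩
  have : ⌈A * ξ⌉ ≤ x := Int.ceil_le.2 h1
  omega

theorem tb2_le {A ξ : ℝ} (hA : 1 ≤ A) (h0 : 0 ≤ ξ) :
    ⌈A * ξ⌉ - 1 ≤ ⌊(101 / 100 : ℝ) ^ 1 * (A * ξ)⌋ := by
  rw [Int.le_floor]
  push_cast
  have h1 := Int.ceil_lt_add_one (A * ξ)
  have h2 : 0 ≤ A * ξ := by positivity
  linarith

theorem tb2_len {A ξ : ℝ} (hA : 1 ≤ A) (h4 : ξ ≤ 4) :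
    ((⌊(101 / 100 : ℝ) ^ 1 * (A * ξ)⌋ : ℤ) : ℝ) - ((⌈A * ξ⌉ - 1 : ℤ) : ℝ) ≤ 2 * A := by
  have h1 := Int.le_ceil (A * ξ)
  have h2 := Int.floor_le ((101 / 100 : ℝ) ^ 1 * (A * ξ))
  have h3 : A * ξ ≤ A * 4 := by gcongr
  push_cast
  linarith

theorem tb2_card {A ξ : ℝ} (hA : 1 ≤ A) (h0 : 0 ≤ ξ) (h4 : ξ ≤ 4) :
    ((tb2_I A ξ).card : ℝ) ≤ 2 * A := by
  rw [tb2_I, s6_card_Ioc (tb2_le hA h0)]
  exact tb2_len hA h4

theorem tb2_cls {A ξ : ℝ} (hA : 1 ≤ A) (h0 : 0 ≤ ξ) (h4 : ξ ≤ 4) {p : ℕ} (hp : 0 < p) (r : ℤ) :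
    (((tb2_I A ξ).filter (fun x => (p : ℤ) ∣ x - r)).card : ℝ) ≤ 2 * A / p + 1 := by
  refine (s6_cls (tb2_le hA h0) hp r).trans ?_
  have := tb2_len hA h4
  have hp' : (0 : ℝ) < p := by exact_mod_cast hp
  gcongr

/-- the points of the box -/
noncomputable def tb2_X (A : ℕ → ℝ) (i : ℕ) : Finset (ℤ × ℤ) :=
  tb2_I (A i) (xi i) ×ˢ tb2_I (A i) (ze i)

theorem tb2_xi (i : ℕ) : xi i ≤ 4 := by unfold xi; split_ifs <;> norm_num

theorem tb2_ze (i : ℕ) : ze i ≤ 4 := by unfold ze; split_ifs <;> norm_num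

theorem tb2_memX {A : ℕ → ℝ} {i : ℕ} {u : ℤ × ℤ} (h : Cx 1 (A i) (xi i) (ze i) u) :
    u ∈ tb2_X A i :=
  mem_product.2 ⟨tb2_mem h.1 h.2.1, tb2_mem h.2.2.1 h.2.2.2⟩

theorem tb2_cardX {A : ℕ → ℝ} {i : ℕ} (hA : 1 ≤ A i) :
    ((tb2_X A i).card : ℝ) ≤ 4 * A i ^ 2 := by
  rw [tb2_X, card_product]
  push_cast
  have h1 := tb2_card hA (xi_nonneg i) (tb2_xi i)
  have h2 := tb2_card hA (ze_nonneg i) (tb2_ze i)
  calc ((tb2_I (A i) (xi i)).card : ℝ) * ((tb2_I (A i) (ze i)).card : ℝ)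
      ≤ (2 * A i) * (2 * A i) := by gcongr
    _ = 4 * A i ^ 2 := by ring

theorem tb2_inv {p : ℕ} (hp : p.Prime) {s : ℤ} (hs : ¬ (p : ℤ) ∣ s) :
    ∃ t : ℤ, ∀ x c : ℤ, (p : ℤ) ∣ s * x - c → (p : ℤ) ∣ x - t * c := by
  have hpp : Prime (p : ℤ) := Nat.prime_iff_prime_int.1 hp
  obtain ⟨u, t, hut⟩ := (Prime.coprime_iff_not_dvd hpp).2 hs
  refine ⟨t, fun x c h => ?_⟩
  have e : x - t * c = (p : ℤ) * (u * x) + t * (s * x - c) := by
    linear_combination (-x) * hut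
  rw [e]
  exact dvd_add (dvd_mul_right _ _) (h.mul_left t)

/-- for a fixed primitive vector one coordinate is in one class -/
theorem tb2_one {A : ℕ → ℝ} {j : ℕ} (hA : 1 ≤ A j) {p : ℕ} (hp : p.Prime) {v : ℤ × ℤ}
    (hv : IsCoprime v.1 v.2) :
    (((tb2_X A j).filter (fun w => (p : ℤ) ∣ dt v w)).card : ℝ) ≤
      2 * A j * (2 * A j / p + 1) := by
  classical
  have hpp : Prime (p : ℤ) := Nat.prime_iff_prime_int.1 hp
  have hp0 : (0 : ℝ) ≤ 2 * A j / p + 1 := by positivity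
  by_cases h1 : (p : ℤ) ∣ v.1
  · have h2 : ¬ (p : ℤ) ∣ v.2 := by
      intro h2
      exact hpp.not_isUnit (hv.isUnit_of_dvd' h1 h2)
    obtain ⟨t, ht⟩ := tb2_inv hp h2
    have h3 := s6_prod_right (s := tb2_I (A j) (xi j)) (t := tb2_I (A j) (ze j))
      (fun x y => (p : ℤ) ∣ v.1 * y - v.2 * x) (c := 2 * A j / p + 1) (by
        intro y _
        refine le_trans ?_ (tb2_cls hA (xi_nonneg j) (tb2_xi j) hp.pos (t * (v.1 * y)))
        have : (tb2_I (A j) (xi j)).filter (fun x => (p : ℤ) ∣ v.1 * y - v.2 * x) ⊆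
            (tb2_I (A j) (xi j)).filter (fun x => (p : ℤ) ∣ x - t * (v.1 * y)) := by
          intro x hx
          rw [mem_filter] at hx ⊢
          refine ⟨hx.1, ht x (v.1 * y) ?_⟩
          have := (dvd_neg (a := (p : ℤ))).2 hx.2
          rwa [neg_sub] at this
        exact_mod_cast card_le_card this)
    refine h3.trans ?_
    exact mul_le_mul_of_nonneg_right (tb2_card hA (ze_nonneg j) (tb2_ze j)) hp0
  · obtain ⟨t, ht⟩ := tb2_inv hp h1
    have h3 := s6_prod_left (s := tb2_I (A j) (xi j)) (t := tb2_I (A j) (ze j))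
      (fun x y => (p : ℤ) ∣ v.1 * y - v.2 * x) (c := 2 * A j / p + 1) (by
        intro x _
        refine le_trans ?_ (tb2_cls hA (ze_nonneg j) (tb2_ze j) hp.pos (t * (v.2 * x)))
        have : (tb2_I (A j) (ze j)).filter (fun y => (p : ℤ) ∣ v.1 * y - v.2 * x) ⊆
            (tb2_I (A j) (ze j)).filter (fun y => (p : ℤ) ∣ y - t * (v.2 * x)) := by
          intro y hy
          rw [mem_filter] at hy ⊢
          exact ⟨hy.1, ht y (v.2 * x) hy.2⟩
        exact_mod_cast card_le_card this)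
    refine h3.trans ?_
    exact mul_le_mul_of_nonneg_right (tb2_card hA (xi_nonneg j) (tb2_xi j)) hp0

theorem tb2_vx {z : Fin 4 → ℤ × ℤ} {i : ℕ} (h1 : 1 ≤ i) (h4 : i ≤ 4) :
    vx z i = z ⟨i - 1, by omega⟩ := by
  unfold vx
  rw [if_neg (by omega), dif_pos h4]

/-- the vector `vx z i` does not depend on the entry `j` -/
theorem tb2_vx_update {z : Fin 4 → ℤ × ℤ} {i j : ℕ} (hij : i ≠ j) (h1 : 1 ≤ j) (h4 : j ≤ 4)
    (w : ℤ × ℤ) : vx (Function.update z ⟨j - 1, by omega⟩ w) i = vx z i := by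
  unfold vx
  split_ifs with h0 h5
  · rfl
  · rw [Function.update_of_ne]
    intro h
    have := congrArg Fin.val h
    simp only at this
    omega
  · rfl

theorem tb2_prim {A : ℕ → ℝ} {z : Fin 4 → ℤ × ℤ}
    (h : ∀ i, 1 ≤ i → i ≤ 4 → Cx 1 (A i) (xi i) (ze i) (vx z i) ∧
      IsCoprime (vx z i).1 (vx z i).2) (i : ℕ) : IsCoprime (vx z i).1 (vx z i).2 := by
  by_cases h0 : i = 0
  · subst h0
    simp only [vx, if_true]
    exact isCoprime_one_left
  · by_cases h4 : i ≤ 4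
    · exact (h i (by omega) h4).2
    · unfold vx
      rw [if_neg h0, dif_neg h4]
      exact isCoprime_one_right

theorem tb2_prod {A : ℕ → ℝ} {j : ℕ} (h1 : 1 ≤ j) (h4 : j ≤ 4) (hA : A j ≠ 0) {p : ℝ}
    (hp : p ≠ 0) :
    (∏ k : Fin 4, (if k = (⟨j - 1, by omega⟩ : Fin 4) then (1 : ℝ) else 4 * A (k.val + 1) ^ 2)) *
      (2 * A j * (2 * A j / p + 1)) =
      64 * (A 1 * A 2 * A 3 * A 4) ^ 2 * (4 / p + 2 / A j) := by
  have e : ∀ (k : Fin 4) (h : j - 1 < 4), (k = (⟨j - 1, h⟩ : Fin 4)) ↔ k.val + 1 = j := by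
    intro k h
    rw [Fin.ext_iff]
    show k.val = j - 1 ↔ _
    omega
  rw [Fin.prod_univ_four]
  simp only [e, Fin.val_zero, Fin.val_one, Fin.val_two, show ((3 : Fin 4).val) = 3 from rfl,
    Nat.reduceAdd]
  obtain rfl | rfl | rfl | rfl : j = 1 ∨ j = 2 ∨ j = 3 ∨ j = 4 := by omega
  · rw [if_pos rfl, if_neg (by norm_num), if_neg (by norm_num), if_neg (by norm_num)]
    field_simp
    ring
  · rw [if_neg (by norm_num), if_pos rfl, if_neg (by norm_num), if_neg (by norm_num)]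
    field_simp
    ring
  · rw [if_neg (by norm_num), if_neg (by norm_num), if_pos rfl, if_neg (by norm_num)]
    field_simp
    ring
  · rw [if_neg (by norm_num), if_neg (by norm_num), if_neg (by norm_num), if_pos rfl]
    field_simp
    ring

open Classical in
theorem tb2_core {A : ℕ → ℝ} (hA : ∀ i, 1 ≤ i → i ≤ 4 → 1 ≤ A i) {G : Finset (Fin 4 → ℤ × ℤ)}
    (hG : ∀ z ∈ G, ∀ i, 1 ≤ i → i ≤ 4 →
      Cx 1 (A i) (xi i) (ze i) (vx z i) ∧ IsCoprime (vx z i).1 (vx z i).2)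
    {p : ℕ} (hp : p.Prime) {i j : ℕ} (hj1 : 1 ≤ j) (hj4 : j ≤ 4) (hij : i ≠ j) :
    ((G.filter (fun z => (p : ℤ) ∣ dt (vx z i) (vx z j))).card : ℝ) ≤
      256 * (1 / p + ∑ i ∈ Icc 1 4, 1 / A i) * (A 1 * A 2 * A 3 * A 4) ^ 2 := by
  set j' : Fin 4 := ⟨j - 1, by omega⟩ with hj'
  set s := G.filter (fun z => (p : ℤ) ∣ dt (vx z i) (vx z j)) with hs
  set f : (Fin 4 → ℤ × ℤ) → (Fin 4 → ℤ × ℤ) := fun z => Function.update z j' (0, 0) with hf
  have hAj := hA j hj1 hj4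
  have hcard : (s.card : ℝ) = ∑ y ∈ s.image f, ((s.filter (fun z => f z = y)).card : ℝ) := by
    rw [card_eq_sum_card_image f s]
    push_cast
    rfl
  have hfib : ∀ y ∈ s.image f, ((s.filter (fun z => f z = y)).card : ℝ) ≤
      2 * A j * (2 * A j / p + 1) := by
    intro y hy
    obtain ⟨z0, hz0, rfl⟩ := mem_image.1 hy
    have hz0G := (mem_filter.1 hz0).1
    refine le_trans ?_ (tb2_one (A := A) hAj hp (tb2_prim (hG z0 hz0G) i))
    norm_cast
    apply card_le_card_of_injOn (fun z => z j')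
    · intro z hz
      have hz' := mem_filter.1 (mem_coe.1 hz)
      obtain ⟨hz1, hz2⟩ := hz'
      obtain ⟨hz3, hz4⟩ := mem_filter.1 hz1
      have e1 : vx z i = vx z0 i := by
        rw [← tb2_vx_update hij hj1 hj4 (0, 0) (z := z), ← tb2_vx_update hij hj1 hj4 (0, 0) (z := z0)]
        exact congrArg (fun w => vx w i) hz2
      have e2 : vx z j = z j' := tb2_vx hj1 hj4
      rw [mem_coe, mem_filter]
      constructor
      · have := tb2_memX (hG z hz3 j hj1 hj4).1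
        rwa [e2] at this
      · rw [← e1]
        simp only
        rw [← e2]
        exact hz4
    · intro z hz w hw hzw
      have hz2 := (mem_filter.1 (mem_coe.1 hz)).2
      have hw2 := (mem_filter.1 (mem_coe.1 hw)).2
      have h3 : f z = f w := hz2.trans hw2.symm
      funext k
      by_cases hk : k = j'
      · rw [hk]; exact hzw
      · have h4 := congrFun h3 k
        simp only [hf] at h4
        rwa [Function.update_of_ne hk, Function.update_of_ne hk] at h4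
  have himg : ((s.image f).card : ℝ) ≤
      ∏ k : Fin 4, (if k = j' then (1 : ℝ) else 4 * A (k.val + 1) ^ 2) := by
    have hsub : s.image f ⊆ Fintype.piFinset (fun k : Fin 4 =>
        if k = j' then {(0, 0)} else tb2_X A (k.val + 1)) := by
      intro y hy
      obtain ⟨z, hz, rfl⟩ := mem_image.1 hy
      have hzG := (mem_filter.1 hz).1
      rw [Fintype.mem_piFinset]
      intro k
      by_cases hk : k = j'
      · rw [if_pos hk, hk]
        simp [hf]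
      · rw [if_neg hk]
        simp only [hf]
        rw [Function.update_of_ne hk]
        have h1 := tb2_memX (hG z hzG (k.val + 1) (by omega) (by omega)).1
        rw [tb2_vx (by omega) (by omega)] at h1
        exact h1
    have h1 := card_le_card hsub
    rw [Fintype.card_piFinset] at h1
    have h2 : ((s.image f).card : ℝ) ≤ ∏ k : Fin 4,
        (((if k = j' then {(0, 0)} else tb2_X A (k.val + 1) : Finset (ℤ × ℤ)).card : ℕ) : ℝ) := by
      exact_mod_cast h1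
    refine h2.trans (prod_le_prod (fun _ _ => Nat.cast_nonneg _) ?_)
    intro k _
    by_cases hk : k = j'
    · rw [if_pos hk, if_pos hk]; simp
    · rw [if_neg hk, if_neg hk]
      exact tb2_cardX (hA (k.val + 1) (by omega) (by omega))
  have hp0 : (0 : ℝ) < p := by exact_mod_cast hp.pos
  have hb0 : 0 ≤ 2 * A j * (2 * A j / p + 1) := by positivity
  have h1 : (s.card : ℝ) ≤ (∏ k : Fin 4, (if k = j' then (1 : ℝ) else 4 * A (k.val + 1) ^ 2)) *
      (2 * A j * (2 * A j / p + 1)) := by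
    rw [hcard]
    refine (sum_le_sum hfib).trans ?_
    rw [sum_const, nsmul_eq_mul]
    exact mul_le_mul_of_nonneg_right himg hb0
  have h2 : (∏ k : Fin 4, (if k = j' then (1 : ℝ) else 4 * A (k.val + 1) ^ 2)) *
      (2 * A j * (2 * A j / p + 1)) =
      64 * (A 1 * A 2 * A 3 * A 4) ^ 2 * (4 / p + 2 / A j) := by
    exact tb2_prod hj1 hj4 (by positivity) hp0.ne'
  have h3 : 1 / A j ≤ ∑ i ∈ Icc 1 4, 1 / A i :=
    single_le_sum (f := fun i => 1 / A i) (fun i hi => by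
      have := hA i (mem_Icc.1 hi).1 (mem_Icc.1 hi).2
      positivity) (mem_Icc.2 ⟨hj1, hj4⟩)
  rw [h2] at h1
  refine h1.trans ?_
  have h4 : 0 ≤ (A 1 * A 2 * A 3 * A 4) ^ 2 := sq_nonneg _
  have h5 : (4 : ℝ) / p + 2 / A j ≤ 4 * (1 / p + ∑ i ∈ Icc 1 4, 1 / A i) := by
    have e1 : (4 : ℝ) / p = 4 * (1 / p) := by ring
    have e2 : 2 / A j = 2 * (1 / A j) := by ring
    have h6 : 0 ≤ 1 / A j := by positivity
    rw [e1, e2]
    linarith
  calc 64 * (A 1 * A 2 * A 3 * A 4) ^ 2 * (4 / p + 2 / A j)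
      ≤ 64 * (A 1 * A 2 * A 3 * A 4) ^ 2 * (4 * (1 / p + ∑ i ∈ Icc 1 4, 1 / A i)) := by gcongr
    _ = _ := by ring

open Classical in
/-- block TB2 -/
theorem tiny_dt_pr : ∃ C A₀ : ℝ, 0 < C ∧ ∀ A : ℕ → ℝ, (∀ i, 1 ≤ i → i ≤ 4 → A₀ ≤ A i) →
    ∀ G : Finset (Fin 4 → ℤ × ℤ), (∀ z ∈ G, ∀ i, 1 ≤ i → i ≤ 4 →
      Cx 1 (A i) (xi i) (ze i) (vx z i) ∧ IsCoprime (vx z i).1 (vx z i).2) →
    ∀ p : ℕ, p.Prime → ∀ a b, a < b → b ≤ 5 → (a ≠ 0 ∨ b ≠ 5) →
    ((G.filter (fun z => (p : ℤ) ∣ dt (vx z a) (vx z b))).card : ℝ) ≤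
      C * (1 / p + ∑ i ∈ Icc 1 4, 1 / A i) * (A 1 * A 2 * A 3 * A 4) ^ 2 := by
  refine ⟨256, 1, by norm_num, ?_⟩
  intro A hA G hG p hp a b hab hb hne
  by_cases h5 : b = 5
  · subst h5
    have ha : 1 ≤ a := by omega
    have h1 := tb2_core hA hG hp (i := 5) (j := a) ha (by omega) (by omega)
    refine le_trans (le_of_eq ?_) h1
    congr 2
    apply filter_congr
    intro z _
    have e : dt (vx z 5) (vx z a) = -dt (vx z a) (vx z 5) := by
      simp only [dt]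
      ring
    rw [e, dvd_neg]
  · exact tb2_core hA hG hp (i := a) (j := b) (by omega) (by omega) (by omega)

alias tiny_dt := tiny_dt_pr

end Pool.Agent.TPA
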