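import Pool.Agent.Lib_helper15.TP.Facts
import Pool.Agent.Lib_helper9.PENT.S7
import Pool.Agent.Lib_helper15.TPF.Defs2

/-! Block TC1: the number of scales -/

set_option autoImplicit false

namespace Pool.Agent.TPA

open Finset Pool.Agent.PENT Pool.Agent.PATH.NC

theorem winP_card_pr {p : Prm 10} {τ : ℝ} (hp : p.Ok τ) : ∃ c : ℝ, 0 < c ∧ ∃ X₀ : ℕ, ∀ X ≥ X₀,
    ∃ I : Finset (Fin 7 → ℕ), (∀ ι ∈ I, WinP p X ι) ∧ c * Real.log X ^ 7 ≤ I.card := by
  have hew := hp.ew0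
  have hτ : 0 < τ := lt_of_lt_of_le hp.c10 hp.c11
  have he : ∀ l : Fin 7, 0 < p.e ⟨l.val + 2, by omega⟩ := by
    intro l
    have h1 := hp.ew1 ⟨l.val + 2, by omega⟩ (by simp) (by simp; omega)
    by_contra hneg
    push Not at hneg
    have h2 : τ * p.e ⟨l.val + 2, by omega⟩ ≤ 0 := mul_nonpos_of_nonneg_of_nonpos hτ.le hneg
    linarith
  obtain ⟨ep, hep'⟩ : ∃ ep : ℝ, ep = 50 * p.ew := ⟨_, rfl⟩
  have hep : 0 < ep := by rw [hep']; positivity
  have hep50 : ep / 50 = p.ew := by rw [hep']; ring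
  have ht : Filter.Tendsto (fun n : ℕ => Real.log (n : ℝ)) Filter.atTop Filter.atTop :=
    Real.tendsto_log_atTop.comp tendsto_natCast_atTop_atTop
  obtain ⟨X₀, hX₀⟩ := Filter.eventually_atTop.1 (ht.eventually_ge_atTop (2000 / ep))
  refine ⟨(ep / 200) ^ 7, by positivity, X₀ + 1, fun X hX => ?_⟩
  have hXX : X₀ ≤ X := by omega
  have hXpos : (0 : ℝ) < X := by
    have : 0 < X := by omega
    exact_mod_cast this
  obtain ⟨L, hL⟩ : ∃ L : ℝ, L = Real.log X := ⟨_, rfl⟩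
  have hbig : 2000 / ep ≤ L := by rw [hL]; exact hX₀ X hXX
  have hL0 : 0 < L := lt_of_lt_of_le (by positivity) hbig
  have hepL : 2000 ≤ ep * L := by
    rw [div_le_iff₀ hep] at hbig
    linarith
  refine ⟨Fintype.piFinset (fun l : Fin 7 => Ico ⌈p.e ⟨l.val + 2, by omega⟩ * L / Real.log 2⌉₊
    (⌈p.e ⟨l.val + 2, by omega⟩ * L / Real.log 2⌉₊ + ⌊ep * L / 100⌋₊)), ?_, ?_⟩
  · intro i hi l
    have h1 := mem_Ico.1 (Fintype.mem_piFinset.1 hi l)
    have h2 := s7_one hXpos hL (he l) hep hbig (i l) h1.1 h1.2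
    rw [hep50] at h2
    exact h2
  · rw [Fintype.card_piFinset]
    simp only [Nat.card_Ico, Nat.add_sub_cancel_left]
    rw [Finset.prod_const]
    have hc5 : (univ : Finset (Fin 7)).card = 7 := by simp
    rw [hc5, ← hL]
    push_cast
    rw [← mul_pow]
    apply pow_le_pow_left₀ (by positivity)
    have h3 : ep * L / 100 < (⌊ep * L / 100⌋₊ : ℝ) + 1 := Nat.lt_floor_add_one _
    have h4 : ep / 200 * L = ep * L / 200 := by ring
    rw [h4]
    linarith

alias winP_card := winP_card_pr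

end Pool.Agent.TPA
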