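import Pool.Agent.Lib_helper15.TP.Facts
import Pool.Agent.Lib_helper15.TPF.Defs2

/-!
# MP_892e4c_nt (B*), (LB), block TC2: the path is in the family (helper24)
-/

set_option autoImplicit false

namespace Pool.Agent.TPA

open Finset Pool.Agent.PENT Pool.Agent.PATH.NC

theorem tc2_plucker (x y w z : ℤ × ℤ) :
    dt x w * dt y z - dt x z * dt y w = dt x y * dt w z := by
  simp only [dt]
  ring

theorem tc2_swap (x y : ℤ × ℤ) : dt x y = -dt y x := by
  simp only [dt]
  ring

theorem tc2_swapN (x y : ℤ × ℤ) : (dt x y).natAbs = (dt y x).natAbs := by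
  rw [tc2_swap, Int.natAbs_neg]

theorem tc2_smul (w : ℤ × ℤ) (a x y : ℤ) : dt w (a * x, a * y) = a * dt w (x, y) := by
  simp only [dt]
  ring

/-- coprimality with the determinant with an even vertex -/
theorem tc2_star {D : Dat} (h : D.Hyp) {t : ℕ → ℕ} (hp : Dat.PF D 10 t) {j l : ℕ} (hj : j ≤ 9)
    (hl : l ≤ 10) (h1 : l ≠ j) (h2 : l ≠ j + 1) :
    Nat.Coprime (t j) (dt (D.v ((j + 1) / 2)) (D.pv t l)).natAbs := by
  rcases Nat.even_or_odd' l with ⟨c, rfl | rfl⟩
  · rw [Dat.pv_even]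
    rcases Nat.lt_or_ge ((j + 1) / 2) c with hc | hc
    · exact hp.cv j (by omega) _ _ hc (by omega)
    · rw [tc2_swapN]
      exact hp.cv j (by omega) _ _ (by omega) (by omega)
  · by_cases j9 : j = 9
    · subst j9
      have hc : c ≤ 3 := by omega
      have h4 := (hp.clo c hc (by omega)).2.2.2
      rw [hp.lc_eq (by omega) (by omega), tc2_smul, Int.natAbs_mul] at h4
      rw [hp.t9 (by norm_num)]
      exact h4.coprime_dvd_right (dvd_mul_left _ _)
    · by_cases hcj : c < j / 2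
      · exact hp.od j (by omega) (by omega) _ (by omega) c hcj
      · by_cases hca : c = (j + 1) / 2
        · have he := hp.edge h (j := 2 * c) (by omega) (by omega)
          rw [Dat.pv_even] at he
          rw [← hca, he, Int.natAbs_natCast]
          exact hp.ct j (2 * c) (by omega) (by omega)
        · by_cases c4 : c = 4
          · subst c4
            have h4 := (hp.clo8 (by norm_num)).2.2 j (by omega)
            have e := hp.lc_eq (b := 4) (by omega) (by omega)
            rw [show (2 * 4 : ℕ) = 8 by norm_num, show (8 + 1 : ℕ) = 9 by norm_num,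
              hp.t9 (by norm_num)] at e
            have e' : lc (D.v 4) (D.v 5) (t 8) D.d9 =
              (De D.v 4 * (D.pv t 9).1, De D.v 4 * (D.pv t 9).2) := e
            rw [e', tc2_smul, Int.natAbs_mul] at h4
            exact h4.coprime_dvd_right (dvd_mul_left _ _)
          · have h4 := (hp.clo c (by omega) (by omega)).2.2.1 j (by omega)
            rw [hp.lc_eq (by omega) (by omega), tc2_smul, Int.natAbs_mul] at h4
            exact h4.coprime_dvd_right (dvd_mul_left _ _)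

theorem tc2_nice {D : Dat} (h : D.Hyp) {t : ℕ → ℕ} (hp : Dat.PF D 10 t) {j l : ℕ} (hj : j ≤ 9)
    (hl : l ≤ 10) (h1 : l ≠ j) (h2 : l ≠ j + 1) :
    Nat.Coprime (t j) (dt (D.pv t j) (D.pv t l)).natAbs := by
  have hs := tc2_star h hp hj hl h1 h2
  rcases Nat.even_or_odd' j with ⟨b, rfl | rfl⟩
  · rw [Dat.pv_even]
    have e : (2 * b + 1) / 2 = b := by omega
    rwa [e] at hs
  · have e : (2 * b + 1 + 1) / 2 = b + 1 := by omega
    rw [e] at hs
    refine Nat.coprime_of_dvd fun r hr hr1 hr2 => ?_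
    have hr' : Prime (r : ℤ) := Nat.prime_iff_prime_int.1 hr
    have g1 : (r : ℤ) ∣ t (2 * b + 1) := Int.natCast_dvd_natCast.2 hr1
    have g2 : (r : ℤ) ∣ dt (D.pv t (2 * b + 1)) (D.pv t l) := Int.natCast_dvd.2 hr2
    have e1 : dt (D.pv t (2 * b + 1)) (D.v (b + 1)) = t (2 * b + 1) := by
      have := hp.edge h (j := 2 * b + 1) (by omega) (by omega)
      rwa [show 2 * b + 1 + 1 = 2 * (b + 1) by ring, Dat.pv_even] at this
    have e2 : dt (D.v b) (D.pv t (2 * b + 1)) = t (2 * b) := by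
      have := hp.edge h (j := 2 * b) (by omega) (by omega)
      rwa [Dat.pv_even] at this
    have e3 := tc2_plucker (D.pv t (2 * b + 1)) (D.v (b + 1)) (D.pv t l) (D.v b)
    have g3 : (r : ℤ) ∣ dt (D.pv t (2 * b + 1)) (D.v b) * dt (D.v (b + 1)) (D.pv t l) := by
      have : dt (D.pv t (2 * b + 1)) (D.v b) * dt (D.v (b + 1)) (D.pv t l) =
          dt (D.pv t (2 * b + 1)) (D.pv t l) * dt (D.v (b + 1)) (D.v b) -
            t (2 * b + 1) * dt (D.pv t l) (D.v b) := by
        rw [← e1]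
        linear_combination -e3
      rw [this]
      exact dvd_sub (g2.mul_right _) (g1.mul_right _)
    rcases hr'.dvd_or_dvd g3 with g4 | g4
    · rw [tc2_swap, e2, dvd_neg] at g4
      have g5 : r ∣ t (2 * b) := Int.natCast_dvd_natCast.1 g4
      have g6 := hp.ct (2 * b) (2 * b + 1) (by omega) (by omega)
      exact Nat.Prime.not_coprime_iff_dvd.2 ⟨r, hr, g5, hr1⟩ g6
    · have g5 : r ∣ (dt (D.v (b + 1)) (D.pv t l)).natAbs := Int.natCast_dvd.1 g4
      exact Nat.Prime.not_coprime_iff_dvd.2 ⟨r, hr, hr1, g5⟩ hs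

theorem tc2_ni {P1 : ℕ} {q : ℤ × ℤ × ℤ} {a : ℤ} {u : ℤ × ℤ}
    (h : NI P1 q (a * u.1, a * u.2)) : NI P1 q u := by
  intro l hl h4 hP hd
  refine h l hl h4 hP ?_
  have : fv q (a * u.1, a * u.2) = a ^ 2 * fv q u := by
    simp only [fv, qf]
    ring
  rw [this]
  exact hd.mul_left _

theorem tc2_NI {D : Dat} {t : ℕ → ℕ} (hp : Dat.PF D 10 t) {j : ℕ} (hj : j ≤ 10)
    (ho : ¬ Even j) : NI D.P1 D.q (D.pv t j) := by
  rcases Nat.even_or_odd' j with ⟨b, rfl | rfl⟩
  · exact absurd (even_two_mul b) ho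
  · by_cases b4 : b = 4
    · subst b4
      have h4 := (hp.clo8 (by norm_num)).2.1
      have e := hp.lc_eq (b := 4) (by omega) (by omega)
      rw [show (2 * 4 : ℕ) = 8 by norm_num, show (8 + 1 : ℕ) = 9 by norm_num,
        hp.t9 (by norm_num)] at e
      have e' : lc (D.v 4) (D.v 5) (t 8) D.d9 =
        (De D.v 4 * (D.pv t 9).1, De D.v 4 * (D.pv t 9).2) := e
      rw [e'] at h4
      exact tc2_ni h4
    · have h4 := (hp.clo b (by omega) (by omega)).2.1
      rw [hp.lc_eq (by omega) (by omega)] at h4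
      exact tc2_ni h4

theorem tc2_dpos {l : ℕ} (h1 : 1 ≤ l) (h9 : l ≤ 9) : 0 < dx l ∧ 0 < dz l := by
  interval_cases l <;> simp [dx, dz, xi, ze] <;> norm_num

/-- the norm of a vertex -/
theorem tc2_nm {s a b : ℝ} {u : ℤ × ℤ} (hs : 0 < s) (ha : 0 ≤ a) (hb : 0 ≤ b)
    (hab : 1 ≤ a + b) (hab' : a + b ≤ 10) (h : Cx 2 s a b u) :
    s ≤ (nm u : ℝ) ∧ (nm u : ℝ) ≤ 10201 / 1000 * s := by
  obtain ⟨h1, h2, h3, h4⟩ := h
  have e : (nm u : ℝ) = (u.1 : ℝ) + u.2 := by simp only [nm]; push_cast; ring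
  rw [e]
  constructor
  · nlinarith
  · have h5 : (u.1 : ℝ) + u.2 ≤ (101 / 100 : ℝ) ^ 2 * (s * (a + b)) := by
      calc (u.1 : ℝ) + u.2 ≤ (101 / 100 : ℝ) ^ 2 * (s * a) + (101 / 100 : ℝ) ^ 2 * (s * b) :=
            add_le_add h2 h4
        _ = _ := by ring
    have h6 : s * (a + b) ≤ s * 10 := mul_le_mul_of_nonneg_left hab' hs.le
    nlinarith

theorem tc2_sc {X P1 : ℕ} {q : ℤ × ℤ × ℤ} {f : ℕ × ℕ} {ι : Fin 7 → ℕ}
    {z : Fin 4 → ℤ × ℤ} {l : ℕ} (h2 : 2 ≤ l) (h8 : l ≤ 8) :
    Dat.sc (dat X P1 q f ι z) l = 2 ^ ι ⟨l - 2, by omega⟩ := by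
  rcases Nat.even_or_odd' l with ⟨b, rfl | rfl⟩
  · unfold Dat.sc
    rw [if_pos (by omega), Nat.mul_div_cancel_left _ (by norm_num)]
    show sA ι b = _
    unfold sA ex
    rw [if_neg (by omega), dif_pos (by omega)]
  · unfold Dat.sc
    have e : (2 * b + 1) / 2 = b := by omega
    rw [if_neg (by omega), e]
    unfold Dat.ZZ
    rw [if_neg (by omega), if_neg (by omega)]
    show sZ ι b = _
    unfold sZ ex
    rw [dif_pos (by omega)]
    congr 2

theorem path_gp_pr {p : Prm 10} {τ : ℝ} (hp : p.Ok τ) (hτ : τ ≤ 1 / 200) {X P1 : ℕ} (hX : 2 ≤ X)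
    {q : ℤ × ℤ × ℤ} {f : ℕ × ℕ} (hf : f ∈ Fac p X) {ι : Fin 7 → ℕ} (hι : WinP p X ι)
    {z : Fin 4 → ℤ × ℤ} (h : (dat X P1 q f ι z).Hyp) {t : ℕ → ℕ}
    (ht : ∀ j < 10, t j ∈ (dat X P1 q f ι z).SS j t) :
    GP p X ((dat X P1 q f ι z).path t) ∧ fE ((dat X P1 q f ι z).path t) = f ∧
      (∀ i, 1 ≤ i → i ≤ 10 → dE ((dat X P1 q f ι z).path t) i = t (i - 1)) ∧
      ∀ j : Fin 11, ¬ Even j.val → NI P1 q ((dat X P1 q f ι z).path t j) := by
  classical
  have hF := Dat.pf_of_mem h (le_refl 10) ht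
  set D := dat X P1 q f ι z with hD
  -- the edges
  have hdE : ∀ i, 1 ≤ i → i ≤ 10 → dE (D.path t) i = t (i - 1) := by
    intro i h1 h2
    unfold dE
    rw [dif_pos ⟨h1, h2⟩]
    have he := hF.edge h (j := i - 1) (by omega) (by omega)
    have e1 : i - 1 + 1 = i := by omega
    rw [e1] at he
    show (dt (D.pv t (i - 1)) (D.pv t i)).natAbs = t (i - 1)
    rw [he, Int.natAbs_natCast]
  have t0 : t 0 = f.1 := hF.t0 (by norm_num)
  have t9 : t 9 = f.2 := hF.t9 (by norm_num)
  have hfm := (mem_filter.1 hf).2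
  have hbox : ∀ l, l ≤ 10 → Cx 2 (D.sc l) (dx l) (dz l) (D.pv t l) := fun l hl =>
    hF.box h hl fun _ => by omega
  have hnm : ∀ l, l ≤ 10 → D.sc l ≤ (nm (D.pv t l) : ℝ) ∧
      (nm (D.pv t l) : ℝ) ≤ 10201 / 1000 * D.sc l := fun l hl =>
    tc2_nm (h.sc_pos l) (dx_nonneg l) (dz_nonneg l) (dir_sum hl).1 (dir_sum hl).2 (hbox l hl)
  refine ⟨?_, ?_, hdE, ?_⟩
  · refine ⟨?_, ?_, ?_, ?_, ?_, ?_, ?_, ?_, ?_, ?_, ?_⟩
    · -- first
      show D.pv t 0 = (1, 0)
      have := Dat.pv_even (D := D) t 0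
      rw [Nat.mul_zero] at this
      rw [this]
      exact h.tin.v0
    · -- last
      show D.pv t 10 = (0, 1)
      have := Dat.pv_even (D := D) t 5
      rw [show 2 * 5 = 10 by norm_num] at this
      rw [this]
      exact h.tin.v5
    · -- positivity
      intro j h1 h2
      obtain ⟨d1, d2⟩ := tc2_dpos h1 (by omega : j.val ≤ 9)
      obtain ⟨b1, _, b3, _⟩ := hbox j.val (by omega)
      have s1 := h.sc_pos j.val
      constructor
      · have : (0 : ℝ) < ((D.pv t j.val).1 : ℝ) := lt_of_lt_of_le (mul_pos s1 d1) b1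
        exact_mod_cast this
      · have : (0 : ℝ) < ((D.pv t j.val).2 : ℝ) := lt_of_lt_of_le (mul_pos s1 d2) b3
        exact_mod_cast this
    · -- low
      intro j h1 h2
      have e : D.sc j.val = 2 ^ ι ⟨j.val - 2, by omega⟩ := tc2_sc h1 (by omega)
      have w := (hι ⟨j.val - 2, by omega⟩).1
      have e2 : (⟨j.val - 2 + 2, by omega⟩ : Fin 11) = j := Fin.ext (by show j.val - 2 + 2 = _; omega)
      have w' : (X : ℝ) ^ p.e j ≤ 2 ^ ι ⟨j.val - 2, by omega⟩ := by
        have := w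
        simp only [e2] at this
        exact this
      have := (hnm j.val (by omega)).1
      rw [e] at this
      exact w'.trans this
    · -- upp
      intro j h1 h2
      have e : D.sc j.val = 2 ^ ι ⟨j.val - 2, by omega⟩ := tc2_sc h1 (by omega)
      have w := (hι ⟨j.val - 2, by omega⟩).2
      have e2 : (⟨j.val - 2 + 2, by omega⟩ : Fin 11) = j := Fin.ext (by show j.val - 2 + 2 = _; omega)
      have w' : 20 * (2 : ℝ) ^ ι ⟨j.val - 2, by omega⟩ ≤ (X : ℝ) ^ (p.e j + p.ew) := by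
        have := w
        simp only [e2] at this
        exact this
      have h3 := (hnm j.val (by omega)).2
      rw [e] at h3
      have h4 : (0 : ℝ) < 2 ^ ι ⟨j.val - 2, by omega⟩ := by positivity
      refine h3.trans (le_trans ?_ w')
      nlinarith
    · -- separation
      intro i j hij
      have d := (hF.dts h (l := i.val) (l' := j.val) hij (by omega) (fun _ => by omega)
        (fun _ => by omega)).1
      have n1 := hnm i.val (by omega)
      have n2 := hnm j.val (by omega)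
      have s1 := h.sc_pos i.val
      have s2 := h.sc_pos j.val
      have m1 : (nm (D.pv t i.val) : ℝ) * (nm (D.pv t j.val) : ℝ) ≤
          (10201 / 1000 * D.sc i.val) * (10201 / 1000 * D.sc j.val) :=
        mul_le_mul n1.2 n2.2 (s2.le.trans n2.1) (by positivity)
      have m0 : 0 ≤ (nm (D.pv t i.val) : ℝ) * (nm (D.pv t j.val) : ℝ) :=
        mul_nonneg (s1.le.trans n1.1) (s2.le.trans n2.1)
      have c1 : p.c1 ≤ 1 / 200 := hp.c11.trans hτ
      show p.c1 * ((nm (D.pv t i.val) : ℝ) * (nm (D.pv t j.val) : ℝ)) ≤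
        (dt (D.pv t i.val) (D.pv t j.val) : ℝ)
      calc p.c1 * ((nm (D.pv t i.val) : ℝ) * (nm (D.pv t j.val) : ℝ)) ≤
            1 / 200 * ((10201 / 1000 * D.sc i.val) * (10201 / 1000 * D.sc j.val)) :=
            mul_le_mul c1 m1 m0 (by norm_num)
        _ ≤ 7 / 10 * (D.sc i.val * D.sc j.val) := by
            have := mul_pos s1 s2
            nlinarith
        _ ≤ _ := d
    · -- dp
      intro i h1 h2
      rw [hdE i h1 h2]
      exact hF.dp _ (by omega)
    · rw [hdE 1 le_rfl (by norm_num), show 1 - 1 = 0 by norm_num, t0]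
      exact hfm.1
    · rw [hdE 10 (by norm_num) le_rfl, show 10 - 1 = 9 by norm_num, t9]
      exact hfm.2.1
    · -- cop
      intro i j h1 hij h2
      rw [hdE i h1 (by omega), hdE j (by omega) h2]
      exact hF.ct _ _ (by omega) (by omega)
    · -- nice
      intro j l h1 h2
      rw [hdE (j.val + 1) (by omega) (by omega)]
      have e : j.val + 1 - 1 = j.val := by omega
      rw [e]
      exact tc2_nice h hF (j := j.val) (l := l.val) (by omega) (by omega)
        (fun hh => h1 (Fin.ext hh)) (fun hh => h2 (Fin.ext hh))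
  · unfold fE
    rw [hdE 1 le_rfl (by norm_num), hdE 10 (by norm_num) le_rfl]
    show (t 0, t 9) = f
    rw [t0, t9]
  · intro j hj
    exact tc2_NI hF (by omega) hj

alias path_gp := path_gp_pr

end Pool.Agent.TPA
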