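import Pool.Agent.Lib_helper15.TP.Facts
import Pool.Agent.Lib_helper15.TPF.Defs2

/-! Block TC3 (uses the definitions `ex`, `sA`, `sZ`, `dat` of W/All) -/

set_option autoImplicit false

namespace Pool.Agent.TPA

open Finset Pool.Agent.PENT Pool.Agent.PATH.NC

theorem tc3_le {m n : ℕ} {a b : ℝ} {u : ℤ × ℤ} (ha : 0 < a)
    (h : Cx 2 (2 ^ m) a b u) (h' : Cx 2 (2 ^ n) a b u) : m ≤ n := by
  by_contra hmn
  push Not at hmn
  have h1 : (2 : ℝ) ^ m * a ≤ (u.1 : ℝ) := h.1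
  have h2 : (u.1 : ℝ) ≤ (101 / 100 : ℝ) ^ 2 * ((2 : ℝ) ^ n * a) := h'.2.1
  have h4 : (2 : ℝ) ^ (n + 1) ≤ (2 : ℝ) ^ m := pow_le_pow_right₀ (by norm_num) hmn
  have h5 : (0 : ℝ) < (2 : ℝ) ^ n * a := by positivity
  rw [pow_succ] at h4
  have h7 : (2 : ℝ) ^ n * 2 * a ≤ (2 : ℝ) ^ m * a := mul_le_mul_of_nonneg_right h4 ha.le
  nlinarith

theorem tc3_eq {m n : ℕ} {a b : ℝ} {u : ℤ × ℤ} (ha : 0 < a)
    (h : Cx 2 (2 ^ m) a b u) (h' : Cx 2 (2 ^ n) a b u) : m = n :=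
  le_antisymm (tc3_le ha h h') (tc3_le ha h' h)

theorem tc3_dx {l : ℕ} (hl : l < 7) : 0 < dx (l + 2) := by
  interval_cases l <;> simp [dx, xi] <;> norm_num

theorem tc3_sc {X P1 : ℕ} {q : ℤ × ℤ × ℤ} {f : ℕ × ℕ} {ι : Fin 7 → ℕ} {z : Fin 4 → ℤ × ℤ}
    (l : Fin 7) : Dat.sc (dat X P1 q f ι z) (l.val + 2) = 2 ^ ι l := by
  obtain ⟨l, hl⟩ := l
  show Dat.sc (dat X P1 q f ι z) (l + 2) = 2 ^ ι ⟨l, hl⟩
  rcases Nat.even_or_odd' l with ⟨b, rfl | rfl⟩
  · have e1 : (2 * b + 2) / 2 = b + 1 := by omega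
    unfold Dat.sc
    rw [if_pos (by omega), e1]
    show sA ι (b + 1) = _
    unfold sA
    have e2 : 2 * (b + 1) - 2 = 2 * b := by omega
    rw [if_neg (by omega), e2]
    unfold ex
    rw [dif_pos hl]
  · have e1 : (2 * b + 1 + 2) / 2 = b + 1 := by omega
    unfold Dat.sc
    rw [if_neg (by omega), e1]
    unfold Dat.ZZ
    rw [if_neg (by omega), if_neg (by omega)]
    show sZ ι (b + 1) = _
    unfold sZ
    have e2 : 2 * (b + 1) - 1 = 2 * b + 1 := by omega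
    rw [e2]
    unfold ex
    rw [dif_pos hl]

/-- block TC3: the path determines the data (as S4, Lib_helper87/PENT) -/
theorem path_inj_pr {X P1 : ℕ} {q : ℤ × ℤ × ℤ} {f : ℕ × ℕ} {ι ι' : Fin 7 → ℕ}
    {z z' : Fin 4 → ℤ × ℤ} (h : (dat X P1 q f ι z).Hyp) (h' : (dat X P1 q f ι' z').Hyp)
    {t t' : ℕ → ℕ} (ht : ∀ j < 10, t j ∈ (dat X P1 q f ι z).SS j t)
    (ht' : ∀ j < 10, t' j ∈ (dat X P1 q f ι' z').SS j t')
    (h0 : ∀ j, 10 ≤ j → t j = 0) (h0' : ∀ j, 10 ≤ j → t' j = 0)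
    (he : (dat X P1 q f ι z).path t = (dat X P1 q f ι' z').path t') :
    ι = ι' ∧ z = z' ∧ t = t' := by
  have hp := Dat.pf_of_mem h (le_refl 10) ht
  have hp' := Dat.pf_of_mem h' (le_refl 10) ht'
  have key : ∀ l : ℕ, l ≤ 10 → (dat X P1 q f ι z).pv t l = (dat X P1 q f ι' z').pv t' l := by
    intro l hl
    exact congrFun he ⟨l, by omega⟩
  refine ⟨?_, ?_, ?_⟩
  · funext l
    have hl := l.isLt
    have b1 := hp.box h (l := l.val + 2) (by omega) (fun _ => by omega)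
    have b2 := hp'.box h' (l := l.val + 2) (by omega) (fun _ => by omega)
    rw [tc3_sc] at b1 b2
    rw [← key (l.val + 2) (by omega)] at b2
    exact tc3_eq (tc3_dx hl) b1 b2
  · funext i
    have hi := i.isLt
    have e := key (2 * (i.val + 1)) (by omega)
    rw [Dat.pv_even, Dat.pv_even] at e
    change vx z (i.val + 1) = vx z' (i.val + 1) at e
    unfold vx at e
    rw [if_neg (by omega), dif_pos (by omega), if_neg (by omega), dif_pos (by omega)] at e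
    have e2 : (⟨i.val + 1 - 1, by omega⟩ : Fin 4) = i := Fin.ext (by simp)
    rw [e2] at e
    exact e
  · funext j
    by_cases hj : 10 ≤ j
    · rw [h0 j hj, h0' j hj]
    · push Not at hj
      have e1 := hp.edge h (j := j) (by omega) (by omega)
      have e2 := hp'.edge h' (j := j) (by omega) (by omega)
      rw [← key j (by omega), ← key (j + 1) (by omega), e1] at e2
      exact_mod_cast e2

alias path_inj := path_inj_pr

end Pool.Agent.TPA
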