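import Pool.Agent.Lib_helper15.TP.Facts

/-!
# MP_892e4c_nt (B*), (LB), block TC4: the interior weight from below (helper35)
-/

set_option autoImplicit false

namespace Pool.Agent.TPA

open Finset Pool.Agent.PENT Pool.Agent.PATH.NC

theorem tc4_prod (f : ℕ → ℝ) (d : ℕ → ℕ) (s : Finset ℕ)
    (hc : ∀ i ∈ s, ∀ j ∈ s, i ≠ j → Nat.Coprime (d i) (d j)) (h0 : ∀ i ∈ s, d i ≠ 0) :
    ∏ l ∈ (∏ i ∈ s, d i).primeFactors, f l = ∏ i ∈ s, ∏ l ∈ (d i).primeFactors, f l := by
  classical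
  induction s using Finset.induction_on with
  | empty => simp
  | insert a s ha ih =>
    have hcop : Nat.Coprime (d a) (∏ i ∈ s, d i) := by
      apply Nat.Coprime.prod_right
      intro i hi
      exact hc a (Finset.mem_insert_self a s) i (Finset.mem_insert_of_mem hi)
        (fun h => ha (h ▸ hi))
    rw [Finset.prod_insert ha, Finset.prod_insert ha, Nat.Coprime.primeFactors_mul hcop,
      Finset.prod_union (Nat.Coprime.disjoint_primeFactors hcop),
      ih (fun i hi j hj hij => hc i (Finset.mem_insert_of_mem hi) j (Finset.mem_insert_of_mem hj)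
        hij) (fun i hi => h0 i (Finset.mem_insert_of_mem hi))]

theorem tc4_one_sub (s : Finset ℕ) (x : ℕ → ℝ) (h0 : ∀ i ∈ s, 0 ≤ x i) (h1 : ∀ i ∈ s, x i ≤ 1) :
    1 - ∑ i ∈ s, x i ≤ ∏ i ∈ s, (1 - x i) := by
  classical
  induction s using Finset.induction_on with
  | empty => simp
  | insert a s ha ih =>
    have ih' := ih (fun i hi => h0 i (Finset.mem_insert_of_mem hi))
      (fun i hi => h1 i (Finset.mem_insert_of_mem hi))
    rw [Finset.prod_insert ha, Finset.sum_insert ha]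
    have a0 := h0 a (Finset.mem_insert_self a s)
    have a1 := h1 a (Finset.mem_insert_self a s)
    have s0 : 0 ≤ ∑ i ∈ s, x i := Finset.sum_nonneg (fun i hi => h0 i (Finset.mem_insert_of_mem hi))
    have h2 : (1 - x a) * (1 - ∑ i ∈ s, x i) ≤ (1 - x a) * ∏ i ∈ s, (1 - x i) :=
      mul_le_mul_of_nonneg_left ih' (by linarith)
    nlinarith [mul_nonneg a0 s0]

theorem tc4_fw {P : ℝ} {n : ℕ} (h : DP P n) :
    fw P (1 / 4) n / (n : ℝ) = ∏ l ∈ n.primeFactors, (1 / 2) / (l : ℝ) := by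
  unfold fw
  rw [if_pos h, Finset.prod_div_distrib, Finset.prod_const]
  congr 1
  · congr 1
    norm_num
  · rw [← Nat.cast_prod, Nat.prod_primeFactors_of_squarefree h.1]

/-- `ω(n) ≤ 2 log n` -/
theorem tc4_omega {n : ℕ} (hn : n ≠ 0) : (n.primeFactors.card : ℝ) ≤ 2 * Real.log n := by
  have h1 : 2 ^ n.primeFactors.card ≤ n := by
    calc 2 ^ n.primeFactors.card = ∏ _p ∈ n.primeFactors, 2 := by rw [Finset.prod_const]
      _ ≤ ∏ p ∈ n.primeFactors, p :=
          Finset.prod_le_prod' (fun p hp => (Nat.prime_of_mem_primeFactors hp).two_le)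
      _ ≤ n := Nat.le_of_dvd (Nat.pos_of_ne_zero hn) (Nat.prod_primeFactors_dvd n)
  have h2 : ((2 : ℝ)) ^ n.primeFactors.card ≤ (n : ℝ) := by exact_mod_cast h1
  have h3 := Real.log_le_log (by positivity) h2
  rw [Real.log_pow] at h3
  have h4 : (1 : ℝ) / 2 ≤ Real.log 2 := by
    have := Real.log_two_gt_d9
    linarith
  have h5 : (0 : ℝ) ≤ (n.primeFactors.card : ℝ) := Nat.cast_nonneg _
  nlinarith [mul_le_mul_of_nonneg_left h4 h5]

/-- sizes of the vertices -/
theorem tc4_nm {p : Prm 10} {τ : ℝ} (hp : p.Ok τ) (hτ : τ ≤ 1 / 200) {X : ℕ} (hX : 1 ≤ (X : ℝ))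
    (hc : 1 ≤ p.c1 * (X : ℝ) ^ (1 / 200 : ℝ)) {u : Vec 10} (h : GP p X u) (j : Fin 11)
    (h1 : 1 ≤ j.val) (h9 : j.val ≤ 9) : (nm (u j) : ℝ) ≤ (X : ℝ) ^ (1 / 100 : ℝ) := by
  have hτ0 : 0 < τ := lt_of_lt_of_le hp.c10 hp.c11
  have hτ1 : τ ≤ 1 := by linarith
  have hep : 0 < p.ep := by
    have e1 := hp.ew1 3 (by decide) (by decide)
    have e2 := hp.odd 3 (by decide) (by decide) (by decide)
    rw [e2] at e1
    have e3 := hp.ew0
    by_contra hne
    push Not at hne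
    nlinarith
  have hep1 := hp.ep1
  have hta : p.ta ≤ p.ep := by
    have := hp.ta_ep
    nlinarith
  have hem : p.em ≤ p.ep := by
    have := hp.em_ta
    have : τ * p.ta ≤ τ * p.ep := mul_le_mul_of_nonneg_left hta hτ0.le
    nlinarith
  have hew : p.ew ≤ 1 / 200 := by
    have e1 := hp.ew1 3 (by decide) (by decide)
    have e2 := hp.odd 3 (by decide) (by decide) (by decide)
    rw [e2] at e1
    have : τ * p.ep ≤ 1 * p.ep := mul_le_mul_of_nonneg_right hτ1 hep.le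
    linarith
  have hXe : ∀ e : ℝ, e ≤ 1 / 100 → (X : ℝ) ^ e ≤ (X : ℝ) ^ (1 / 100 : ℝ) := fun e he =>
    Real.rpow_le_rpow_of_exponent_le hX he
  -- from an end
  have hend : ∀ (a : ℝ) (d : ℕ), (d : ℝ) ≤ (X : ℝ) ^ p.ep → p.c1 * a ≤ d →
      a ≤ (X : ℝ) ^ (1 / 100 : ℝ) := by
    intro a d hd had
    have e1 : (X : ℝ) ^ p.ep ≤ (X : ℝ) ^ (1 / 200 : ℝ) :=
      Real.rpow_le_rpow_of_exponent_le hX (by linarith)
    have e2 : (X : ℝ) ^ (1 / 100 : ℝ) = (X : ℝ) ^ (1 / 200 : ℝ) * (X : ℝ) ^ (1 / 200 : ℝ) := by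
      rw [← Real.rpow_add (by linarith)]
      norm_num
    have e3 : 0 < (X : ℝ) ^ (1 / 200 : ℝ) := Real.rpow_pos_of_pos (by linarith) _
    have e4 : p.c1 * a ≤ p.c1 * ((X : ℝ) ^ (1 / 200 : ℝ) * (X : ℝ) ^ (1 / 200 : ℝ)) := by
      calc p.c1 * a ≤ (X : ℝ) ^ (1 / 200 : ℝ) := by linarith
        _ = 1 * (X : ℝ) ^ (1 / 200 : ℝ) := by ring
        _ ≤ (p.c1 * (X : ℝ) ^ (1 / 200 : ℝ)) * (X : ℝ) ^ (1 / 200 : ℝ) :=
            mul_le_mul_of_nonneg_right hc e3.le
        _ = _ := by ring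
    rw [e2]
    exact le_of_mul_le_mul_left e4 hp.c10
  have habs : ∀ z : ℤ, (z : ℝ) ≤ (z.natAbs : ℝ) := by
    intro z
    rw [← Int.cast_natCast (z.natAbs)]
    exact Int.cast_le.mpr Int.le_natAbs
  rcases Nat.lt_or_ge j.val 2 with hj | hj
  · -- the vertex 1
    have hj1 : j = 1 := by
      apply Fin.ext
      show j.val = 1
      omega
    subst hj1
    have e1 := h.sep 0 1 (by decide)
    have e2 : nm (u 0) = 1 := by rw [h.first]; rfl
    rw [e2] at e1
    have e3 := h.e1.hi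
    refine hend _ _ e3 ?_
    have e4 : dE u 1 = (dt (u 0) (u 1)).natAbs := by
      unfold dE
      rw [dif_pos ⟨le_refl 1, by norm_num⟩]
      rfl
    rw [e4]
    refine le_trans ?_ (habs _)
    refine le_trans (le_of_eq ?_) e1
    push_cast
    ring
  · rcases Nat.lt_or_ge 8 j.val with hj9 | hj8
    · have hj1 : j = 9 := by
        apply Fin.ext
        show j.val = 9
        omega
      subst hj1
      have e1 := h.sep 9 10 (by decide)
      have e2 : nm (u 10) = 1 := by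
        have : u 10 = (0, 1) := h.last
        rw [this]; rfl
      rw [e2] at e1
      have e3 := h.e2.hi
      refine hend _ _ e3 ?_
      have e4 : dE u 10 = (dt (u 9) (u 10)).natAbs := by
        unfold dE
        rw [dif_pos ⟨by norm_num, le_refl 10⟩]
        rfl
      rw [e4]
      refine le_trans ?_ (habs _)
      refine le_trans (le_of_eq ?_) e1
      push_cast
      ring
    · refine (h.upp j hj (by omega)).trans (hXe _ ?_)
      by_cases hev : Even j.val
      · have e1 := hp.even j hj (by omega) hev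
        have e2 : τ * p.em ≤ τ * p.ep := mul_le_mul_of_nonneg_left hem hτ0.le
        have e3 : τ * p.ep ≤ 1 * p.ep := mul_le_mul_of_nonneg_right hτ1 hep.le
        linarith
      · have e1 := hp.odd j hj (by omega) hev
        linarith

theorem tc4_dE {p : Prm 10} {τ : ℝ} (hp : p.Ok τ) (hτ : τ ≤ 1 / 200) {X : ℕ} (hX : 1 ≤ (X : ℝ))
    (hc : 1 ≤ p.c1 * (X : ℝ) ^ (1 / 200 : ℝ)) {u : Vec 10} (h : GP p X u) {i : ℕ}
    (h2 : 2 ≤ i) (h9 : i ≤ 9) : (dE u i : ℝ) ≤ (X : ℝ) ^ (1 / 50 : ℝ) := by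
  have e4 : dE u i = (dt (u ⟨i - 1, by omega⟩) (u ⟨i, by omega⟩)).natAbs := by
    unfold dE
    rw [dif_pos ⟨by omega, by omega⟩]
  have n1 := tc4_nm hp hτ hX hc h ⟨i - 1, by omega⟩ (by show 1 ≤ i - 1; omega)
    (by show i - 1 ≤ 9; omega)
  have n2 := tc4_nm hp hτ hX hc h ⟨i, by omega⟩ (by show 1 ≤ i; omega) (by show i ≤ 9; omega)
  have p1 := h.pos ⟨i - 1, by omega⟩ (by show 1 ≤ i - 1; omega) (by show i - 1 + 1 ≤ 10; omega)
  have p2 := h.pos ⟨i, by omega⟩ (by show 1 ≤ i; omega) (by show i + 1 ≤ 10; omega)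
  rw [e4]
  generalize u ⟨i - 1, by omega⟩ = v at n1 p1 ⊢
  generalize u ⟨i, by omega⟩ = w at n2 p2 ⊢
  have hab : ((dt v w).natAbs : ℤ) ≤ nm v * nm w := by
    rw [Int.natCast_natAbs, abs_le]
    simp only [dt, nm]
    have a1 := mul_pos p1.1 p2.1
    have a2 := mul_pos p1.1 p2.2
    have a3 := mul_pos p1.2 p2.1
    have a4 := mul_pos p1.2 p2.2
    constructor <;> nlinarith
  have hab' : ((dt v w).natAbs : ℝ) ≤ (nm v : ℝ) * (nm w : ℝ) := by
    rw [← Int.cast_natCast ((dt v w).natAbs), ← Int.cast_mul]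
    exact Int.cast_le.mpr hab
  refine hab'.trans ?_
  have hnw : (0 : ℝ) ≤ (nm w : ℝ) := by
    have : (0 : ℤ) ≤ nm w := by simp only [nm]; linarith [p2.1, p2.2]
    exact_mod_cast this
  calc (nm v : ℝ) * (nm w : ℝ) ≤ (X : ℝ) ^ (1 / 100 : ℝ) * (X : ℝ) ^ (1 / 100 : ℝ) :=
        mul_le_mul n1 n2 hnw (Real.rpow_nonneg (by linarith) _)
    _ = (X : ℝ) ^ (1 / 50 : ℝ) := by
        rw [← Real.rpow_add (by linarith)]
        norm_num

/-- block TC4: the interior weight from below -/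
theorem gD_lower_pr {p : Prm 10} {τ : ℝ} (hp : p.Ok τ) (hτ : τ ≤ 1 / 200) : ∃ X₀ : ℕ, ∀ X ≥ X₀,
    ∀ u : Vec 10, GP p X u →
      1 / 2 * ∏ i ∈ Icc 2 9, (fw (PP X) (1 / 4) (dE u i) / (dE u i : ℝ)) ≤ gD p X u := by
  obtain ⟨X₁, hX₁⟩ := tw_large 1 0 one_pos
  have t2 : Filter.Tendsto (fun X : ℕ => (X : ℝ) ^ (1 / 200 : ℝ)) Filter.atTop Filter.atTop :=
    (tendsto_rpow_atTop (by norm_num)).comp tendsto_natCast_atTop_atTop
  obtain ⟨X₂, hX₂⟩ := Filter.eventually_atTop.1 (t2.eventually_ge_atTop (1 / p.c1))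
  refine ⟨max X₁ (max X₂ 2), fun X hX u hu => ?_⟩
  have hXn : 2 ≤ X := le_trans (le_trans (le_max_right _ _) (le_max_right _ _)) hX
  have hX1 : (1 : ℝ) ≤ X := by exact_mod_cast (by omega : 1 ≤ X)
  have hc : 1 ≤ p.c1 * (X : ℝ) ^ (1 / 200 : ℝ) := by
    have := hX₂ X (le_trans (le_trans (le_max_left _ _) (le_max_right _ _)) hX)
    rw [div_le_iff₀ hp.c10] at this
    linarith
  obtain ⟨-, -, hl0, -, -, hlP, -, hl2⟩ := hX₁ X (le_trans (le_max_left _ _) hX) (X : ℝ)
    (by rw [Real.rpow_one]) le_rfl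
  have hl100 : 100 ≤ Real.log X := by
    by_contra hne
    push Not at hne
    nlinarith
  have hPP : 4 * Real.log X ≤ PP X := by
    refine le_trans ?_ hlP
    calc 4 * Real.log X ≤ Real.log X ^ 19 * Real.log X := by
          refine mul_le_mul_of_nonneg_right ?_ hl0.le
          calc (4 : ℝ) ≤ 100 ^ 19 := by norm_num
            _ ≤ Real.log X ^ 19 := pow_le_pow_left₀ (by norm_num) hl100 19
      _ = Real.log X ^ 20 := by ring
  have hPP0 : 0 < PP X := by linarith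
  have hdp : ∀ i ∈ Icc 2 9, DP (PP X) (dE u i) := by
    intro i hi
    rw [Finset.mem_Icc] at hi
    exact hu.dp i (by omega) (by omega)
  have hne : ∀ i ∈ Icc 2 9, dE u i ≠ 0 := fun i hi => (dp_pos (hdp i hi)).ne'
  have hcop : ∀ i ∈ Icc 2 9, ∀ j ∈ Icc 2 9, i ≠ j → Nat.Coprime (dE u i) (dE u j) := by
    intro i hi j hj hij
    rw [Finset.mem_Icc] at hi hj
    rcases Nat.lt_or_ge i j with h | h
    · exact hu.cop i j (by omega) h (by omega)
    · exact (hu.cop j i (by omega) (by omega) (by omega)).symm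
  have hDint : Dint u = ∏ i ∈ Icc 2 9, dE u i := rfl
  have hDne : Dint u ≠ 0 := by
    rw [hDint]
    exact Finset.prod_ne_zero_iff.mpr hne
  have hDle : (Dint u : ℝ) ≤ X := by
    rw [hDint, Nat.cast_prod]
    calc ∏ i ∈ Icc 2 9, (dE u i : ℝ) ≤ ∏ _i ∈ Icc 2 9, (X : ℝ) ^ (1 / 50 : ℝ) := by
          apply Finset.prod_le_prod (fun i _ => Nat.cast_nonneg _)
          intro i hi
          rw [Finset.mem_Icc] at hi
          exact tc4_dE hp hτ hX1 hc hu hi.1 hi.2
      _ = ((X : ℝ) ^ (1 / 50 : ℝ)) ^ 8 := by rw [Finset.prod_const]; rfl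
      _ = (X : ℝ) ^ (8 / 50 : ℝ) := by
          rw [← Real.rpow_natCast, ← Real.rpow_mul (Nat.cast_nonneg X)]
          norm_num
      _ ≤ (X : ℝ) ^ (1 : ℝ) := Real.rpow_le_rpow_of_exponent_le hX1 (by norm_num)
      _ = X := Real.rpow_one _
  have hprime : ∀ l ∈ (Dint u).primeFactors, PP X < (l : ℝ) := by
    intro l hl
    have hlp := Nat.prime_of_mem_primeFactors hl
    have hld := Nat.dvd_of_mem_primeFactors hl
    rw [hDint] at hld
    obtain ⟨i, hi, hli⟩ := (hlp.prime.dvd_finsetProd_iff _).mp hld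
    exact ((hdp i hi).2 l hlp hli).2
  have hom := tc4_omega hDne
  have hlog : Real.log (Dint u : ℝ) ≤ Real.log X :=
    Real.log_le_log (by exact_mod_cast Nat.pos_of_ne_zero hDne) hDle
  -- the sum of 1/(l+1)
  have hsum : ∑ l ∈ (Dint u).primeFactors, 1 / ((l : ℝ) + 1) ≤ 1 / 2 := by
    calc ∑ l ∈ (Dint u).primeFactors, 1 / ((l : ℝ) + 1)
        ≤ ∑ _l ∈ (Dint u).primeFactors, 1 / PP X := by
          apply Finset.sum_le_sum
          intro l hl
          exact one_div_le_one_div_of_le hPP0 (by linarith [hprime l hl])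
      _ = ((Dint u).primeFactors.card : ℝ) * (1 / PP X) := by
          rw [Finset.sum_const, nsmul_eq_mul]
      _ ≤ (2 * Real.log X) * (1 / PP X) :=
          mul_le_mul_of_nonneg_right (by linarith) (by positivity)
      _ = (2 * Real.log X) / PP X := by ring
      _ ≤ 1 / 2 := by
          rw [div_le_iff₀ hPP0]
          linarith
  have hmain := tc4_one_sub (Dint u).primeFactors (fun l => 1 / ((l : ℝ) + 1))
    (fun l _ => by positivity) (fun l _ => by
      rw [div_le_one (by positivity)]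
      linarith [(Nat.cast_nonneg l : (0 : ℝ) ≤ (l : ℝ))])
  have hhalf : (1 / 2 : ℝ) ≤ ∏ l ∈ (Dint u).primeFactors, (1 - 1 / ((l : ℝ) + 1)) := by
    have : (1 / 2 : ℝ) ≤ 1 - ∑ l ∈ (Dint u).primeFactors, 1 / ((l : ℝ) + 1) := by linarith
    exact this.trans hmain
  have hfw : ∏ i ∈ Icc 2 9, (fw (PP X) (1 / 4) (dE u i) / (dE u i : ℝ)) =
      ∏ l ∈ (Dint u).primeFactors, (1 / 2) / (l : ℝ) := by
    rw [hDint, tc4_prod (fun l => (1 / 2) / (l : ℝ)) (fun i => dE u i) (Icc 2 9) hcop hne]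
    exact Finset.prod_congr rfl (fun i hi => tc4_fw (hdp i hi))
  rw [hfw]
  have hnn : 0 ≤ ∏ l ∈ (Dint u).primeFactors, (1 / 2) / (l : ℝ) :=
    Finset.prod_nonneg (fun l _ => by positivity)
  calc 1 / 2 * ∏ l ∈ (Dint u).primeFactors, (1 / 2) / (l : ℝ)
      ≤ (∏ l ∈ (Dint u).primeFactors, (1 - 1 / ((l : ℝ) + 1))) *
          ∏ l ∈ (Dint u).primeFactors, (1 / 2) / (l : ℝ) :=
        mul_le_mul_of_nonneg_right hhalf hnn
    _ = ∏ l ∈ (Dint u).primeFactors, (2 / ((l : ℝ) + 1) * (1 / 4)) := by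
        rw [← Finset.prod_mul_distrib]
        apply Finset.prod_congr rfl
        intro l hl
        have hl0 : (0 : ℝ) < l := by
          exact_mod_cast (Nat.prime_of_mem_primeFactors hl).pos
        field_simp
        ring
    _ ≤ gD p X u := by
        unfold gD
        apply Finset.prod_le_prod
        · intro l _
          positivity
        · intro l _
          apply mul_le_mul_of_nonneg_left _ (by positivity)
          split_ifs <;> norm_num

alias gD_lower := gD_lower_pr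

end Pool.Agent.TPA
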