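import Pool.Agent.Lib_helper88.NCF.NA1
import Pool.Agent.Lib_helper15.TPF.Sum
import Pool.Agent.Lib_helper15.TPF.TA1
import Pool.Agent.Lib_helper15.TPF.TA2
import Pool.Agent.Lib_helper15.TPF.TA3
import Pool.Agent.Lib_helper15.TPF.TB4
import Pool.Agent.Lib_helper15.TPF.TC1
import Pool.Agent.Lib_helper15.TPF.TC2
import Pool.Agent.Lib_helper15.TPF.TC3
import Pool.Agent.Lib_helper15.TPF.TC4
import Pool.Agent.Lib_helper15.TPF.TC5

/-!
# MP_892e4c_nt (B*), (LB): the lower bound (helper15)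
-/

set_option autoImplicit false

namespace Pool.Agent.TPA

open Finset Filter Pool.Agent.PENT Pool.Agent.PATH.NC

theorem px_large : ∃ X₀ : ℕ, ∀ X ≥ X₀, PX X (PP X) ∧ 1 ≤ Real.log X := by
  obtain ⟨X₀, h⟩ := tw_large 1 1 one_pos
  have t1 : Tendsto (fun X : ℕ => Real.log (X : ℝ)) atTop atTop :=
    Real.tendsto_log_atTop.comp tendsto_natCast_atTop_atTop
  obtain ⟨X₁, h1⟩ := eventually_atTop.1 (t1.eventually_ge_atTop 1)
  refine ⟨max X₀ X₁, fun X hX => ?_⟩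
  have hl := h1 X (le_trans (le_max_right _ _) hX)
  obtain ⟨a1, a2, a3, a4, a5, a6, a7, a8⟩ :=
    h X (le_trans (le_max_left _ _) hX) (X : ℝ) (by rw [Real.rpow_one]) le_rfl
  refine ⟨⟨a6, ?_⟩, hl⟩
  rw [tw_log_PP]
  exact Real.rpow_le_rpow_of_exponent_le hl (by norm_num)

theorem pp_tendsto : Tendsto (fun X : ℕ => PP X) atTop atTop := by
  have t1 : Tendsto (fun X : ℕ => Real.log (X : ℝ)) atTop atTop :=
    Real.tendsto_log_atTop.comp tendsto_natCast_atTop_atTop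
  have t2 : Tendsto (fun X : ℕ => Real.log (X : ℝ) ^ (1 / 100 : ℝ)) atTop atTop :=
    (tendsto_rpow_atTop (by norm_num)).comp t1
  exact Real.tendsto_exp_atTop.comp t2

/-- the primes of the ends -/
theorem fac_primes {p : Prm 10} {τ : ℝ} (hg : GeoL τ p) {X : ℕ} (hX : PX X (PP X))
    (hl : 1 ≤ Real.log X) {f : ℕ × ℕ} (hf : f ∈ Fac p X) :
    (∀ l ∈ (f.1 * f.2).primeFactors, l.Prime) ∧
      (((f.1 * f.2).primeFactors.card : ℕ) : ℝ) ≤ 2 * Real.log X ∧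
      ∑ l ∈ (f.1 * f.2).primeFactors, 1 / (l : ℝ) ≤ 2 / Real.log X := by
  obtain ⟨f1, f2, f3⟩ := mem_Fac hf
  obtain ⟨h1, h2, h3, h4, h5, h6, h7, h8⟩ := geo_facts hg
  have hX1 : (1 : ℝ) ≤ X := by
    by_contra hne
    push Not at hne
    have : Real.log X ≤ 0 := Real.log_nonpos (Nat.cast_nonneg _) hne.le
    linarith
  have p1 := dp_pos f1.dp
  have p2 := dp_pos f2.dp
  have hpos : 0 < f.1 * f.2 := Nat.mul_pos p1 p2
  have hcard : (((f.1 * f.2).primeFactors.card : ℕ) : ℝ) ≤ 2 * Real.log X := by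
    refine (card_pf_le hpos).trans ?_
    have hle : ((f.1 * f.2 : ℕ) : ℝ) ≤ X := by
      push_cast
      have a1 : (f.1 : ℝ) ≤ (X : ℝ) ^ (1 / 2 : ℝ) :=
        f1.hi.trans (Real.rpow_le_rpow_of_exponent_le hX1 (by linarith))
      have a2 : (f.2 : ℝ) ≤ (X : ℝ) ^ (1 / 2 : ℝ) :=
        f2.hi.trans (Real.rpow_le_rpow_of_exponent_le hX1 (by linarith))
      calc (f.1 : ℝ) * f.2 ≤ (X : ℝ) ^ (1 / 2 : ℝ) * (X : ℝ) ^ (1 / 2 : ℝ) :=
            mul_le_mul a1 a2 (Nat.cast_nonneg _) (by positivity)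
        _ = X := by
            rw [← Real.rpow_add (by linarith)]; norm_num
    have := Real.log_le_log (by exact_mod_cast hpos) hle
    linarith
  refine ⟨fun l hl => (Nat.mem_primeFactors.1 hl).1, hcard, ?_⟩
  have hPl : Real.log X ^ 2 ≤ PP X := by
    refine le_trans ?_ hX.lo
    exact pow_le_pow_right₀ hl (by norm_num)
  have hPP : 0 < PP X := Real.exp_pos _
  have hbd : ∀ l ∈ (f.1 * f.2).primeFactors, 1 / (l : ℝ) ≤ 1 / PP X := by
    intro l hl'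
    obtain ⟨q1, q2, _⟩ := Nat.mem_primeFactors.1 hl'
    have : PP X < (l : ℝ) := by
      rcases (Nat.Prime.dvd_mul q1).1 q2 with h | h
      · exact (f1.dp.2 l q1 h).2
      · exact (f2.dp.2 l q1 h).2
    exact one_div_le_one_div_of_le hPP this.le
  calc ∑ l ∈ (f.1 * f.2).primeFactors, 1 / (l : ℝ) ≤
        ∑ _l ∈ (f.1 * f.2).primeFactors, 1 / PP X := Finset.sum_le_sum hbd
    _ = ((f.1 * f.2).primeFactors.card : ℝ) * (1 / PP X) := by
        rw [Finset.sum_const, nsmul_eq_mul]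
    _ ≤ (2 * Real.log X) * (1 / Real.log X ^ 2) := by
        apply mul_le_mul hcard _ (by positivity) (by linarith)
        exact one_div_le_one_div_of_le (by positivity) hPl
    _ = 2 / Real.log X := by field_simp

/-- the paths over a pair of end factors -/
theorem tpath : ∃ τ : ℝ, 0 < τ ∧ τ ≤ 1 / 200 ∧ ∀ p : Prm 10, GeoL τ p → ∃ (c : ℝ) (B : ℕ), 0 < c ∧ 3 ≤ B ∧
    ∀ P1 : ℕ, B ≤ P1 → ∃ X₀ : ℕ, ∀ X ≥ X₀, ∀ f ∈ Fac p X, ∀ q : ℤ × ℤ × ℤ,
    q.1 * q.2.2 - q.2.1 ^ 2 = 1 → ∃ G : Finset (Vec 10),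
      (∀ u ∈ G, GP p X u ∧ fE u = f ∧ ∀ j : Fin 11, ¬ Even j.val → NI P1 q (u j)) ∧
      c * Real.log P1 ^ (-35 : ℝ) * Real.log X ^ 7 * ell X (PP X) (1 / 4) ^ 8 ≤
        ∑ u ∈ G, ∏ i ∈ Icc 2 9, (fw (PP X) (1 / 4) (dE u i) / (dE u i : ℝ)) := by
  classical
  obtain ⟨τc, hτc, Hc⟩ := close_sum (α := 1 / 4) (by norm_num) (by norm_num)
  obtain ⟨τz, hτz, Hz⟩ := zq_of (α := 1 / 4) (by norm_num) (by norm_num)
  obtain ⟨ckp, hckp, Hkp⟩ := kp_lower
  obtain ⟨B₀, ct, hct, hB₀, Ht⟩ := tiny_sum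
  refine ⟨min τc (1 / 200), lt_min hτc (by norm_num), min_le_right _ _, fun p hg => ?_⟩
  set τ : ℝ := min τc (1 / 200) with hτ
  have hτ0 : 0 < τ := hg.τ0
  have hg' := hg
  obtain ⟨g1, g2, g3, g4, g5, g6, g7, g8⟩ := geo_facts hg
  obtain ⟨cA, hcA, Hc⟩ := Hc p.em g2
  obtain ⟨cB, hcB, XB, Hz⟩ := Hz p.em g2
  obtain ⟨cw, hcw, Xw, Hw⟩ := winP_card hg.ok
  obtain ⟨XD, HD⟩ := win_dat hg
  obtain ⟨XP, HP⟩ := px_large
  -- the constant `K`
  obtain ⟨K, hK⟩ : ∃ K : ℕ, ∀ l : Fin 7, 1 / 500 ≤ K * p.e ⟨l.val + 2, by omega⟩ := by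
    have : ∀ l : Fin 7, ∃ K : ℕ, 1 / 500 ≤ K * p.e ⟨l.val + 2, by omega⟩ := by
      intro l
      obtain ⟨K, hK⟩ := exists_nat_ge (1 / 500 / p.e ⟨l.val + 2, by omega⟩)
      refine ⟨K, ?_⟩
      rwa [div_le_iff₀ (g3 l)] at hK
    choose K hK using this
    refine ⟨∑ l, K l, fun l => (hK l).trans ?_⟩
    apply mul_le_mul_of_nonneg_right _ (g3 l).le
    exact_mod_cast Finset.single_le_sum (f := K) (fun i _ => Nat.zero_le _) (Finset.mem_univ l)
  refine ⟨cw * ct * (cA * ckp ^ 6) ^ 5 * cB ^ 3, B₀, by positivity, hB₀, fun P1 hP1 => ?_⟩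
  obtain ⟨η, A₀, hη, Ht⟩ := Ht P1 hP1 K
  obtain ⟨X₁, Hc⟩ := Hc P1 (hB₀.trans hP1)
  have t1 : Tendsto (fun X : ℕ => Real.log (X : ℝ)) atTop atTop :=
    Real.tendsto_log_atTop.comp tendsto_natCast_atTop_atTop
  have t3 : ∀ s : ℝ, 0 < s → Tendsto (fun X : ℕ => (X : ℝ) ^ s) atTop atTop :=
    fun s hs => (tendsto_rpow_atTop hs).comp tendsto_natCast_atTop_atTop
  have e1 := (t3 (1 / 500) (by norm_num)).eventually_ge_atTop 100
  have e2 : ∀ᶠ X : ℕ in atTop, ∀ l : Fin 7, A₀ ≤ (X : ℝ) ^ p.e ⟨l.val + 2, by omega⟩ :=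
    eventually_all.2 (fun l => (t3 _ (g3 l)).eventually_ge_atTop A₀)
  have e3 := pp_tendsto.eventually_ge_atTop (P1 : ℝ)
  have e4 := t1.eventually_ge_atTop (2 / η)
  have e5 : ∀ᶠ X : ℕ in atTop, ∀ l : Fin 7,
      2 * Real.log X ≤ η * (X : ℝ) ^ p.e ⟨l.val + 2, by omega⟩ := by
    refine eventually_all.2 (fun l => ?_)
    have h1 := isLittleO_log_rpow_atTop (g3 l)
    have h2 := (h1.comp_tendsto (tendsto_natCast_atTop_atTop (R := ℝ))).def
      (show 0 < η / 2 by positivity)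
    filter_upwards [h2, eventually_ge_atTop 1] with X hX hX1
    simp only [Function.comp] at hX
    have hXp : (1 : ℝ) ≤ X := by exact_mod_cast hX1
    rw [Real.norm_of_nonneg (Real.log_nonneg hXp),
      Real.norm_of_nonneg (Real.rpow_nonneg (by linarith) _)] at hX
    linarith
  obtain ⟨XE, HE⟩ := eventually_atTop.1 (e1.and (e2.and (e3.and (e4.and e5))))
  refine ⟨max XE (max XP (max XD (max Xw (max X₁ (max XB 1))))), fun X hX f hf q hq => ?_⟩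
  simp only [ge_iff_le, max_le_iff] at hX
  obtain ⟨hXE, hXP, hXD, hXw, hX₁, hXB, hX1⟩ := hX
  obtain ⟨a1, a2, a3, a4, a5⟩ := HE X hXE
  obtain ⟨hPX, hlog⟩ := HP X hXP
  obtain ⟨I, hI, hIc⟩ := Hw X hXw
  obtain ⟨s1, s2, s3⟩ := fac_primes hg hPX hlog hf
  have hX1' : (1 : ℝ) ≤ X := by exact_mod_cast hX1
  have hell : 0 < ell X (PP X) (1 / 4) := by
    unfold ell
    have hPP1 : 0 < Real.log (PP X) := by
      rw [tw_log_PP]; exact Real.rpow_pos_of_pos (by linarith) _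
    exact mul_pos (Real.rpow_pos_of_pos hPP1 _) (Real.rpow_pos_of_pos (by linarith) _)
  have hlP1 : 0 < Real.log P1 := Real.log_pos (by
    exact_mod_cast (by omega : 1 < P1))
  have hkp : 0 < ckp / Real.log P1 := by positivity
  have hkp0 : ckp / Real.log P1 ≤ kp P1 := Hkp P1 (by omega)
  set ℓ : ℝ := ell X (PP X) (1 / 4) with hℓ
  set c : ℝ := cA * kp P1 ^ 6 * ℓ with hc
  set c' : ℝ := cB * ℓ with hc'
  have hkpp : 0 < kp P1 := lt_of_lt_of_le hkp hkp0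
  have hc0 : 0 ≤ c := by positivity
  have hc0' : 0 ≤ c' := by positivity
  set S : Finset ℕ := (f.1 * f.2).primeFactors with hS
  -- the tiny vectors
  have hA : ∀ ι ∈ I, ∀ i, ∀ _h1 : 1 ≤ i, ∀ _h4 : i ≤ 4,
      (X : ℝ) ^ p.e ⟨2 * i - 2 + 2, by omega⟩ ≤ sA ι i ∧
      sA ι i ≤ (X : ℝ) ^ (1 / 500 : ℝ) := by
    intro ι hι i h1 h4
    have e : sA ι i = 2 ^ ι ⟨2 * i - 2, by omega⟩ := sA_eq ι h1 h4
    have hb := ex_bd hX1 (hI ι hι) g4 (2 * i - 2)
    have e' : ex ι (2 * i - 2) = ι ⟨2 * i - 2, by omega⟩ := by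
      unfold ex; rw [dif_pos (by omega)]
    rw [e'] at hb
    rw [e]
    exact ⟨(hI ι hι ⟨2 * i - 2, by omega⟩).1, hb.2⟩
  have hT : ∀ ι ∈ I, ct * Real.log P1 ^ (-5 : ℝ) ≤ ∑ z ∈ TinF P1 S (sA ι),
      ∏ b ∈ range 5, (((De (vx z) b).natAbs.totient : ℝ) / (De (vx z) b : ℝ) ^ 2) := by
    intro ι hι
    refine Ht (sA ι) ?_ ?_ S s1 ?_ ?_
    · intro i h1 h4
      exact (a2 ⟨2 * i - 2, by omega⟩).trans (hA ι hι i h1 h4).1
    · intro i j h1 h4 h1' h4'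
      refine (hA ι hι i h1 h4).2.trans ?_
      have hj := (hA ι hι j h1' h4').1
      have hpw : ((X : ℝ) ^ p.e ⟨2 * j - 2 + 2, by omega⟩) ^ K ≤ sA ι j ^ K :=
        pow_le_pow_left₀ (Real.rpow_nonneg (by linarith) _) hj K
      refine le_trans ?_ hpw
      rw [← Real.rpow_natCast, ← Real.rpow_mul (by linarith)]
      apply Real.rpow_le_rpow_of_exponent_le hX1'
      have := hK ⟨2 * j - 2, by omega⟩
      rw [mul_comm]; exact this
    · refine s3.trans ?_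
      rw [div_le_iff₀ (by linarith)]
      rw [div_le_iff₀ hη] at a4
      linarith
    · intro i h1 h4
      refine s2.trans ((a5 ⟨2 * i - 2, by omega⟩).trans ?_)
      exact mul_le_mul_of_nonneg_left (hA ι hι i h1 h4).1 hη.le
  -- the index set
  let Sg : Finset ((_ : Fin 7 → ℕ) × (_ : Fin 4 → ℤ × ℤ) × (ℕ → ℕ)) :=
    I.sigma (fun ι => (TinF P1 S (sA ι)).sigma (fun z => TT (dat X P1 q f ι z).SS 10))
  have hmem : ∀ s ∈ Sg, s.1 ∈ I ∧ s.2.1 ∈ TinF P1 S (sA s.1) ∧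
      s.2.2 ∈ TT (dat X P1 q f s.1 s.2.1).SS 10 := by
    intro s hs
    simp only [Sg, Finset.mem_sigma] at hs
    exact ⟨hs.1, hs.2.1, hs.2.2⟩
  have hyp : ∀ s ∈ Sg, (dat X P1 q f s.1 s.2.1).Hyp := fun s hs =>
    hyp_dat a3 hf (hmem s hs).2.1
  have hgp : ∀ s ∈ Sg, GP p X ((dat X P1 q f s.1 s.2.1).path s.2.2) ∧
      fE ((dat X P1 q f s.1 s.2.1).path s.2.2) = f ∧
      (∀ i, 1 ≤ i → i ≤ 10 → dE ((dat X P1 q f s.1 s.2.1).path s.2.2) i = s.2.2 (i - 1)) ∧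
      ∀ j : Fin 11, ¬ Even j.val → NI P1 q ((dat X P1 q f s.1 s.2.1).path s.2.2 j) := by
    intro s hs
    obtain ⟨m1, m2, m3⟩ := hmem s hs
    have hX2 : 2 ≤ X := by
      by_contra hne
      have h1 : X = 1 := by omega
      rw [h1, Nat.cast_one, Real.log_one] at hlog
      linarith
    exact path_gp hg.ok (le_trans (min_le_left _ _) (by norm_num)) hX2 hf (hI _ m1) (hyp s hs)
      (TT_SS_mem le_rfl m3)
  have hinj : Set.InjOn (fun s : (_ : Fin 7 → ℕ) × (_ : Fin 4 → ℤ × ℤ) × (ℕ → ℕ) =>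
      (dat X P1 q f s.1 s.2.1).path s.2.2) (Sg : Set _) := by
    intro s hs s' hs' he
    obtain ⟨m1, m2, m3⟩ := hmem s hs
    obtain ⟨m1', m2', m3'⟩ := hmem s' hs'
    obtain ⟨r1, r2, r3⟩ := path_inj (hyp s hs) (hyp s' hs') (TT_SS_mem le_rfl m3)
      (TT_SS_mem le_rfl m3') (TT_zero_of_le m3) (TT_zero_of_le m3') he
    obtain ⟨x1, x2, x3⟩ := s
    obtain ⟨y1, y2, y3⟩ := s'
    simp only at r1 r2 r3
    subst r1; subst r2; subst r3
    rfl
  refine ⟨Sg.image (fun s => (dat X P1 q f s.1 s.2.1).path s.2.2), ?_, ?_⟩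
  · intro u hu
    obtain ⟨s, hs, rfl⟩ := Finset.mem_image.1 hu
    obtain ⟨h1, h2, h3, h4⟩ := hgp s hs
    exact ⟨h1, h2, h4⟩
  rw [Finset.sum_image hinj]
  have hrw : ∀ s ∈ Sg, ∏ i ∈ Icc 2 9, (fw (PP X) (1 / 4)
      (dE ((dat X P1 q f s.1 s.2.1).path s.2.2) i) /
        (dE ((dat X P1 q f s.1 s.2.1).path s.2.2) i : ℝ)) =
      ∏ j ∈ range 10, wt (PP X) (1 / 4) j s.2.2 (s.2.2 j) := by
    intro s hs
    obtain ⟨h1, h2, h3, h4⟩ := hgp s hs
    have e1 : ∏ i ∈ Icc 2 9, (fw (PP X) (1 / 4)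
      (dE ((dat X P1 q f s.1 s.2.1).path s.2.2) i) /
        (dE ((dat X P1 q f s.1 s.2.1).path s.2.2) i : ℝ)) =
        ∏ i ∈ Icc 2 9, (fw (PP X) (1 / 4) (s.2.2 (i - 1)) / (s.2.2 (i - 1) : ℝ)) := by
      apply Finset.prod_congr rfl
      intro i hi
      rw [Finset.mem_Icc] at hi
      rw [h3 i (by omega) (by omega)]
    rw [e1]
    have e2 : Icc 2 9 = (range 8).image (fun i => i + 2) := by decide
    rw [e2, Finset.prod_image (fun a _ b _ h => by simpa using h)]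
    conv_rhs => rw [Finset.prod_range_succ, Finset.prod_range_succ']
    have w0 : wt (PP X) (1 / 4) 0 s.2.2 (s.2.2 0) = 1 := by
      unfold wt; rw [if_pos (Or.inl rfl)]
    have w9 : wt (PP X) (1 / 4) 9 s.2.2 (s.2.2 9) = 1 := by
      unfold wt; rw [if_pos (Or.inr rfl)]
    rw [w0, w9, mul_one, mul_one]
    apply Finset.prod_congr rfl
    intro j hj
    rw [Finset.mem_range] at hj
    unfold wt
    rw [if_neg (by omega)]
    rfl
  rw [Finset.sum_congr rfl hrw]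
  simp only [Sg, Finset.sum_sigma]
  -- the nested sum
  have hnest : ∀ ι ∈ I, ∀ z ∈ TinF P1 S (sA ι),
      c ^ 5 * c' ^ 3 * ∏ b ∈ range 5, (((De (vx z) b).natAbs.totient : ℝ) /
        (De (vx z) b : ℝ) ^ 2) ≤
      ∑ t ∈ TT (dat X P1 q f ι z).SS 10, ∏ j ∈ range 10, wt (PP X) (1 / 4) j t (t j) := by
    intro ι hι z hz
    have hy : (dat X P1 q f ι z).Hyp := hyp_dat a3 hf hz
    have hsz := siz_dat hg hX1 a1 hf (hI ι hι) z (P1 := P1) (q := q)
    obtain ⟨w1, w2⟩ := HD X hXD P1 q f hf ι (hI ι hι) z hy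
    refine nest (D := dat X P1 q f ι z) hy hsz hPX (α := 1 / 4) (c := c) (c' := c') (δ := p.em)
      (τ := τ) (by norm_num) hc0 hc0' ?_ ?_ w1 w2
    · intro W Δ r₀ F v w s h1 h2 h3 h4 h5 h6 h7 h8 h9 h10 G hG
      have h5' : (Δ : ℝ) ≤ (X : ℝ) ^ (p.em * τc) := by
        refine h5.trans (Real.rpow_le_rpow_of_exponent_le hX1' ?_)
        exact mul_le_mul_of_nonneg_left (min_le_left _ _) g2.le
      refine (Hc X hX₁ (PP X) hPX W Δ r₀ F q v w s hq h1 h2 h3 h4 h5' h6 h7 h8 h9 h10).trans ?_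
      apply Finset.sum_le_sum_of_subset_of_nonneg
      · intro n hn
        rw [Finset.mem_filter] at hn
        exact hG n hn.1 hn.2
      · intro n _ _
        exact div_nonneg (fw_nonneg' (by norm_num) n) (Nat.cast_nonneg n)
    · intro W F h1 h2 h3 h4
      have := Hz X hXB (PP X) hPX W 1 0 F h1 h2 odd_one
        (by rw [Nat.cast_one]; exact Real.one_le_rpow hX1' (by positivity))
        (by rw [Nat.cast_one]; exact isCoprime_one_right)
        (fun a ha => ⟨(h3 a ha).1, (h3 a ha).2, fun hd =>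
          (h3 a ha).1.one_lt.ne' (Nat.dvd_one.1 hd)⟩) h4
      have e : cB * ℓ = cB * ell X (PP X) (1 / 4) * (((1 : ℕ).totient : ℝ) / ((1 : ℕ) : ℝ) ^ 2) := by
        simp [hℓ]
      rw [hc', e]
      exact this
  calc cw * ct * (cA * ckp ^ 6) ^ 5 * cB ^ 3 * Real.log P1 ^ (-35 : ℝ) * Real.log X ^ 7 * ℓ ^ 8
      = (cw * Real.log X ^ 7) * ((cA * (ckp / Real.log P1) ^ 6 * ℓ) ^ 5 * (cB * ℓ) ^ 3 *
          (ct * Real.log P1 ^ (-5 : ℝ))) := by
        have e : Real.log P1 ^ (-35 : ℝ) = (1 / Real.log P1) ^ 30 * Real.log P1 ^ (-5 : ℝ) := by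
          rw [one_div, inv_pow, ← Real.rpow_natCast, ← Real.rpow_neg hlP1.le,
            ← Real.rpow_add hlP1]
          norm_num
        rw [e]
        ring
    _ ≤ (I.card : ℝ) * (c ^ 5 * c' ^ 3 * (ct * Real.log P1 ^ (-5 : ℝ))) := by
        apply mul_le_mul hIc _ (by positivity) (Nat.cast_nonneg _)
        apply mul_le_mul_of_nonneg_right _ (by positivity)
        apply mul_le_mul_of_nonneg_right _ (by positivity)
        apply pow_le_pow_left₀ (by positivity)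
        apply mul_le_mul_of_nonneg_right _ hell.le
        apply mul_le_mul_of_nonneg_left _ hcA.le
        exact pow_le_pow_left₀ hkp.le hkp0 6
    _ = ∑ _ι ∈ I, c ^ 5 * c' ^ 3 * (ct * Real.log P1 ^ (-5 : ℝ)) := by
        rw [Finset.sum_const, nsmul_eq_mul]
    _ ≤ ∑ ι ∈ I, ∑ z ∈ TinF P1 S (sA ι), c ^ 5 * c' ^ 3 *
          ∏ b ∈ range 5, (((De (vx z) b).natAbs.totient : ℝ) / (De (vx z) b : ℝ) ^ 2) := by
        apply Finset.sum_le_sum
        intro ι hι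
        rw [← Finset.mul_sum]
        exact mul_le_mul_of_nonneg_left (hT ι hι) (by positivity)
    _ ≤ _ := Finset.sum_le_sum (fun ι hι => Finset.sum_le_sum (fun z hz => hnest ι hι z hz))

theorem wyV_nonneg (P Y : ℝ) (j l : ℕ) : 0 ≤ wyV 10 P Y j l := by
  unfold wyV boV beV
  split_ifs <;> norm_num

theorem Iv_nonneg (p : Prm 10) (X : ℕ) (u : Vec 10) (l : ℕ) (q : ℤ × ℤ × ℤ) :
    0 ≤ Iv p X u l q := by
  unfold Iv PW
  apply Finset.prod_nonneg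
  intro i _
  split_ifs
  · exact wyV_nonneg _ _ _ _
  · exact zero_le_one

theorem gD_nonneg (p : Prm 10) (X : ℕ) (u : Vec 10) : 0 ≤ gD p X u := by
  unfold gD
  apply Finset.prod_nonneg
  intro l _
  split_ifs <;> positivity

theorem gS_nonneg (p : Prm 10) (X P00 : ℕ) (u : Vec 10) : 0 ≤ gS p X P00 u := by
  unfold gS
  apply Finset.prod_nonneg
  intro l _
  unfold EQ.MV
  exact div_nonneg (Finset.sum_nonneg (fun v _ => Iv_nonneg p X u l v)) (Nat.cast_nonneg _)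

theorem gk_nonneg (p : Prm 10) (X P00 : ℕ) (q : ℤ × ℤ × ℤ) (u : Vec 10) :
    0 ≤ gk p X P00 q u := by
  unfold gk
  apply mul_nonneg _ (mul_nonneg (gD_nonneg p X u) (gS_nonneg p X P00 u))
  unfold okf
  split_ifs
  · exact zero_le_one
  · exact le_rfl

/-- **(LB)** -/
theorem LB_all : ∃ τ₀ : ℝ, 0 < τ₀ ∧ ∀ p : Prm 10, p.Ok τ₀ → LB p := by
  classical
  obtain ⟨τ, hτ, hτ1, H⟩ := tpath
  refine ⟨min (1 / 1000) (τ / 10), lt_min (by norm_num) (by positivity), fun p hok => ?_⟩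
  have hg : GeoL τ p := ⟨hτ, hτ1, hok⟩
  obtain ⟨c₁, B, hc₁, hB, H⟩ := H p hg
  have hσ : min (1 / 1000 : ℝ) (τ / 10) ≤ 1 / 200 := (min_le_left _ _).trans (by norm_num)
  obtain ⟨c₂, B₂, hc₂, H2⟩ := gS_lower hok hσ
  obtain ⟨XG, HG⟩ := gD_lower hok hσ
  obtain ⟨XP, HP⟩ := px_large
  set M : ℕ := max B B₂ with hM
  have hM3 : 3 ≤ M := hB.trans (le_max_left _ _)
  have hlog3 : (1 : ℝ) < Real.log 3 := by
    rw [Real.lt_log_iff_exp_lt (by norm_num)]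
    have := Real.exp_one_lt_d9
    linarith
  have hlM : 1 < Real.log M := lt_of_lt_of_le hlog3
    (Real.log_le_log (by norm_num) (by exact_mod_cast hM3))
  refine ⟨1 / 2 * c₂ * c₁ * Real.log M ^ (-35 : ℝ), 35, by positivity, by norm_num,
    fun P00 hP00 => ?_⟩
  have hlP : 1 < Real.log P00 := lt_of_lt_of_le hlog3
    (Real.log_le_log (by norm_num) (by exact_mod_cast hP00))
  obtain ⟨X₁, H⟩ := H (max P00 M) ((le_max_left B B₂).trans (le_max_right _ _))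
  obtain ⟨X₂, H2⟩ := H2 P00 hP00
  refine ⟨max X₁ (max X₂ (max XG XP)), fun X hX f hf q hq => ?_⟩
  simp only [ge_iff_le, max_le_iff] at hX
  obtain ⟨hX₁, hX₂, hXG, hXP⟩ := hX
  obtain ⟨hPX, hlog⟩ := HP X hXP
  obtain ⟨G, hG, hGs⟩ := H X hX₁ f hf q hq
  have hc1 : 0 < p.c1 := hok.c10
  have hlX : 0 < Real.log X := by linarith
  have hsub : G ⊆ (GS p X).filter (fun u => fE u = f) := by
    intro u hu
    obtain ⟨h1, h2, h3⟩ := hG u hu
    exact Finset.mem_filter.2 ⟨(mem_GS hc1).2 h1, h2⟩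
  have hlow : ∑ u ∈ G, gk p X P00 q u ≤ Mp p X P00 q f := by
    unfold Mp
    exact Finset.sum_le_sum_of_subset_of_nonneg hsub (fun u _ _ => gk_nonneg p X P00 q u)
  refine le_trans ?_ hlow
  have hterm : ∀ u ∈ G, (1 / 2 * c₂ * Real.log X ^ (-(698 / 100) : ℝ)) *
      ∏ i ∈ Icc 2 9, (fw (PP X) (1 / 4) (dE u i) / (dE u i : ℝ)) ≤ gk p X P00 q u := by
    intro u hu
    obtain ⟨h1, h2, h3⟩ := hG u hu
    have ho : okf P00 u q = 1 := by
      unfold okf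
      rw [if_pos]
      intro l hl hl4 hlP00 j hj
      exact h3 j hj l hl hl4 (hlP00.trans (le_max_left _ _))
    have hs := H2 X hX₂ u h1 q hq (fun l hl hl4 hlB j hj =>
      h3 j hj l hl hl4 (hlB.trans ((le_max_right B B₂).trans (le_max_right P00 M))))
    have hd := HG X hXG u h1
    unfold gk
    rw [ho, one_mul]
    have hpr : 0 ≤ ∏ i ∈ Icc 2 9, (fw (PP X) (1 / 4) (dE u i) / (dE u i : ℝ)) :=
      Finset.prod_nonneg (fun i _ => div_nonneg (fw_nonneg' (by norm_num) _) (Nat.cast_nonneg _))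
    calc _ = (1 / 2 * ∏ i ∈ Icc 2 9, (fw (PP X) (1 / 4) (dE u i) / (dE u i : ℝ))) *
          (c₂ * Real.log X ^ (-(698 / 100) : ℝ)) := by ring
      _ ≤ _ := mul_le_mul hd hs (by positivity) (gD_nonneg p X u)
  refine le_trans ?_ (Finset.sum_le_sum hterm)
  rw [← Finset.mul_sum]
  have hc : 0 ≤ 1 / 2 * c₂ * Real.log X ^ (-(698 / 100) : ℝ) := by positivity
  refine le_trans ?_ (mul_le_mul_of_nonneg_left hGs hc)
  have hell : ell X (PP X) (1 / 4) ^ 8 = Real.log X ^ (-(602 / 100) : ℝ) := by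
    unfold ell
    rw [tw_log_PP, ← Real.rpow_mul hlX.le, ← Real.rpow_add hlX, ← Real.rpow_natCast,
      ← Real.rpow_mul hlX.le]
    norm_num
  have h7 : Real.log X ^ 7 = Real.log X ^ (7 : ℝ) := by
    rw [← Real.rpow_natCast]; norm_num
  have hmE : (-mE 10 : ℝ) = -(698 / 100) + (7 + -(602 / 100)) := by
    unfold mE; norm_num
  rw [hell, h7, hmE, Real.rpow_add hlX, Real.rpow_add hlX]
  have hlog1 : 0 < Real.log ((max P00 M : ℕ) : ℝ) :=
    Real.log_pos (by exact_mod_cast lt_of_lt_of_le (by omega : 1 < P00) (le_max_left _ _))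
  have hP1 : Real.log ((max P00 M : ℕ) : ℝ) ≤ Real.log P00 * Real.log M := by
    rcases le_total P00 M with h | h
    · rw [max_eq_right h]
      nlinarith
    · rw [max_eq_left h]
      nlinarith
  have hP2 : Real.log M ^ (-35 : ℝ) * Real.log P00 ^ (-35 : ℝ) ≤
      Real.log ((max P00 M : ℕ) : ℝ) ^ (-35 : ℝ) := by
    rw [← Real.mul_rpow (by linarith) (by linarith), mul_comm]
    exact Real.rpow_le_rpow_of_nonpos hlog1 hP1 (by norm_num)
  calc 1 / 2 * c₂ * c₁ * Real.log M ^ (-35 : ℝ) * Real.log P00 ^ (-35 : ℝ) *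
        (Real.log X ^ (-(698 / 100) : ℝ) * (Real.log X ^ (7 : ℝ) *
          Real.log X ^ (-(602 / 100) : ℝ)))
      = (Real.log M ^ (-35 : ℝ) * Real.log P00 ^ (-35 : ℝ)) * (1 / 2 * c₂ * c₁ *
        (Real.log X ^ (-(698 / 100) : ℝ) * (Real.log X ^ (7 : ℝ) *
          Real.log X ^ (-(602 / 100) : ℝ)))) := by ring
    _ ≤ Real.log ((max P00 M : ℕ) : ℝ) ^ (-35 : ℝ) * (1 / 2 * c₂ * c₁ *
        (Real.log X ^ (-(698 / 100) : ℝ) * (Real.log X ^ (7 : ℝ) *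
          Real.log X ^ (-(602 / 100) : ℝ)))) := mul_le_mul_of_nonneg_right hP2 (by positivity)
    _ = _ := by ring

end Pool.Agent.TPA
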