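import Pool.Agent.Lib_helper15.TP.Facts
import Pool.Agent.Lib_helper15.TPF.Defs2

/-!
# MP_892e4c_nt (B*), (LB), block TA4: sizes (helper35)
-/

set_option autoImplicit false

namespace Pool.Agent.TPA

open Finset Pool.Agent.PENT Pool.Agent.PATH.NC

theorem ta4_pow {X : ℕ} (n : ℕ) (e : ℝ) (he : e = (n : ℝ) / 500) :
    ((X : ℝ) ^ (1 / 500 : ℝ)) ^ n = (X : ℝ) ^ e := by
  rw [← Real.rpow_natCast, ← Real.rpow_mul (Nat.cast_nonneg X), he]
  congr 1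
  ring

theorem ta4_na {z : ℤ} (h : 0 < z) : ((z.natAbs : ℕ) : ℝ) = (z : ℝ) := by
  rw [← Int.cast_natCast, Int.natAbs_of_nonneg h.le]

theorem ta4_ZZ {D : Dat} (h : D.Hyp) {X : ℕ} (hs : Siz D X) (b : ℕ) :
    D.ZZ b ≤ 10 / 7 * (X : ℝ) ^ (1 / 500 : ℝ) := by
  have hL := hs.big
  unfold Dat.ZZ
  split_ifs with h0 h4
  · have h1 := (h.De_bd (b := 0) (by norm_num)).1
    rw [h.a0] at h1
    have h2 := hs.d0
    have h3 := h.apos 1
    have h5 : 0 < 7 / 10 * (1 * D.A (0 + 1)) := by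
      have : (0 : ℝ) < D.A (0 + 1) := h.apos (0 + 1)
      positivity
    rw [div_le_iff₀ (lt_of_lt_of_le h5 h1)]
    have h6 : (D.d0 : ℝ) * D.A 1 ≤ (X : ℝ) ^ (1 / 500 : ℝ) * D.A 1 :=
      mul_le_mul_of_nonneg_right h2 h3.le
    refine h6.trans ?_
    have h7 : 10 / 7 * (X : ℝ) ^ (1 / 500 : ℝ) * (7 / 10 * (1 * D.A (0 + 1))) ≤
        10 / 7 * (X : ℝ) ^ (1 / 500 : ℝ) * (De D.v 0 : ℝ) :=
      mul_le_mul_of_nonneg_left h1 (by linarith)
    refine le_trans (le_of_eq ?_) h7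
    rw [show (0 : ℕ) + 1 = 1 from rfl]
    ring
  · have h1 := (h.De_bd (b := 4) (by norm_num)).1
    rw [show (4 : ℕ) + 1 = 5 from rfl, h.a5] at h1
    have h2 := hs.d9
    have h3 := h.apos 4
    have h5 : 0 < 7 / 10 * (D.A 4 * 1) := by positivity
    rw [div_le_iff₀ (lt_of_lt_of_le h5 h1)]
    have h6 : (D.d9 : ℝ) * D.A 4 ≤ (X : ℝ) ^ (1 / 500 : ℝ) * D.A 4 :=
      mul_le_mul_of_nonneg_right h2 h3.le
    refine h6.trans ?_
    have h7 : 10 / 7 * (X : ℝ) ^ (1 / 500 : ℝ) * (7 / 10 * (D.A 4 * 1)) ≤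
        10 / 7 * (X : ℝ) ^ (1 / 500 : ℝ) * (De D.v 4 : ℝ) :=
      mul_le_mul_of_nonneg_left h1 (by linarith)
    refine le_trans (le_of_eq ?_) h7
    ring
  · have := (hs.z b).2
    linarith

theorem ta4_win {D : Dat} (h : D.Hyp) {X : ℕ} (hs : Siz D X) {j : ℕ} (hj : j ≤ 9) :
    D.win j ≤ 25 * ((X : ℝ) ^ (1 / 500 : ℝ)) ^ 2 := by
  have hL := hs.big
  set L := (X : ℝ) ^ (1 / 500 : ℝ) with hLd
  have hb : j / 2 ≤ 4 := by omega
  have h1 := (h.De_bd hb).2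
  have hZ := ta4_ZZ h hs (j / 2)
  rw [← hLd] at hZ
  have hZ0 := h.ZZ_pos (j / 2)
  have hD : (0 : ℝ) < De D.v (j / 2) := by exact_mod_cast h.De_pos hb
  have hA := h.apos (j / 2)
  have hA' := h.apos (j / 2 + 1)
  have hAL := (hs.a (j / 2)).2
  have hAL' := (hs.a (j / 2 + 1)).2
  rw [← hLd] at hAL hAL'
  have key : ∀ x y : ℝ, 0 < x → 0 < y → x ≤ L → (De D.v (j / 2) : ℝ) ≤ 17 * (x * y) →
      De D.v (j / 2) * D.ZZ (j / 2) / y ≤ 25 * L ^ 2 := by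
    intro x y hx hy hxL hDe
    rw [div_le_iff₀ hy]
    have e1 : (De D.v (j / 2) : ℝ) * D.ZZ (j / 2) ≤ (17 * (x * y)) * (10 / 7 * L) :=
      mul_le_mul hDe hZ hZ0.le (by positivity)
    have e2 : x * (y * L) ≤ L * (y * L) :=
      mul_le_mul_of_nonneg_right hxL (by positivity)
    nlinarith [mul_pos hy (by positivity : (0 : ℝ) < L ^ 2)]
  unfold Dat.win
  split_ifs with hp
  · exact key _ _ hA hA' hAL h1
  · refine key _ _ hA' hA hAL' ?_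
    rw [mul_comm (D.A (j / 2 + 1))]
    exact h1

/-- block TA4 -/
theorem siz_t_pr {D : Dat} (h : D.Hyp) {X : ℕ} (hs : Siz D X) {m : ℕ} {t : ℕ → ℕ}
    (hp : Dat.PF D m t) : ∀ j < m, j ≤ 9 → (t j : ℝ) ≤ (X : ℝ) ^ (1 / 100 : ℝ) := by
  intro j hj h9
  have h1 := (hp.win j hj).2
  have h2 := ta4_win h hs h9
  have hL := hs.big
  rw [← ta4_pow 5 (1 / 100) (by norm_num)]
  set L := (X : ℝ) ^ (1 / 500 : ℝ) with hLd
  have e1 : 26 * L ^ 2 ≤ L ^ 5 := by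
    have e2 : (26 : ℝ) ≤ L ^ 3 := by
      have : (100 : ℝ) ^ 3 ≤ L ^ 3 := pow_le_pow_left₀ (by norm_num) hL 3
      linarith [this, (by norm_num : (26 : ℝ) ≤ 100 ^ 3)]
    calc 26 * L ^ 2 ≤ L ^ 3 * L ^ 2 := mul_le_mul_of_nonneg_right e2 (by positivity)
      _ = L ^ 5 := by ring
  nlinarith [sq_nonneg L]

/-- block TA4 -/
theorem siz_win_pr {D : Dat} (h : D.Hyp) {X : ℕ} (hs : Siz D X) {j : ℕ} (hj : j ≤ 9) :
    D.win j ≤ (X : ℝ) ^ (1 / 100 : ℝ) := by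
  have h2 := ta4_win h hs hj
  have hL := hs.big
  rw [← ta4_pow 5 (1 / 100) (by norm_num)]
  set L := (X : ℝ) ^ (1 / 500 : ℝ) with hLd
  have e1 : 25 * L ^ 2 ≤ L ^ 5 := by
    have e2 : (25 : ℝ) ≤ L ^ 3 := by
      have : (100 : ℝ) ^ 3 ≤ L ^ 3 := pow_le_pow_left₀ (by norm_num) hL 3
      linarith [this, (by norm_num : (25 : ℝ) ≤ 100 ^ 3)]
    calc 25 * L ^ 2 ≤ L ^ 3 * L ^ 2 := mul_le_mul_of_nonneg_right e2 (by positivity)
      _ = L ^ 5 := by ring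
  linarith

theorem ta4_t3 {D : Dat} (h : D.Hyp) {X : ℕ} (hs : Siz D X) {m : ℕ} {t : ℕ → ℕ}
    (hp : Dat.PF D m t) {j : ℕ} (hj : j < m) (h9 : j ≤ 9) :
    (t j : ℝ) ≤ ((X : ℝ) ^ (1 / 500 : ℝ)) ^ 3 := by
  have h1 := (hp.win j hj).2
  have h2 := ta4_win h hs h9
  have hL := hs.big
  set L := (X : ℝ) ^ (1 / 500 : ℝ) with hLd
  have e1 : 26 * L ^ 2 ≤ L ^ 3 := by
    calc 26 * L ^ 2 ≤ L * L ^ 2 := mul_le_mul_of_nonneg_right (by linarith) (by positivity)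
      _ = L ^ 3 := by ring
  nlinarith [sq_nonneg L]

theorem ta4_vv {D : Dat} (h : D.Hyp) {X : ℕ} (hs : Siz D X) {a b : ℕ} (hab : a < b)
    (hb : b ≤ 5) : 0 < (dt (D.v a) (D.v b)).natAbs ∧
      ((dt (D.v a) (D.v b)).natAbs : ℝ) ≤ ((X : ℝ) ^ (1 / 500 : ℝ)) ^ 3 := by
  obtain ⟨-, h2, h3⟩ := h.dtv hab hb
  have hL := hs.big
  set L := (X : ℝ) ^ (1 / 500 : ℝ) with hLd
  refine ⟨Int.natAbs_pos.mpr h3.ne', ?_⟩
  rw [ta4_na h3]
  refine h2.trans ?_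
  have a1 := (hs.a a).2
  have a2 := (hs.a b).2
  rw [← hLd] at a1 a2
  have p : D.A a * D.A b ≤ L * L := mul_le_mul a1 a2 (h.apos b).le (by linarith)
  calc 17 * (D.A a * D.A b) ≤ L * (L * L) := by
        refine mul_le_mul (by linarith) p (mul_pos (h.apos a) (h.apos b)).le (by linarith)
    _ = L ^ 3 := by ring

theorem ta4_vp {D : Dat} (h : D.Hyp) {X : ℕ} (hs : Siz D X) {j : ℕ} (hj : j ≤ 8) {t : ℕ → ℕ}
    (hp : Dat.PF D j t) {a b : ℕ} (ha : a ≤ 5) (hb : b < j / 2) :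
    0 < (dt (D.v a) (D.pv t (2 * b + 1))).natAbs ∧
      ((dt (D.v a) (D.pv t (2 * b + 1))).natAbs : ℝ) ≤ ((X : ℝ) ^ (1 / 500 : ℝ)) ^ 3 := by
  have hL := hs.big
  have hZ := ta4_ZZ h hs b
  have hZ0 := h.ZZ_pos b
  have a1 := (hs.a a).2
  have a0 := h.apos a
  set L := (X : ℝ) ^ (1 / 500 : ℝ) with hLd
  have s1 : D.sc (2 * a) = D.A a := by
    unfold Dat.sc; rw [if_pos (by omega), Nat.mul_div_cancel_left _ (by norm_num)]
  have s2 : D.sc (2 * b + 1) = D.ZZ b := by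
    unfold Dat.sc; rw [if_neg (by omega), show (2 * b + 1) / 2 = b by omega]
  have e0 : D.pv t (2 * a) = D.v a := Dat.pv_even t a
  have hbnd : 60 * (D.A a * D.ZZ b) ≤ L ^ 3 := by
    have p : D.A a * D.ZZ b ≤ L * (10 / 7 * L) := mul_le_mul a1 hZ hZ0.le (by linarith)
    calc 60 * (D.A a * D.ZZ b) ≤ 60 * (L * (10 / 7 * L)) :=
          mul_le_mul_of_nonneg_left p (by norm_num)
      _ = (600 / 7) * (L * L) := by ring
      _ ≤ L * (L * L) := mul_le_mul_of_nonneg_right (by linarith) (by positivity)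
      _ = L ^ 3 := by ring
  rcases Nat.lt_or_ge (2 * a) (2 * b + 1) with hlt | hge
  · obtain ⟨-, h2, h3⟩ := hp.dts h hlt (by omega) (by omega) (by omega)
    rw [e0, s1, s2] at h2
    rw [e0] at h3
    refine ⟨Int.natAbs_pos.mpr h3.ne', ?_⟩
    rw [ta4_na h3]
    exact h2.trans hbnd
  · obtain ⟨-, h2, h3⟩ := hp.dts h (l := 2 * b + 1) (l' := 2 * a) (by omega) (by omega)
      (by omega) (by omega)
    rw [e0, s1, s2] at h2
    rw [e0] at h3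
    have hsw : dt (D.v a) (D.pv t (2 * b + 1)) = - dt (D.pv t (2 * b + 1)) (D.v a) := by
      simp only [dt]; ring
    rw [hsw, Int.natAbs_neg]
    refine ⟨Int.natAbs_pos.mpr h3.ne', ?_⟩
    rw [ta4_na h3]
    refine h2.trans ?_
    rw [mul_comm (D.ZZ b)]
    exact hbnd

theorem ta4_prod {n : ℕ} {f : ℕ → ℕ} {M : ℝ} (h0 : ∀ i < n, 0 < f i)
    (hM : ∀ i < n, (f i : ℝ) ≤ M) :
    0 < ∏ i ∈ range n, f i ∧ ((∏ i ∈ range n, f i : ℕ) : ℝ) ≤ M ^ n := by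
  refine ⟨Finset.prod_pos fun i hi => h0 i (Finset.mem_range.mp hi), ?_⟩
  rw [Nat.cast_prod]
  calc ∏ i ∈ range n, (f i : ℝ) ≤ ∏ _i ∈ range n, M :=
        Finset.prod_le_prod (fun i _ => Nat.cast_nonneg _)
          (fun i hi => hM i (Finset.mem_range.mp hi))
    _ = M ^ n := by rw [Finset.prod_const, Finset.card_range]

/-- block TA4 -/
theorem siz_MM_pr {D : Dat} (h : D.Hyp) {X : ℕ} (hs : Siz D X) {j : ℕ} (hj : j ≤ 8) {t : ℕ → ℕ}
    (hp : Dat.PF D j t) : 0 < D.MM j t ∧ (D.MM j t : ℝ) ≤ (X : ℝ) ^ (1 / 2 : ℝ) := by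
  have hL := hs.big
  have hd9 := hs.d9
  have hvv := fun a b (hab : a < b) (hb : b ≤ 5) => ta4_vv h hs hab hb
  have hvp := fun a b (ha : a ≤ 5) (hb : b < j / 2) => ta4_vp h hs hj hp ha hb
  have htt := fun l (hl : l < j) => ta4_t3 h hs hp hl (by omega)
  rw [← ta4_pow 250 (1 / 2) (by norm_num)]
  set L := (X : ℝ) ^ (1 / 500 : ℝ) with hLd
  have hL1 : 1 ≤ L := by linarith
  have hL3 : 1 ≤ L ^ 3 := one_le_pow₀ hL1
  -- the first factor
  have f1 : 0 < ∏ a ∈ range 6, ∏ b ∈ range 6, (if a < b then (dt (D.v a) (D.v b)).natAbs else 1) ∧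
      ((∏ a ∈ range 6, ∏ b ∈ range 6, (if a < b then (dt (D.v a) (D.v b)).natAbs else 1) : ℕ) : ℝ)
        ≤ ((L ^ 3) ^ 6) ^ 6 := by
    apply ta4_prod
    · intro a ha
      refine (ta4_prod (M := L ^ 3) ?_ ?_).1
      · intro b hb
        split_ifs with hab
        · exact (hvv a b hab (by omega)).1
        · exact one_pos
      · intro b hb
        split_ifs with hab
        · exact (hvv a b hab (by omega)).2
        · simpa using hL3
    · intro a ha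
      refine (ta4_prod (M := L ^ 3) ?_ ?_).2
      · intro b hb
        split_ifs with hab
        · exact (hvv a b hab (by omega)).1
        · exact one_pos
      · intro b hb
        split_ifs with hab
        · exact (hvv a b hab (by omega)).2
        · simpa using hL3
  have f2 : 0 < ∏ l ∈ range j, t l ∧ ((∏ l ∈ range j, t l : ℕ) : ℝ) ≤ (L ^ 3) ^ j :=
    ta4_prod (fun l hl => hp.pos hl) htt
  have f4 : 0 < ∏ a ∈ range 6, ∏ b ∈ range (j / 2), (dt (D.v a) (D.pv t (2 * b + 1))).natAbs ∧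
      ((∏ a ∈ range 6, ∏ b ∈ range (j / 2), (dt (D.v a) (D.pv t (2 * b + 1))).natAbs : ℕ) : ℝ)
        ≤ ((L ^ 3) ^ (j / 2)) ^ 6 := by
    apply ta4_prod
    · intro a ha
      exact (ta4_prod (M := L ^ 3) (fun b hb => (hvp a b (by omega) hb).1)
        (fun b hb => (hvp a b (by omega) hb).2)).1
    · intro a ha
      exact (ta4_prod (M := L ^ 3) (fun b hb => (hvp a b (by omega) hb).1)
        (fun b hb => (hvp a b (by omega) hb).2)).2
  have f2' : ((∏ l ∈ range j, t l : ℕ) : ℝ) ≤ L ^ 24 := by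
    refine f2.2.trans ?_
    calc (L ^ 3) ^ j ≤ (L ^ 3) ^ 8 := pow_le_pow_right₀ hL3 hj
      _ = L ^ 24 := by rw [← pow_mul]
  have f4' : ((∏ a ∈ range 6, ∏ b ∈ range (j / 2),
      (dt (D.v a) (D.pv t (2 * b + 1))).natAbs : ℕ) : ℝ) ≤ L ^ 72 := by
    refine f4.2.trans ?_
    calc ((L ^ 3) ^ (j / 2)) ^ 6 ≤ ((L ^ 3) ^ 4) ^ 6 :=
          pow_le_pow_left₀ (by positivity) (pow_le_pow_right₀ hL3 (by omega)) 6
      _ = L ^ 72 := by rw [← pow_mul, ← pow_mul]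
  have f1' : ((∏ a ∈ range 6, ∏ b ∈ range 6,
      (if a < b then (dt (D.v a) (D.v b)).natAbs else 1) : ℕ) : ℝ) ≤ L ^ 108 := by
    refine f1.2.trans (le_of_eq ?_)
    rw [← pow_mul, ← pow_mul]
  unfold Dat.MM
  constructor
  · exact Nat.mul_pos (Nat.mul_pos (Nat.mul_pos f1.1 f2.1) h.d9_pos) f4.1
  · rw [Nat.cast_mul, Nat.cast_mul, Nat.cast_mul]
    calc ((∏ a ∈ range 6, ∏ b ∈ range 6,
          (if a < b then (dt (D.v a) (D.v b)).natAbs else 1) : ℕ) : ℝ) *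
          ((∏ l ∈ range j, t l : ℕ) : ℝ) * (D.d9 : ℝ) *
          ((∏ a ∈ range 6, ∏ b ∈ range (j / 2),
            (dt (D.v a) (D.pv t (2 * b + 1))).natAbs : ℕ) : ℝ)
        ≤ L ^ 108 * L ^ 24 * L * L ^ 72 := by
          refine mul_le_mul (mul_le_mul (mul_le_mul f1' f2' (Nat.cast_nonneg _) (by positivity))
            hd9 (Nat.cast_nonneg _) (by positivity)) f4' (Nat.cast_nonneg _) (by positivity)
      _ = L ^ 205 := by ring
      _ ≤ L ^ 250 := pow_le_pow_right₀ hL1 (by norm_num)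

alias siz_t := siz_t_pr

alias siz_win := siz_win_pr

alias siz_MM := siz_MM_pr

end Pool.Agent.TPA
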