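import Pool.Agent.Lib_helper15.TP.Facts
import Pool.Agent.Lib_helper15.TPF.Defs2
import Pool.Agent.Lib_helper15.TPF.TA4

/-! Block TA6 (uses TA4: `siz_t`, `siz_win`, `siz_MM`) -/

set_option autoImplicit false

namespace Pool.Agent.TPA

open Finset Pool.Agent.PENT Pool.Agent.PATH.NC

/-- block TA6 (uses TA4): the step `j = 8`; here `v := v 5`, `w := v 4`, `s = d9`
(`lc (v 4) (v 5) n d9 = lc (v 5) (v 4) d9 n`), `r₀` = inverse of `mu` modulo `Δ_4` times `d9`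
(`Int2 (v 4) (v 5) n d9 ↔ Δ_4 ∣ d9 - mu n`), `F = (Fz P (MM 8 t) ∪ ⋃_(l<7) Fr P (t l)
(dt (v (l+1)/2) (v 5)) (d9 * dt (v (l+1)/2) (v 4))).filter (¬ ·.1 ∣ Δ_4)` -/
theorem step_eight_pr {D : Dat} (h : D.Hyp) {X : ℕ} (hs : Siz D X) (hX : PX X D.P)
    {α c δ τ : ℝ}
    (hc : ∀ (W : ℝ) (Δ : ℕ) (r₀ : ℤ) (F : Finset (ℕ × ℤ)) (v w : ℤ × ℤ) (s : ℤ),
      (X : ℝ) ^ δ ≤ W → W ≤ X → (∀ p : ℕ, p.Prime → p ≤ D.P1 → ¬ p ∣ Δ) → 0 < Δ →
      (Δ : ℝ) ≤ (X : ℝ) ^ (δ * τ) → IsCoprime r₀ (Δ : ℤ) →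
      (∀ a ∈ F, a.1.Prime ∧ D.P < (a.1 : ℝ) ∧ ¬ a.1 ∣ Δ) → (F.card : ℝ) ≤ 100 * Real.log X →
      (∀ p : ℕ, p.Prime → p ≤ D.P1 → ¬ (p : ℤ) ∣ dt v w) →
      (∀ p : ℕ, p.Prime → p ≤ D.P1 → ¬ (p : ℤ) ∣ s) → ∀ G : Finset ℕ,
      (∀ n ∈ PD W D.P Δ r₀ F, NI D.P1 D.q (lc v w s n) → n ∈ G) →
      c * ((Δ.totient : ℝ) / (Δ : ℝ) ^ 2) ≤ ∑ n ∈ G, fw D.P α n / n)
    {t : ℕ → ℕ} (hp : Dat.PF D 8 t) (hw : (X : ℝ) ^ δ ≤ D.win 8)
    (hΔ : (De D.v 4 : ℝ) ≤ (X : ℝ) ^ (δ * τ)) :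
    c * (((De D.v 4).natAbs.totient : ℝ) / (De D.v 4 : ℝ) ^ 2) ≤
      ∑ n ∈ D.SS 8 t, fw D.P α n / n := by
  classical
  have hX1 : (1 : ℝ) < X := by
    have h1 := hs.big
    by_contra hne
    push Not at hne
    have h2 : (X : ℝ) ^ (1 / 500 : ℝ) ≤ 1 := Real.rpow_le_one (Nat.cast_nonneg _) hne (by norm_num)
    linarith
  have hlX : 0 < Real.log X := Real.log_pos hX1
  have hwp : 0 < D.win 8 := h.win_pos (by omega)
  obtain ⟨hM0, hM⟩ := siz_MM h hs (by omega : 8 ≤ 8) hp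
  have hlM : Real.log (D.MM 8 t : ℝ) ≤ 1 / 2 * Real.log X := by
    rw [← Real.log_rpow (by linarith)]
    exact Real.log_le_log (by exact_mod_cast hM0) hM
  have hWX : D.win 8 ≤ X := by
    refine (siz_win h hs (by omega)).trans ?_
    calc (X : ℝ) ^ (1 / 100 : ℝ) ≤ (X : ℝ) ^ (1 : ℝ) :=
          Real.rpow_le_rpow_of_exponent_le hX1.le (by norm_num)
      _ = X := Real.rpow_one _
  have hD : 0 < De D.v 4 := h.De_pos (by norm_num)
  have hDn : (((De D.v 4).natAbs : ℕ) : ℤ) = De D.v 4 := Int.natAbs_of_nonneg hD.le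
  have hDr : (((De D.v 4).natAbs : ℕ) : ℝ) = De D.v 4 := by
    rw [Nat.cast_natAbs, abs_of_pos hD]
  have e5 : D.v 5 = (0, 1) := h.tin.v5
  obtain ⟨m1, m2⟩ := mu_spec (h.tin.cp 4 (by norm_num) (by norm_num))
    (show IsCoprime (D.v 5).1 (D.v 5).2 by rw [e5]; exact isCoprime_one_right)
  change IsCoprime (mu (D.v 4) (D.v 5)) (De D.v 4) at m1
  obtain ⟨ν, κ, hν⟩ := m1
  have hνc : IsCoprime ν (De D.v 4) := ⟨mu (D.v 4) (D.v 5), κ, by linarith⟩
  have h9c : IsCoprime (D.d9 : ℤ) (De D.v 4) := by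
    have := Dat.cop_of_tin h (dvd_mul_left D.d9 D.d0) (by norm_num : 4 < 5) (by norm_num)
    rw [Int.isCoprime_iff_gcd_eq_one, Int.gcd_eq_natAbs, Int.natAbs_natCast]
    exact this
  have hrc : IsCoprime (ν * (D.d9 : ℤ)) (De D.v 4) := IsCoprime.mul_left hνc h9c
  set F : Finset (ℕ × ℤ) := (Fz D.P (D.MM 8 t) ∪ (range 7).biUnion (fun l => Fr D.P (t l)
    (dt (D.v ((l + 1) / 2)) (D.v 5)) (D.d9 * dt (D.v ((l + 1) / 2)) (D.v 4)))).filter
      (fun a => ¬ a.1 ∣ (De D.v 4).natAbs) with hF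
  have hmain := hc (D.win 8) (De D.v 4).natAbs (ν * (D.d9 : ℤ)) F (D.v 5) (D.v 4) (D.d9 : ℤ)
    hw hWX
    (by
      intro p hp1 hp2 hd
      exact h.tin.co 4 (by norm_num) p hp1 hp2 (Int.natCast_dvd.2 hd))
    (Int.natAbs_pos.2 hD.ne')
    (by rw [hDr]; exact hΔ)
    (by rw [hDn]; exact hrc)
    (by
      intro a ha
      rw [hF, mem_filter, mem_union] at ha
      obtain ⟨ha1, ha2⟩ := ha
      rcases ha1 with ha1 | ha1
      · obtain ⟨b1, b2, -⟩ := fz_mem.1 ha1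
        exact ⟨Nat.prime_of_mem_primeFactors b1, b2, ha2⟩
      · rw [mem_biUnion] at ha1
        obtain ⟨l, _, hl⟩ := ha1
        obtain ⟨b1, b2, -⟩ := fr_mem.1 hl
        exact ⟨Nat.prime_of_mem_primeFactors b1, b2, ha2⟩)
    (by
      have c1 : ((Fz D.P (D.MM 8 t)).card : ℝ) ≤ Real.log X := by
        refine (fz_card D.P hM0).trans ?_
        linarith
      have c2 : ∀ l ∈ range 7, ((Fr D.P (t l)
          (dt (D.v ((l + 1) / 2)) (D.v 5)) (D.d9 * dt (D.v ((l + 1) / 2)) (D.v 4))).card : ℝ) ≤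
          Real.log X := by
        intro l hl
        rw [mem_range] at hl
        have ht0 : 0 < t l := hp.pos (by omega)
        refine (fr_card D.P _ _ ht0).trans ?_
        have h3 := siz_t h hs hp l (by omega) (by omega)
        have h4 : Real.log (t l : ℝ) ≤ 1 / 100 * Real.log X := by
          rw [← Real.log_rpow (by linarith)]
          exact Real.log_le_log (by exact_mod_cast ht0) h3
        linarith
      have c3 : (F.card : ℝ) ≤ (Fz D.P (D.MM 8 t)).card + ∑ l ∈ range 7, ((Fr D.P (t l)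
          (dt (D.v ((l + 1) / 2)) (D.v 5))
            (D.d9 * dt (D.v ((l + 1) / 2)) (D.v 4))).card : ℝ) := by
        have c4 : F.card ≤ (Fz D.P (D.MM 8 t)).card + ∑ l ∈ range 7, (Fr D.P (t l)
          (dt (D.v ((l + 1) / 2)) (D.v 5))
            (D.d9 * dt (D.v ((l + 1) / 2)) (D.v 4))).card := by
          refine (card_filter_le _ _).trans ((card_union_le _ _).trans ?_)
          exact Nat.add_le_add_left card_biUnion_le _
        exact_mod_cast c4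
      have c5 := sum_le_sum c2
      rw [sum_const, card_range, nsmul_eq_mul] at c5
      push_cast at c5
      linarith)
    (by
      intro p hp1 hp2 hd
      rw [dt_neg] at hd
      exact h.tin.co 4 (by norm_num) p hp1 hp2 ((dvd_neg).1 hd))
    (by
      intro p hp1 hp2 hd
      have h3 := (h.e9.2 p hp1 (Int.natCast_dvd_natCast.1 hd)).2
      have h4 := h.P1le
      have h5 : (p : ℝ) ≤ D.P1 := by exact_mod_cast hp2
      linarith)
    (D.SS 8 t)
    (by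
      intro n hn hni
      rw [mem_PD hwp.le] at hn
      obtain ⟨n1, n2, n3, n4, n5⟩ := hn
      rw [hDn] at n3
      rw [Dat.mem_SS (by norm_num) (by norm_num) hwp.le]
      -- `n` is coprime to `Δ_4`
      have hnc : IsCoprime (n : ℤ) (De D.v 4) := by
        obtain ⟨k, hk⟩ := n3
        have e : (n : ℤ) = ν * (D.d9 : ℤ) + De D.v 4 * k := by linarith
        rw [e]
        exact IsCoprime.add_mul_left_left hrc k
      have hnp : ∀ p : ℕ, p.Prime → p ∣ n → ¬ p ∣ (De D.v 4).natAbs := by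
        intro p hp1 hp2 hp3
        have h6 := hnc.isUnit_of_dvd' (Int.natCast_dvd_natCast.2 hp2) (Int.natCast_dvd.2 hp3)
        exact (Nat.prime_iff_prime_int.1 hp1).not_isUnit h6
      have elc : lc (D.v 4) (D.v 5) n D.d9 = lc (D.v 5) (D.v 4) D.d9 n := by
        unfold lc
        rw [add_comm, add_comm ((n : ℤ) * (D.v 5).2)]
      refine ⟨n1, n2, n5, ?_, fun ho => absurd ho (by norm_num), fun _ => ⟨?_, ?_, ?_⟩⟩
      · refine dp_cop n5 ?_
        intro p hp1 hp2 hp3 hp4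
        refine n4 (p, 0) ?_ ?_
        · rw [hF, mem_filter, mem_union]
          exact ⟨Or.inl (fz_mem.2 ⟨Nat.mem_primeFactors.2 ⟨hp1, hp2, hM0.ne'⟩, hp3, rfl⟩),
            hnp p hp1 hp4⟩
        · simpa using Int.natCast_dvd_natCast.2 hp4
      · rw [m2]
        change De D.v 4 ∣ (D.d9 : ℤ) - mu (D.v 4) (D.v 5) * n
        obtain ⟨k, hk⟩ := n3
        refine ⟨κ * D.d9 - mu (D.v 4) (D.v 5) * k, ?_⟩
        have e : (n : ℤ) = ν * (D.d9 : ℤ) + De D.v 4 * k := by linarith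
        rw [e]
        linear_combination (-(D.d9 : ℤ)) * hν
      · rw [elc]
        exact hni
      · intro l hl
        rw [Nat.coprime_iff_gcd_eq_one]
        by_contra hne
        obtain ⟨p, hp1, hpd⟩ := Nat.exists_prime_and_dvd hne
        have h1 : p ∣ t l := hpd.trans (Nat.gcd_dvd_left _ _)
        have h2 : (p : ℤ) ∣ dt (D.v ((l + 1) / 2)) (lc (D.v 4) (D.v 5) n D.d9) :=
          Int.natCast_dvd.2 (hpd.trans (Nat.gcd_dvd_right _ _))
        have h3 : dt (D.v ((l + 1) / 2)) (lc (D.v 4) (D.v 5) n D.d9) =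
            dt (D.v ((l + 1) / 2)) (D.v 5) * n + D.d9 * dt (D.v ((l + 1) / 2)) (D.v 4) := by
          simp only [dt, lc]
          ring
        rw [h3] at h2
        have hP : D.P < (p : ℝ) := ((hp.dp l (by omega)).2 p hp1 h1).2
        have hcop := hp.cv l (by omega) ((l + 1) / 2) 5 (by omega) (by norm_num)
        have hpc : IsCoprime (p : ℤ) (dt (D.v ((l + 1) / 2)) (D.v 5)) := by
          rw [Int.isCoprime_iff_gcd_eq_one, Int.gcd_eq_natAbs, Int.natAbs_natCast]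
          exact Nat.Coprime.coprime_dvd_left h1 hcop
        rw [rs_spec hpc] at h2
        refine n4 (p, rs p (dt (D.v ((l + 1) / 2)) (D.v 5))
          (D.d9 * dt (D.v ((l + 1) / 2)) (D.v 4))) ?_ h2
        rw [hF, mem_filter, mem_union, mem_biUnion]
        refine ⟨Or.inr ⟨l, mem_range.2 hl, fr_mem.2 ⟨Nat.mem_primeFactors.2
          ⟨hp1, h1, (hp.pos (by omega)).ne'⟩, hP, rfl⟩⟩, ?_⟩
        intro hd
        have hcop2 := hp.cv l (by omega) 4 5 (by norm_num) (by norm_num)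
        exact hp1.one_lt.ne' (Nat.dvd_one.1 (hcop2 ▸ Nat.dvd_gcd h1 hd)))
  rw [hDr] at hmain
  exact hmain

alias step_eight := step_eight_pr

end Pool.Agent.TPA
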