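import Pool.Agent.Lib_helper15.TP.Facts
import Pool.Agent.Lib_helper15.TPF.Defs2
import Pool.Agent.Lib_helper15.TPF.TA4

/-! Block TA7 (uses TA4: `siz_win`, `siz_MM`) -/

set_option autoImplicit false

namespace Pool.Agent.TPA

open Finset Pool.Agent.PENT Pool.Agent.PATH.NC

/-- block TA7 (uses TA4): the steps `j = 2, 4, 6`; `q = 1`, `r = 0`, `F = Fz P (MM j t)` -/
theorem step_even_pr {D : Dat} (h : D.Hyp) {X : ℕ} (hs : Siz D X) (hX : PX X D.P) {α c δ : ℝ}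
    (hc : ∀ (W : ℝ) (F : Finset (ℕ × ℤ)), (X : ℝ) ^ δ ≤ W → W ≤ X →
      (∀ a ∈ F, a.1.Prime ∧ D.P < (a.1 : ℝ)) → (F.card : ℝ) ≤ 100 * Real.log X →
      c ≤ ∑ n ∈ PD W D.P 1 0 F, fw D.P α n / n)
    {b : ℕ} (hb : 1 ≤ b) (hb3 : b ≤ 3) {t : ℕ → ℕ} (hp : Dat.PF D (2 * b) t)
    (hw : (X : ℝ) ^ δ ≤ D.win (2 * b)) :
    c ≤ ∑ n ∈ D.SS (2 * b) t, fw D.P α n / n := by
  have hX1 : (1 : ℝ) < X := by
    have h1 := hs.big
    by_contra hne
    push Not at hne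
    have h2 : (X : ℝ) ^ (1 / 500 : ℝ) ≤ 1 := Real.rpow_le_one (Nat.cast_nonneg _) hne (by norm_num)
    linarith
  have hlX : 0 < Real.log X := Real.log_pos hX1
  have hwp : 0 < D.win (2 * b) := h.win_pos (by omega)
  obtain ⟨hM0, hM⟩ := siz_MM h hs (by omega : 2 * b ≤ 8) hp
  have hlM : Real.log (D.MM (2 * b) t : ℝ) ≤ 1 / 2 * Real.log X := by
    rw [← Real.log_rpow (by linarith)]
    exact Real.log_le_log (by exact_mod_cast hM0) hM
  have hWX : D.win (2 * b) ≤ X := by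
    refine (siz_win h hs (by omega)).trans ?_
    calc (X : ℝ) ^ (1 / 100 : ℝ) ≤ (X : ℝ) ^ (1 : ℝ) :=
          Real.rpow_le_rpow_of_exponent_le hX1.le (by norm_num)
      _ = X := Real.rpow_one _
  have h1 := hc (D.win (2 * b)) (Fz D.P (D.MM (2 * b) t)) hw hWX
    (by
      intro a ha
      obtain ⟨b1, b2, -⟩ := fz_mem.1 ha
      exact ⟨Nat.prime_of_mem_primeFactors b1, b2⟩)
    (by
      refine (fz_card D.P hM0).trans ?_
      linarith)
  have h2 : D.SS (2 * b) t = PD (D.win (2 * b)) D.P 1 0 (Fz D.P (D.MM (2 * b) t)) := by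
    ext n
    rw [Dat.mem_SS (by omega) (by omega) hwp.le, mem_PD hwp.le]
    constructor
    · rintro ⟨a1, a2, a3, a4, -⟩
      refine ⟨a1, a2, by simp, ?_, a3⟩
      intro a ha hd
      obtain ⟨b1, b2, b3⟩ := fz_mem.1 ha
      rw [b3, sub_zero] at hd
      have hpr := Nat.prime_of_mem_primeFactors b1
      have hd1 : a.1 ∣ n := Int.natCast_dvd_natCast.1 hd
      have hd2 : a.1 ∣ D.MM (2 * b) t := Nat.dvd_of_mem_primeFactors b1
      exact hpr.one_lt.ne' (Nat.dvd_one.1 (a4 ▸ Nat.dvd_gcd hd1 hd2))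
    · rintro ⟨a1, a2, -, a4, a5⟩
      refine ⟨a1, a2, a5, dp_cop a5 (fz_avoid hM0.ne' a4), ?_, ?_⟩
      · intro ho
        omega
      · intro ho
        omega
  rw [h2]
  exact h1

alias step_even := step_even_pr

end Pool.Agent.TPA
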